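import Pool.Agent.MP_1ac210_gt.H95.Whitney

/-! Block relations: closed relations that match two continuous decompositions into continua. -/

open Set Metric Filter Topology

namespace Pool.Agent.MP_1ac210_gt.H95

set_option linter.unusedSectionVars false

variable {X : Type} [MetricSpace X] [CompactSpace X] [ConnectedSpace X] [Nontrivial X]

/-- A block relation. -/
structure Blk (X : Type) [MetricSpace X] [CompactSpace X] [ConnectedSpace X] [Nontrivial X] where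
  R : Set (X × X)
  a : X → ℝ
  b : X → ℝ
  closed : IsClosed R
  ca : Continuous a
  cb : Continuous b
  apos : ∀ x, 0 < a x
  bpos : ∀ w, 0 < b w
  ale : ∀ x, a x ≤ mu (univ : Set X)
  ble : ∀ w, b w ≤ mu (univ : Set X)
  dom1 : ∀ x, ∃ w, (x, w) ∈ R
  dom2 : ∀ w, ∃ x, (x, w) ∈ R
  sec1 : ∀ x w, (x, w) ∈ R → ∀ x', (x', w) ∈ R ↔ x' ∈ A x (a x)
  sec2 : ∀ x w, (x, w) ∈ R → ∀ w', (x, w') ∈ R ↔ w' ∈ A w (b w)

/-- The transposed block relation. -/
def Blk.T (B : Blk X) : Blk X where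
  R := {z | (z.2, z.1) ∈ B.R}
  a := B.b
  b := B.a
  closed := B.closed.preimage (f := fun z : X × X => (z.2, z.1)) (by fun_prop)
  ca := B.cb
  cb := B.ca
  apos := B.bpos
  bpos := B.apos
  ale := B.ble
  ble := B.ale
  dom1 := B.dom2
  dom2 := B.dom1
  sec1 := fun x w h => B.sec2 w x h
  sec2 := fun x w h => B.sec1 w x h

/-- The homeomorphism `z` respects the block relation. -/
def Blk.Mem (B : Blk X) (z : X ≃ₜ X) : Prop := ∀ x, (x, z x) ∈ B.R

lemma Blk.Mem.T {B : Blk X} {z : X ≃ₜ X} (h : B.Mem z) : B.T.Mem z.symm := fun w => by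
  have := h (z.symm w)
  rw [z.apply_symm_apply] at this
  exact this

lemma Blk.mu_a (hX : HI X) (B : Blk X) (x : X) : mu (A x (B.a x)) = B.a x :=
  mu_A hX x (B.apos x).le (B.ale x)

lemma Blk.Ab_eq (B : Blk X) {x x' : X} (h : x' ∈ A x (B.a x)) : A x' (B.a x') = A x (B.a x) := by
  obtain ⟨w, hw⟩ := B.dom1 x
  have h' := (B.sec1 x w hw x').2 h
  ext p
  rw [← B.sec1 x w hw, ← B.sec1 x' w h']

lemma Blk.a_const (hX : HI X) (B : Blk X) {x x' : X} (h : x' ∈ A x (B.a x)) : B.a x' = B.a x := by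
  rw [← B.mu_a hX x', B.Ab_eq h, B.mu_a hX]

lemma Blk.b_const (hX : HI X) (B : Blk X) {w w' : X} (h : w' ∈ A w (B.b w)) : B.b w' = B.b w :=
  B.T.a_const hX h

lemma Blk.mem_of (B : Blk X) {x w x' w' : X} (h : (x, w) ∈ B.R) (h1 : x' ∈ A x (B.a x))
    (h2 : w' ∈ A w (B.b w)) : (x', w') ∈ B.R :=
  (B.sec2 x' w ((B.sec1 x w h x').2 h1) w').2 h2

lemma Blk.image (B : Blk X) {z : X ≃ₜ X} (hz : B.Mem z) {x w : X} (h : (x, w) ∈ B.R) :
    z '' A x (B.a x) = A w (B.b w) := by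
  ext q; constructor
  · rintro ⟨p, hp, rfl⟩
    exact (B.sec2 p w ((B.sec1 x w h p).2 hp) _).1 (hz p)
  · intro hq
    refine ⟨z.symm q, (B.sec1 x q ((B.sec2 x w h q).2 hq) _).1 ?_, z.apply_symm_apply q⟩
    exact hz.T q

lemma Blk.mu_image (hX : HI X) (B : Blk X) {z : X ≃ₜ X} (hz : B.Mem z) {x w : X}
    (h : (x, w) ∈ B.R) : mu (z '' A x (B.a x)) = B.b w := by
  rw [B.image hz h]; exact B.T.mu_a hX w

lemma Blk.a_le (hX : HI X) {B B' : Blk X} (h : B'.R ⊆ B.R) (x : X) : B'.a x ≤ B.a x := by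
  obtain ⟨w, hw⟩ := B'.dom1 x
  rw [← B.mu_a hX x, ← B'.mu_a hX x]
  exact mu_mono fun p hp => (B.sec1 x w (h hw) p).1 (h ((B'.sec1 x w hw p).2 hp))

lemma Blk.b_le (hX : HI X) {B B' : Blk X} (h : B'.R ⊆ B.R) (w : X) : B'.b w ≤ B.b w :=
  Blk.a_le hX (B := B.T) (B' := B'.T) (fun _ hz => h hz) w

lemma Blk.b_ge (hX : HI X) {B B' : Blk X} (h : B'.R ⊆ B.R) {x w : X} (hxw : (x, w) ∈ B'.R)
    (ha : B.a x ≤ B'.a x) : B.b w ≤ B'.b w := by
  have e1 : mu (A w (B.b w)) = B.b w := B.T.mu_a hX w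
  have e2 : mu (A w (B'.b w)) = B'.b w := B'.T.mu_a hX w
  rw [← e1, ← e2]
  refine mu_mono fun q hq => ?_
  obtain ⟨x', hx'⟩ := B'.dom2 q
  have h1 := (B.sec1 x q ((B.sec2 x w (h hxw) q).2 hq) x').1 (h hx')
  exact (B'.sec2 x' w ((B'.sec1 x w hxw x').2 (A_mono x ha h1)) q).1 hx'

lemma pos_min {g : X → ℝ} (hg : Continuous g) (h : ∀ x, 0 < g x) : ∃ c > 0, ∀ x, c ≤ g x := by
  obtain ⟨p, -, hp⟩ := isCompact_univ.exists_isMinOn univ_nonempty hg.continuousOn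
  exact ⟨g p, h p, fun x => hp (mem_univ x)⟩

lemma A_fun (hX : HI X) {l : X → ℝ} (hl : Continuous l) {ε : ℝ} (hε : 0 < ε) :
    ∃ ρ > 0, ∀ x x', dist x x' ≤ ρ → Near (A x (l x)) (A x' (l x')) ε := by
  obtain ⟨ρ, h1, h2⟩ := A_unif hX hε
  obtain ⟨ρ', h3, h4⟩ := unifR hl h1
  refine ⟨min ρ ρ', lt_min h1 h3, fun x x' h => h2 _ _ _ _ (h.trans (min_le_left _ _)) ?_⟩
  linarith [(abs_le.1 (h4 x x' (h.trans (min_le_right _ _)))).2]

lemma cpt_gap {Y : Type} [TopologicalSpace Y] {T : Set Y} (hT : IsCompact T) {g : Y → ℝ}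
    (hg : Continuous g) {P : Y → Prop} (h : ∀ y ∈ T, g y ≤ 0 → ∀ᶠ y' in 𝓝 y, P y') :
    ∃ τ > 0, ∀ y ∈ T, g y ≤ τ → P y := by
  have hD : IsCompact (T \ interior {y | P y}) := hT.diff isOpen_interior
  rcases (T \ interior {y | P y}).eq_empty_or_nonempty with e | e
  · refine ⟨1, one_pos, fun y hy _ => ?_⟩
    by_contra hn
    exact e.subset (show y ∈ _ from ⟨hy, fun a => hn (interior_subset a)⟩)
  · obtain ⟨p, hp, hmin⟩ := hD.exists_isMinOn e hg.continuousOn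
    have hpos : 0 < g p := by
      by_contra hn
      exact hp.2 (mem_interior_iff_mem_nhds.2 (h p hp.1 (not_lt.1 hn)))
    refine ⟨g p / 2, by linarith, fun y hy hle => ?_⟩
    by_contra hn
    have : g p ≤ g y := hmin (show y ∈ _ from ⟨hy, fun a => hn (interior_subset a)⟩)
    linarith

lemma Blk.unif (hX : HI X) (B : Blk X) {ε : ℝ} (hε : 0 < ε) : ∃ τ > 0, ∀ z ∈ B.R, ∀ z' ∈ B.R,
    dist z.2 z'.2 ≤ τ → Near (A z.1 (B.a z.1)) (A z'.1 (B.a z'.1)) ε := by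
  obtain ⟨ρ, h1, h2⟩ := A_fun hX B.ca (half_pos hε)
  obtain ⟨τ, h3, h4⟩ := cpt_gap (B.closed.isCompact.prod B.closed.isCompact)
    (g := fun y : (X × X) × (X × X) => dist y.1.2 y.2.2) (by fun_prop)
    (P := fun y => Near (A y.1.1 (B.a y.1.1)) (A y.2.1 (B.a y.2.1)) ε) (by
      rintro ⟨⟨x, w⟩, ⟨x', w'⟩⟩ ⟨a, b⟩ hd
      obtain rfl : w = w' := dist_le_zero.1 hd
      have e := B.Ab_eq ((B.sec1 x w a x').1 b)
      filter_upwards [closedBall_mem_nhds _ h1] with y hy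
      rw [mem_closedBall, Prod.dist_eq, Prod.dist_eq, Prod.dist_eq, max_le_iff, max_le_iff,
        max_le_iff] at hy
      have n1 := h2 y.1.1 x hy.1.1
      have n2 := h2 x' y.2.1 (by rw [dist_comm]; exact hy.2.1)
      rw [e] at n2
      simpa using n1.trans n2)
  exact ⟨τ, h3, fun z hz z' hz' hd => h4 (z, z') ⟨hz, hz'⟩ hd⟩

/-- The block relation given by a homeomorphism and a size function. -/
lemma exists_blk (hX : HI X) (z : X ≃ₜ X) {l : X → ℝ} (hl : Continuous l) (h0 : ∀ x, 0 < l x)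
    (h1 : ∀ x, l x ≤ mu (univ : Set X)) (hc : ∀ x, ∀ x' ∈ A x (l x), l x' = l x) :
    ∃ B : Blk X, B.a = l ∧ B.Mem z ∧ ∀ B' : Blk X, B'.Mem z → (∀ x, l x ≤ B'.a x) → B.R ⊆ B'.R := by
  have key : ∀ x, ∀ x' ∈ A x (l x), A x' (l x') = A x (l x) := fun x x' h => by
    rw [hc x x' h, A_congr hX h]
  refine ⟨⟨{p | z.symm p.2 ∈ A p.1 (l p.1)}, l,
    fun w => mu (z '' A (z.symm w) (l (z.symm w))), ?_, hl, ?_, h0, fun w => ?_, h1,
    fun w => mu_mono (subset_univ _), fun x => ⟨z x, ?_⟩, fun w => ⟨z.symm w, mem_A _ _⟩,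
    fun x w h x' => ?_, fun x w h w' => ?_⟩, rfl, fun x => ?_, fun B' hz hle p hp => ?_⟩
  · exact (isClosed_A hX).preimage (f := fun p : X × X => (p.1, l p.1, z.symm p.2)) (by fun_prop)
  · exact (continuous_mu_A hX z.continuous).comp
      (f := fun w : X => (z.symm w, l (z.symm w))) (by fun_prop)
  · by_contra hn
    have e := eq_of_mu isClosed_singleton (singleton_nonempty (z (z.symm w)))
      (singleton_subset_iff.2 (mem_image_of_mem z (mem_A (z.symm w) (l (z.symm w)))))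
      (by rw [mu_singleton]; exact not_lt.1 hn)
    have e2 : A (z.symm w) (l (z.symm w)) ⊆ {z.symm w} := fun p hp => by
      have : z p ∈ ({z (z.symm w)} : Set X) := e ▸ mem_image_of_mem z hp
      exact z.injective this
    have := mu_mono e2
    rw [mu_singleton, mu_A hX _ (h0 _).le (h1 _)] at this
    linarith [h0 (z.symm w)]
  · show z.symm (z x) ∈ A x (l x)
    rw [z.symm_apply_apply]; exact mem_A _ _
  · show z.symm w ∈ A x' (l x') ↔ _
    have h' : z.symm w ∈ A x (l x) := h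
    constructor
    · intro a
      rw [← key x _ h', key x' _ a]; exact mem_A _ _
    · intro a
      rw [key x x' a]; exact h'
  · show z.symm w' ∈ A x (l x) ↔ w' ∈ A w (mu (z '' A (z.symm w) (l (z.symm w))))
    have h' : z.symm w ∈ A x (l x) := h
    rw [A_eq hX ((cont_A _ _).image z) ⟨_, mem_A _ _, z.apply_symm_apply w⟩, key x _ h']
    constructor
    · intro a; exact ⟨_, a, z.apply_symm_apply w'⟩
    · rintro ⟨p, a, rfl⟩; rwa [z.symm_apply_apply]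
  · show z.symm (z x) ∈ A x (l x)
    rw [z.symm_apply_apply]; exact mem_A _ _
  · have h' : z.symm p.2 ∈ A p.1 (l p.1) := hp
    have h2 := A_mono _ (hle p.1) h'
    refine (B'.sec1 (z.symm p.2) p.2 (hz.T p.2) p.1).2 ?_
    rw [B'.Ab_eq h2]; exact mem_A _ _

lemma exists_lim {u : ℕ → X → ℝ} (hu : ∀ n, Continuous (u n)) {σ : ℕ → ℝ}
    (hσ : ∀ ε > 0, ∃ n, σ n ≤ ε) (h0 : ∀ n x, 0 ≤ u n x)
    (h : ∀ n k x, u n x ≤ u k x + σ n) :
    ∃ g : X → ℝ, Continuous g ∧ (∀ n x, g x ≤ u n x) ∧ ∀ n x, u n x ≤ g x + σ n := by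
  have hb : ∀ x, BddBelow (range fun n => u n x) := fun x => ⟨0, by rintro _ ⟨n, rfl⟩; exact h0 n x⟩
  have a1 : ∀ n x, ⨅ k, u k x ≤ u n x := fun n x => ciInf_le (hb x) n
  have a2 : ∀ n x, u n x ≤ (⨅ k, u k x) + σ n := fun n x => by
    have : u n x - σ n ≤ ⨅ k, u k x := le_ciInf fun k => by linarith [h n k x]
    linarith
  refine ⟨fun x => ⨅ k, u k x, ?_, a1, a2⟩
  rw [Metric.continuous_iff]
  intro x ε hε
  obtain ⟨n, hn⟩ := hσ (ε / 3) (by linarith)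
  obtain ⟨δ, hδ, hd⟩ := Metric.continuous_iff.1 (hu n) x (ε / 3) (by linarith)
  refine ⟨δ, hδ, fun y hy => ?_⟩
  have := abs_lt.1 (hd y hy)
  rw [Real.dist_eq, abs_lt]
  constructor <;> linarith [a1 n x, a1 n y, a2 n x, a2 n y, this.1, this.2]

lemma mem_A_lim (hX : HI X) {x p : X} {r : ℝ} (h : ∀ ε > 0, p ∈ A x (r + ε)) : p ∈ A x r := by
  refine mem_of_near (cont_A x r).1 fun ε hε => ?_
  obtain ⟨ρ, h1, h2⟩ := A_unif hX hε
  exact h2 x x (r + ρ) r (by simpa using h1.le) le_rfl p (h ρ h1)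

/-- The limit of a decreasing sequence of block relations. -/
lemma lim_blk (hX : HI X) (B : ℕ → Blk X) (hB : ∀ n, (B (n + 1)).R ⊆ (B n).R) {σ : ℕ → ℝ}
    (hσ : ∀ ε > 0, ∃ n, σ n ≤ ε) {β : ℝ} (hβ : 0 < β) (la : ∀ n x, β ≤ (B n).a x)
    (lb : ∀ n x, β ≤ (B n).b x) (ha : ∀ n k x, (B n).a x ≤ (B k).a x + σ n)
    (hb : ∀ n k x, (B n).b x ≤ (B k).b x + σ n) :
    ∃ L : Blk X, ∀ n, L.R ⊆ (B n).R ∧ (∀ x, (B n).a x ≤ L.a x + σ n) ∧
      ∀ x, (B n).b x ≤ L.b x + σ n := by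
  obtain ⟨a, ca, a1, a2⟩ := exists_lim (fun n => (B n).ca) hσ (fun n x => ((B n).apos x).le) ha
  obtain ⟨b, cb, b1, b2⟩ := exists_lim (fun n => (B n).cb) hσ (fun n x => ((B n).bpos x).le) hb
  obtain ⟨n₀, hn₀⟩ := hσ (β / 2) (by linarith)
  refine ⟨⟨⋂ n, (B n).R, a, b, isClosed_iInter fun n => (B n).closed, ca, cb,
    fun x => by linarith [la n₀ x, a2 n₀ x], fun x => by linarith [lb n₀ x, b2 n₀ x],
    fun x => (a1 0 x).trans ((B 0).ale x), fun x => (b1 0 x).trans ((B 0).ble x),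
    fun x => ?_, fun w => ?_, fun x w h x' => ?_, fun x w h w' => ?_⟩,
    fun n => ⟨iInter_subset _ n, a2 n, b2 n⟩⟩
  · have hcl : ∀ n, IsClosed {w | (x, w) ∈ (B n).R} := fun n =>
      (B n).closed.preimage (by fun_prop)
    obtain ⟨w, hw⟩ := IsCompact.nonempty_iInter_of_sequence_nonempty_isCompact_isClosed
      (fun n => {w | (x, w) ∈ (B n).R}) (fun n w hw => hB n hw) (fun n => (B n).dom1 x)
      (hcl 0).isCompact hcl
    exact ⟨w, mem_iInter.2 fun n => mem_iInter.1 hw n⟩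
  · have hcl : ∀ n, IsClosed {x | (x, w) ∈ (B n).R} := fun n =>
      (B n).closed.preimage (by fun_prop)
    obtain ⟨x, hx⟩ := IsCompact.nonempty_iInter_of_sequence_nonempty_isCompact_isClosed
      (fun n => {x | (x, w) ∈ (B n).R}) (fun n w hw => hB n hw) (fun n => (B n).dom2 w)
      (hcl 0).isCompact hcl
    exact ⟨x, mem_iInter.2 fun n => mem_iInter.1 hx n⟩
  · rw [mem_iInter] at h ⊢
    constructor
    · refine fun h' => mem_A_lim hX fun ε hε => ?_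
      obtain ⟨n, hn⟩ := hσ ε hε
      exact A_mono x (by linarith [a2 n x]) (((B n).sec1 x w (h n) x').1 (h' n))
    · exact fun h' n => ((B n).sec1 x w (h n) x').2 (A_mono x (a1 n x) h')
  · rw [mem_iInter] at h ⊢
    constructor
    · refine fun h' => mem_A_lim hX fun ε hε => ?_
      obtain ⟨n, hn⟩ := hσ ε hε
      exact A_mono w (by linarith [b2 n w]) (((B n).sec2 x w (h n) w').1 (h' n))
    · exact fun h' n => ((B n).sec2 x w (h n) w').2 (A_mono w (b1 n w) h')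

end Pool.Agent.MP_1ac210_gt.H95
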