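import Pool.Agent.MP_1ac210_gt.H95.Step

/-! Back and forth inside a block relation, with control of the sizes of images. -/

open Set Metric Filter Topology

namespace Pool.Agent.MP_1ac210_gt.H95

set_option linter.unusedSectionVars false

variable {X : Type} [MetricSpace X] [CompactSpace X] [ConnectedSpace X] [Nontrivial X]

/-- The scale `ε` is adapted to the scale `δ`. -/
def Adapt (X : Type) [MetricSpace X] (δ ε : ℝ) : Prop :=
  ∃ f : X → ℝ, Continuous f ∧ (∀ p q, |f p - f q| ≤ 11 → dist p q ≤ δ) ∧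
    ∀ p q, dist p q ≤ ε → |f p - f q| ≤ 1

lemma exists_adapt (hF : Fine X) {δ : ℝ} (hδ : 0 < δ) : ∃ ε > 0, ε ≤ δ ∧ Adapt X δ ε := by
  obtain ⟨f, hf, h⟩ := hF.scale hδ (show (0 : ℝ) < 11 by norm_num)
  obtain ⟨ρ, h1, h2⟩ := unifR hf one_pos
  exact ⟨min ρ δ, lt_min h1 hδ, min_le_right _ _, f, hf, h,
    fun p q a => h2 p q (a.trans (min_le_left _ _))⟩

/-- The map `h` sends the continua of size `l` to sets that almost fill the matched block. -/
def Good (B : Blk X) (h : X ≃ₜ X) (l : X → ℝ) (ε : ℝ) : Prop :=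
  ∀ x w, (x, w) ∈ B.R → Near (h '' A x (l x)) (A w (B.b w)) ε ∧ Near (A w (B.b w)) (h '' A x (l x)) ε

lemma Good.mono {B : Blk X} {h : X ≃ₜ X} {l : X → ℝ} {ε ε' : ℝ} (g : Good B h l ε) (e : ε ≤ ε') :
    Good B h l ε' := fun x w a => ⟨(g x w a).1.mono e, (g x w a).2.mono e⟩

/-- Admissible size functions. -/
def Size (B : Blk X) (l : X → ℝ) : Prop :=
  Continuous l ∧ (∀ x, 0 ≤ l x ∧ l x ≤ B.a x) ∧ ∀ x, ∀ x' ∈ A x (B.a x), l x' = l x

lemma size_sub (hX : HI X) (B : Blk X) {t : ℝ} (h0 : 0 ≤ t) (h1 : ∀ x, t ≤ B.a x) :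
    Size B fun x => B.a x - t :=
  ⟨B.ca.sub continuous_const, fun x => ⟨by linarith [h1 x], by linarith⟩,
    fun x x' h => by simp only [B.a_const hX h]⟩

lemma small_sub (hX : HI X) (B : Blk X) {ε : ℝ} (hε : 0 < ε) {c : ℝ} (hc : 0 < c) :
    ∃ t > 0, t ≤ c ∧ (∀ x, t ≤ B.a x) ∧ ∀ x, Near (A x (B.a x)) (A x (B.a x - t)) ε := by
  obtain ⟨ρ, h1, h2⟩ := A_unif hX hε
  obtain ⟨β, h3, h4⟩ := pos_min B.ca B.apos
  refine ⟨min c (min ρ β), by positivity, min_le_left _ _,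
    fun x => ((min_le_right _ _).trans (min_le_right _ _)).trans (h4 x),
    fun x => h2 _ _ _ _ (by simpa using h1.le) ?_⟩
  linarith [(min_le_right c (min ρ β)).trans (min_le_left _ _)]

lemma half (hX : HI X) (hF : Fine X) (B : Blk X) {h : X ≃ₜ X} {l : X → ℝ} (hl : Size B l)
    {δ ε : ℝ} (ε0 : 0 < ε) (ad : Adapt X δ ε) (g : Good B h l (ε / 2)) {t : ℝ} (t0 : 0 < t)
    (t1 : ∀ w, t ≤ B.b w) (t2 : ∀ w, Near (A w (B.b w)) (A w (B.b w - t)) (ε / 2))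
    {τ : ℝ} (τ0 : 0 < τ) (τ1 : τ ≤ t / 2) :
    ∃ h' : X ≃ₜ X, (∀ x, dist (h x) (h' x) ≤ δ) ∧
      (∀ K x, Cont K → x ∈ K → mu (h' '' K) ≤ B.b (h' x) - t - τ → mu K ≤ l x + τ) ∧
      Good B.T h'.symm (fun w => B.b w - t / 2) τ := by
  obtain ⟨f, hf, f1, f2⟩ := ad
  have hk := size_sub hX B.T t0.le t1
  obtain ⟨h', a1, a2, a3⟩ := step hX hF B hl.1 hk.1 hl.2.1 hk.2.1 hl.2.2 hk.2.2
    (φ := fun x => f (h x)) (by fun_prop) hf one_pos
    (fun z hz p hp => by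
      obtain ⟨q, a, b⟩ := ((g z.1 z.2 hz).1.trans (t2 z.2)) _ (mem_image_of_mem h hp)
      exact ⟨q, a, f2 _ _ (by linarith)⟩)
    (fun z hz q hq => by
      obtain ⟨_, ⟨p, a, rfl⟩, b⟩ := (g z.1 z.2 hz).2 q
        (A_mono _ (show B.b z.2 - t ≤ B.b z.2 by linarith) hq)
      exact ⟨p, a, f2 _ _ (by rw [dist_comm]; linarith)⟩) τ0
  refine ⟨h', fun x => f1 _ _ (by simpa using a1 x), a2, fun w x hxw => ?_⟩
  rw [h'.image_symm]
  refine a3 x w _ hxw (cont_A _ _) (mem_A _ _) (A_mono _ (by linarith)) ?_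
  rw [mu_A hX _ (by linarith [t1 w]) (by linarith [B.ble w])]
  show B.b w - t + τ ≤ _
  linarith

/-- A state of the back and forth construction. -/
structure St (B : Blk X) where
  h : X ≃ₜ X
  l : X → ℝ
  δ : ℝ
  ε : ℝ
  τ : ℝ
  hl : Size B l
  δ0 : 0 < δ
  ε0 : 0 < ε
  τ0 : 0 < τ
  ad : Adapt X δ ε
  good : Good B h l (ε / 2)

lemma double (hX : HI X) (hF : Fine X) (B : Blk X) {Z : ℝ → ℝ → Prop}
    (hZ : ∀ e > 0, ∃ κ > 0, Z e κ) (s : St B) :
    ∃ s' : St B, s'.δ ≤ s.δ / 2 ∧ s'.ε ≤ s'.δ ∧ (∀ x, dist (s'.h x) (s.h x) ≤ 2 * s.δ) ∧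
      (∀ x x' w, dist w (s'.h x) ≤ 4 * s'.δ → dist w (s'.h x') ≤ 4 * s'.δ →
        dist x x' ≤ 4 * s.δ) ∧
      ∃ e κ, Z e κ ∧ e ≤ s.δ ∧ (∀ x, s'.l x + s'.τ = B.a x - e) ∧
        ∀ z : X ≃ₜ X, (∀ x, dist (z x) (s'.h x) ≤ 4 * s'.δ) → ∀ x r, s.l x + s.τ ≤ r →
          r ≤ mu (univ : Set X) → B.b (z x) - κ ≤ mu (z '' A x r) := by
  obtain ⟨h, l, δ, ε, τ, hl, δ0, ε0, τ0, ad, good⟩ := s
  obtain ⟨ρ₁, p1, m1⟩ := unif h.continuous δ0
  obtain ⟨ρ₂, p2, m2⟩ := unifR hl.1 (show 0 < τ / 4 by linarith)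
  obtain ⟨δ', d0, d1, d2, d3, d4⟩ : ∃ δ' > 0, δ' ≤ ρ₁ ∧ 2 * δ' ≤ ρ₂ ∧ 32 * δ' ≤ τ ∧ δ' ≤ δ :=
    ⟨min (min ρ₁ (ρ₂ / 2)) (min (τ / 32) δ), by positivity,
      by simp only [min_def]; split_ifs <;> refine ⟨?_, ?_, ?_, ?_⟩ <;> linarith⟩
  obtain ⟨ε', e0, -, ad'⟩ := exists_adapt hF d0
  obtain ⟨e, q0, q1, q2, q3⟩ := small_sub hX B (half_pos e0) δ0
  obtain ⟨κ, κ0, hκ⟩ := hZ (e / 4) (by linarith)
  obtain ⟨t, t0, t1, t2, t3⟩ := small_sub hX B.T (half_pos ε0) (half_pos κ0)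
  obtain ⟨τf, f0, f1, f2, f3⟩ : ∃ τf > 0, τf ≤ t / 2 ∧ τf ≤ ε' / 2 ∧ τf ≤ τ / 4 :=
    ⟨min (t / 2) (min (ε' / 2) (τ / 4)), by positivity, min_le_left _ _,
      (min_le_right _ _).trans (min_le_left _ _), (min_le_right _ _).trans (min_le_right _ _)⟩
  obtain ⟨h', a1, a2, a3⟩ := half hX hF B hl ε0 ad good t0 t2 t3 f0 f1
  obtain ⟨ρ₃, p3, m3⟩ := unif h'.symm.continuous d0
  obtain ⟨δ'', c0, c1, c2⟩ : ∃ δ'' > 0, δ'' ≤ δ / 2 ∧ 4 * δ'' ≤ ρ₃ :=
    ⟨min (δ / 2) (ρ₃ / 4), by positivity, min_le_left _ _,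
      by linarith [min_le_right (δ / 2) (ρ₃ / 4)]⟩
  obtain ⟨ε'', g0, g1, ad''⟩ := exists_adapt hF c0
  obtain ⟨g, b1, -, b3⟩ := half hX hF B.T
    (size_sub hX B.T (half_pos t0).le fun w => by linarith [t2 w]) e0 ad' (a3.mono f2) q0 q2 q3
    (lt_min (half_pos q0) (half_pos g0)) (min_le_left _ _)
  have key : ∀ x w, dist w (g.symm x) ≤ 4 * δ'' → dist (h'.symm w) x ≤ 2 * δ' := fun x w a => by
    have u := b1 (g.symm x)
    rw [g.apply_symm_apply] at u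
    linarith [m3 _ _ (a.trans c2), dist_triangle (h'.symm w) (h'.symm (g.symm x)) x]
  refine ⟨⟨g.symm, fun x => B.a x - e / 2, δ'', ε'', e / 4,
    size_sub hX B (half_pos q0).le fun x => by linarith [q2 x], c0, g0, by linarith, ad'',
    Good.mono (B := B) b3 (min_le_right _ _)⟩, c1, g1, fun x => ?_, fun x x' w u v => ?_,
    e / 4, κ, hκ, by simp only; linarith, fun x => by simp only; ring, fun z hz x r r0 r1 => ?_⟩
  · have u := b1 (g.symm x)
    rw [g.apply_symm_apply] at u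
    have v := a1 (h'.symm (g.symm x))
    rw [h'.apply_symm_apply] at v
    simp only
    linarith [m1 _ _ (u.trans d1), dist_triangle_left (g.symm x) (h x) (h (h'.symm (g.symm x)))]
  · simp only at u v ⊢
    linarith [key x w u, key x' w v, dist_triangle_left x x' (h'.symm w)]
  · simp only at hz r0
    by_contra hn
    have e1 : h' '' (h'.symm '' (z '' A x r)) = z '' A x r := by
      rw [image_image]; simp
    have u := a2 (h'.symm '' (z '' A x r)) (h'.symm (z x)) (((cont_A x r).image z).image _)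
      (mem_image_of_mem _ (mem_image_of_mem _ (mem_A x r)))
      (by rw [e1, h'.apply_symm_apply]; linarith)
    have nr : Near (A x r) (h'.symm '' (z '' A x r)) (2 * δ') := fun p hp =>
      ⟨_, mem_image_of_mem _ (mem_image_of_mem _ hp), by rw [dist_comm]; exact key p _ (hz p)⟩
    have v := mu_near (by linarith) nr
    rw [mu_A hX x (by linarith [(hl.2.1 x).1]) r1] at v
    linarith [(abs_le.1 (m2 _ _ ((key x _ (hz x)).trans d2))).2]

/-- A nearby homeomorphism that respects the block relation, with control of sizes. -/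
theorem lemmaM (hX : HI X) (hF : Fine X) (B : Blk X) {Z : ℝ → ℝ → Prop}
    (hZ : ∀ e > 0, ∃ κ > 0, Z e κ) (s : St B) :
    ∃ y : X ≃ₜ X, B.Mem y ∧ (∀ x, dist (y x) (s.h x) ≤ 4 * s.δ) ∧
      ∀ x r, s.l x + s.τ ≤ r → r < B.a x →
        ∃ e κ, Z e κ ∧ e ≤ B.a x - r ∧ B.b (y x) - κ ≤ mu (y '' A x r) := by
  choose nx h1 h2 h3 h4 e κ h5 h6 h7 h8 using double hX hF B hZ
  set u : ℕ → St B := fun n => nx^[n] s with hu
  have us : ∀ n, u (n + 1) = nx (u n) := fun n => Function.iterate_succ_apply' _ _ _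
  have u0 : u 0 = s := rfl
  clear_value u
  have dl : ∀ n, (u n).δ ≤ s.δ * (1 / 2) ^ n := fun n => by
    induction n with
    | zero => simp [u0]
    | succ n ih => rw [us, pow_succ]; linarith [h1 (u n)]
  have sm : ∀ ε > 0, ∃ n, (u n).δ ≤ ε := fun ε hε => by
    obtain ⟨n, hn⟩ := exists_pow_lt_of_lt_one (div_pos hε s.δ0) (show (1 / 2 : ℝ) < 1 by norm_num)
    refine ⟨n, (dl n).trans ?_⟩
    rw [lt_div_iff₀ s.δ0] at hn
    linarith
  obtain ⟨y, hy⟩ := homeo_of_nested (fun n => {p : X × X | dist p.2 ((u n).h p.1) ≤ 4 * (u n).δ})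
    (fun n => isClosed_le (by fun_prop) continuous_const)
    (fun n p hp => by
      simp only [mem_ofPred_eq, us] at hp ⊢
      linarith [h1 (u n), h3 (u n) p.1, dist_triangle p.2 ((nx (u n)).h p.1) ((u n).h p.1)])
    (fun n x => ⟨(u n).h x, by simp [(u n).δ0.le]⟩)
    (fun n w => ⟨(u n).h.symm w, by simp [(u n).δ0.le]⟩)
    (fun ε hε => by
      obtain ⟨n, hn⟩ := sm (ε / 8) (by linarith)
      refine ⟨n, fun x w w' a b => ?_⟩
      simp only [mem_ofPred_eq] at a b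
      linarith [dist_triangle_right w w' ((u n).h x)])
    (fun ε hε => by
      obtain ⟨n, hn⟩ := sm (ε / 4) (by linarith)
      refine ⟨n + 1, fun x x' w a b => ?_⟩
      simp only [mem_ofPred_eq, us] at a b
      linarith [h4 (u n) x x' w a b])
  simp only [mem_ofPred_eq] at hy
  refine ⟨y, fun x => ?_, fun x => u0 ▸ hy 0 x, fun x r r0 r1 => ?_⟩
  · obtain ⟨w, hw⟩ := B.dom1 x
    refine (B.sec2 x w hw _).2 (mem_of_near (cont_A _ _).1 fun ε hε => ?_)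
    obtain ⟨n, hn⟩ := sm (ε / 5) (by linarith)
    obtain ⟨q, a, b⟩ := ((u (n + 1)).good x w hw).1 _ (mem_image_of_mem _ (mem_A _ _))
    refine ⟨q, a, ?_⟩
    have c := hy (n + 1) x
    rw [us] at b c
    linarith [h1 (u n), h2 (u n), dist_triangle (y x) ((nx (u n)).h x) q, (u n).δ0]
  · have key : ∀ n, (u n).l x + (u n).τ ≤ r ∨
        ∃ e κ, Z e κ ∧ e ≤ B.a x - r ∧ B.b (y x) - κ ≤ mu (y '' A x r) := fun n => by
      induction n with
      | zero => exact Or.inl (u0 ▸ r0)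
      | succ n ih =>
        rcases ih with a | a
        · rcases le_total ((u (n + 1)).l x + (u (n + 1)).τ) r with b | b
          · exact Or.inl b
          · rw [us, h7] at b
            exact Or.inr ⟨_, _, h5 (u n), by linarith,
              h8 (u n) y (fun x => us n ▸ hy (n + 1) x) x r a (r1.le.trans (B.ale x))⟩
        · exact Or.inr a
    obtain ⟨n, hn⟩ := sm ((B.a x - r) / 2) (by linarith)
    refine (key (n + 1)).resolve_left fun a => ?_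
    rw [us, h7] at a
    linarith [h6 (u n)]

end Pool.Agent.MP_1ac210_gt.H95
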