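import Pool.Agent.MP_1ac210_gt.H95.Fold

/-! Approximate homogeneity: homeomorphisms that follow a prescribed fine chain. -/

open Set Metric Filter Topology

namespace Pool.Agent.MP_1ac210_gt.H95

set_option linter.unusedSectionVars false

/-- Existence of real functions with uniformly small fibres. -/
def Fine (X : Type) [MetricSpace X] : Prop :=
  ∀ ε > 0, ∃ f : X → ℝ, Continuous f ∧ ∀ p q, |f p - f q| ≤ 1 → dist p q ≤ ε

variable {X : Type} [MetricSpace X] [CompactSpace X]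

lemma fine_of_chain (h : ∀ ε : ℝ, 0 < ε → ∃ (n : ℕ) (U : ℕ → Set X),
    (∀ i, i < n → IsOpen (U i) ∧ Metric.diam (U i) < ε) ∧
    (∀ x : X, ∃ i, i < n ∧ x ∈ U i) ∧
    (∀ i j, i < n → j < n → ((U i ∩ U j).Nonempty ↔ (i ≤ j + 1 ∧ j ≤ i + 1)))) : Fine X := by
  intro ε hε
  obtain ⟨n, U, h1, h2, h3⟩ := h (ε / 4) (by linarith)
  have hd : ∀ i < n, ∀ p ∈ U i, ∀ q ∈ U i, dist p q ≤ ε / 4 := fun i hi p hp q hq =>
    (dist_le_diam_of_mem isBounded_of_compactSpace hp hq).trans (h1 i hi).2.le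
  have hc : ∀ d i, i + d < n → ∀ p ∈ U i, ∀ q ∈ U (i + d), dist p q ≤ (d + 1) * (ε / 4) := by
    intro d
    induction d with
    | zero => intro i hi p hp q hq; simpa using hd i hi p hp q hq
    | succ d ih =>
      intro i hi p hp q hq
      obtain ⟨r, r1, r2⟩ := (h3 (i + d) (i + (d + 1)) (by omega) hi).2 (by omega)
      have := ih i (by omega) p hp r r1
      have := hd _ hi r r2 q hq
      have := dist_triangle p r q
      push_cast; linarith
  have hu : ∀ k : ℕ, ∃ u : C(X, ℝ), EqOn u 0 (⋃ j ∈ {j | k < j ∧ j < n}, U j)ᶜ ∧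
      EqOn u 1 (⋃ j ∈ {j | j ≤ k ∧ j < n}, U j)ᶜ ∧ ∀ x, u x ∈ Icc (0 : ℝ) 1 := by
    intro k
    refine exists_continuous_zero_one_of_isClosed
      (isOpen_biUnion fun j hj => (h1 j hj.2).1).isClosed_compl
      (isOpen_biUnion fun j hj => (h1 j hj.2).1).isClosed_compl ?_
    rw [disjoint_left]
    intro x a b
    obtain ⟨i, hi, hx⟩ := h2 x
    by_cases hk : k < i
    · exact a (mem_biUnion (show i ∈ {j | k < j ∧ j < n} from ⟨hk, hi⟩) hx)
    · exact b (mem_biUnion (show i ∈ {j | j ≤ k ∧ j < n} from ⟨by omega, hi⟩) hx)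
  choose u u0 u1 u2 using hu
  have hf : ∀ i < n, ∀ p ∈ U i, (i : ℝ) - 1 ≤ ∑ k ∈ Finset.range n, u k p ∧
      ∑ k ∈ Finset.range n, u k p ≤ i + 1 := by
    intro i hi p hp
    constructor
    · have s1 : ∑ k ∈ Finset.range (i - 1), u k p = (i - 1 : ℕ) := by
        rw [Finset.sum_congr rfl (g := fun _ => (1 : ℝ))]
        · simp
        · intro k hk
          rw [Finset.mem_range] at hk
          refine u1 k ?_
          simp only [mem_compl_iff, mem_iUnion, not_exists]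
          rintro j ⟨j1, j2⟩ hj
          have := (h3 i j hi j2).1 ⟨p, hp, hj⟩
          omega
      have s2 : ∑ k ∈ Finset.range (i - 1), u k p ≤ ∑ k ∈ Finset.range n, u k p :=
        Finset.sum_le_sum_of_subset_of_nonneg (Finset.range_mono (by omega))
          fun k _ _ => (u2 k p).1
      have s3 : (i : ℝ) - 1 ≤ (i - 1 : ℕ) := by
        rcases Nat.eq_zero_or_pos i with rfl | h0
        · simp
        · rw [Nat.cast_sub h0]; simp
      linarith
    · obtain ⟨m, rfl⟩ : ∃ m, n = i + 1 + m := ⟨n - (i + 1), by omega⟩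
      rw [Finset.sum_range_add]
      have s1 : ∑ k ∈ Finset.range (i + 1), u k p ≤ i + 1 := by
        refine (Finset.sum_le_card_nsmul _ _ 1 fun k _ => (u2 k p).2).trans ?_
        simp
      have s2 : ∑ k ∈ Finset.range m, u (i + 1 + k) p = 0 := by
        refine Finset.sum_eq_zero fun k _ => u0 _ ?_
        simp only [mem_compl_iff, mem_iUnion, not_exists]
        rintro j ⟨j1, j2⟩ hj
        have := (h3 i j hi j2).1 ⟨p, hp, hj⟩
        omega
      linarith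
  refine ⟨fun p => ∑ k ∈ Finset.range n, u k p, by fun_prop, fun p q hpq => ?_⟩
  obtain ⟨i, hi, hp⟩ := h2 p
  obtain ⟨j, hj, hq⟩ := h2 q
  wlog hij : i ≤ j generalizing p q i j with H
  · rw [dist_comm]
    exact H q p (by rwa [abs_sub_comm]) j hj hq i hi hp (by omega)
  obtain ⟨d, rfl⟩ := Nat.exists_eq_add_of_le hij
  have a := hf i hi p hp
  have b := hf _ hj q hq
  have c := abs_le.1 hpq
  simp only [Nat.cast_add] at b
  have hd3 : (d : ℝ) ≤ 3 := by linarith [a.2, b.1, c.1]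
  have := hc d i hj p hp q hq
  nlinarith

lemma Fine.scale (hF : Fine X) {ε : ℝ} (hε : 0 < ε) {c : ℝ} (hc : 0 < c) :
    ∃ f : X → ℝ, Continuous f ∧ ∀ p q, |f p - f q| ≤ c → dist p q ≤ ε := by
  obtain ⟨f, hf, h⟩ := hF ε hε
  refine ⟨fun p => c * f p, by fun_prop, fun p q hpq => h p q ?_⟩
  rw [← mul_sub, abs_mul, abs_of_pos hc] at hpq
  exact le_of_mul_le_mul_left (by linarith) hc

lemma unif {Y : Type} [PseudoMetricSpace Y] {f : X → Y} (hf : Continuous f) {ε : ℝ} (hε : 0 < ε) :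
    ∃ ρ > 0, ∀ p q, dist p q ≤ ρ → dist (f p) (f q) ≤ ε :=
  Metric.uniformContinuous_iff_le.1 (CompactSpace.uniformContinuous_of_continuous hf) ε hε

lemma unifR {f : X → ℝ} (hf : Continuous f) {ε : ℝ} (hε : 0 < ε) :
    ∃ ρ > 0, ∀ p q, dist p q ≤ ρ → |f p - f q| ≤ ε := unif hf hε

lemma walk_bound {v : ℕ → ℝ} {M : ℕ} {γ : ℝ} (hγ : 0 ≤ γ) (h : ∀ n < M, |v n - v (n + 1)| ≤ γ)
    (d : ℕ) : ∀ i j, i ≤ M → j ≤ M → i ≤ j + d → j ≤ i + d → |v i - v j| ≤ d * γ := by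
  induction d with
  | zero => intro i j _ _ a b; obtain rfl : i = j := by omega
            simp
  | succ d ih =>
    intro i j hi hj a b
    wlog hij : i ≤ j generalizing i j with H
    · rw [abs_sub_comm]; exact H j i hj hi b a (by omega)
    rcases hij.eq_or_lt with rfl | hij
    · simp only [sub_self, abs_zero]; positivity
    · have h1 := ih (i + 1) j (by omega) hj (by omega) (by omega)
      have h2 := h i (by omega)
      have := abs_sub_le (v i) (v (i + 1)) (v j)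
      push_cast; linarith

lemma nat_close {i j d : ℕ} (h : |(i : ℝ) - j| ≤ d) : i ≤ j + d ∧ j ≤ i + d := by
  have := abs_le.1 h
  constructor
  · exact_mod_cast (show (i : ℝ) ≤ j + d by linarith [this.2])
  · exact_mod_cast (show (j : ℝ) ≤ i + d by linarith [this.1])

lemma floor_close {t : ℝ} {M : ℕ} (h0 : 0 ≤ t) (h1 : t ≤ M) : ⌊t⌋₊ ≤ M ∧ |t - ⌊t⌋₊| ≤ 1 := by
  refine ⟨Nat.floor_le_of_le h1, abs_le.2 ⟨?_, ?_⟩⟩
  · linarith [Nat.floor_le h0]
  · linarith [Nat.lt_floor_add_one t]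

/-- Clamping to an interval. -/
noncomputable def clamp (lo hi t : ℝ) : ℝ := max lo (min t hi)

lemma clamp_mem {lo hi : ℝ} (h : lo ≤ hi) (t : ℝ) : lo ≤ clamp lo hi t ∧ clamp lo hi t ≤ hi :=
  ⟨le_max_left _ _, max_le h (min_le_right _ _)⟩

lemma clamp_lip (lo hi s t : ℝ) : |clamp lo hi s - clamp lo hi t| ≤ |s - t| := by
  unfold clamp
  refine (abs_max_sub_max_le_max _ _ _ _).trans (max_le (by simp) ?_)
  exact (abs_min_sub_min_le_max _ _ _ _).trans (max_le le_rfl (by simp))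

lemma clamp_close {lo hi t κ : ℝ} (h : lo ≤ hi) (hκ : 0 ≤ κ) (h1 : lo - κ ≤ t) (h2 : t ≤ hi + κ) :
    |t - clamp lo hi t| ≤ κ := by
  unfold clamp
  rw [abs_le]
  rcases le_total t hi with a | a
  · rw [min_eq_left a]
    rcases le_total lo t with b | b
    · rw [max_eq_right b]; constructor <;> linarith
    · rw [max_eq_left b]; constructor <;> linarith
  · rw [min_eq_right a, max_eq_right h]; constructor <;> linarith

lemma clamp_lo {lo hi t : ℝ} (h : t ≤ lo) : clamp lo hi t = lo :=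
  max_eq_left ((min_le_left _ _).trans h)

lemma clamp_hi {lo hi t : ℝ} (h : lo ≤ hi) (h' : hi ≤ t) : clamp lo hi t = hi := by
  unfold clamp; rw [min_eq_right h', max_eq_right h]

lemma continuous_clamp {g : X → ℝ} (hg : Continuous g) (lo hi : ℝ) :
    Continuous fun x => clamp lo hi (g x) := by unfold clamp; fun_prop

lemma seg_close {a b t η γ : ℝ} (h : |a - b| ≤ γ) (h1 : min a b - η ≤ t) (h2 : t ≤ max a b + η) :
    |t - a| ≤ η + γ ∧ |t - b| ≤ η + γ := by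
  have := abs_le.1 h
  rcases le_total a b with c | c
  · rw [min_eq_left c] at h1; rw [max_eq_right c] at h2
    constructor <;> rw [abs_le] <;> constructor <;> linarith [this.1, this.2]
  · rw [min_eq_right c] at h1; rw [max_eq_left c] at h2
    constructor <;> rw [abs_le] <;> constructor <;> linarith [this.1, this.2]

variable [ConnectedSpace X] [Nontrivial X]

/-- Lifting lemma. -/
lemma lift_onto (hX : HI X) {g : X → ℝ} (hg : Continuous g) (v : ℕ → ℝ) (M : ℕ) {γ : ℝ}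
    (hγ : 0 < γ) (hs : ∀ n < M, |v n - v (n + 1)| ≤ γ) (h1 : ∀ x, ∃ n ≤ M, |g x - v n| ≤ γ)
    (h2 : ∀ n ≤ M, ∃ x, |g x - v n| ≤ γ) :
    ∃ G : X → ℝ, Continuous G ∧ (∀ x, 0 ≤ G x ∧ G x ≤ M) ∧ (∀ n ≤ M, ∃ x, G x = n) ∧
      ∀ x, ∀ n ≤ M, |G x - n| ≤ 1 → |g x - v n| ≤ 7 * γ := by
  rcases Nat.eq_zero_or_pos M with rfl | hM
  · refine ⟨fun _ => 0, continuous_const, by simp, fun n hn => ⟨Classical.arbitrary X, by
      simp [Nat.le_zero.1 hn]⟩, fun x n hn _ => ?_⟩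
    obtain ⟨m, hm, h⟩ := h1 x
    rw [Nat.le_zero.1 hn, ← Nat.le_zero.1 hm]; linarith
  obtain ⟨i₀, hi₀, hmin⟩ := (Finset.range (M + 1)).exists_min_image v ⟨0, by simp⟩
  obtain ⟨i₁, hi₁, hmax⟩ := (Finset.range (M + 1)).exists_max_image v ⟨0, by simp⟩
  simp only [Finset.mem_range, Nat.lt_succ_iff] at hi₀ hi₁ hmin hmax
  set lo := v i₀ + γ with hlo
  set hi := max (v i₁ - γ) lo with hhi
  have hlh : lo ≤ hi := le_max_right _ _
  have hh1 : v i₁ - γ ≤ hi := le_max_left _ _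
  obtain ⟨xs, xe, hne, e1, e2⟩ : ∃ xs xe : X, xs ≠ xe ∧ clamp lo hi (g xs) = lo ∧
      clamp lo hi (g xe) = hi := by
    rcases hlh.eq_or_lt with he | hl
    · obtain ⟨a, b, hab⟩ := exists_pair_ne X
      refine ⟨a, b, hab, ?_, ?_⟩
      · exact le_antisymm ((clamp_mem hlh _).2.trans he.ge) (clamp_mem hlh _).1
      · exact le_antisymm (clamp_mem hlh _).2 (he.ge.trans (clamp_mem hlh _).1)
    · obtain ⟨a, ha⟩ := h2 i₀ hi₀
      obtain ⟨b, hb⟩ := h2 i₁ hi₁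
      have a1 : clamp lo hi (g a) = lo := clamp_lo (by linarith [(abs_le.1 ha).2])
      have hh : hi = v i₁ - γ := by
        rcases le_total (v i₁ - γ) lo with c | c
        · rw [hhi, max_eq_right c] at hl; exact absurd hl (lt_irrefl _)
        · exact max_eq_left c
      have b1 : clamp lo hi (g b) = hi := clamp_hi hlh (by linarith [(abs_le.1 hb).1])
      refine ⟨a, b, ?_, a1, b1⟩
      rintro rfl
      rw [a1] at b1; exact hl.ne b1
  clear_value lo hi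
  set ι : ℕ → ℕ := fun n => if n ≤ i₀ then i₀ - n else if n ≤ i₀ + M then n - i₀
    else 2 * M + i₀ - n with hι
  set J : ℝ → ℝ := fun t => M - abs (M - abs (t - i₀)) with hJ
  set N := i₀ + M + (M - i₁) with hN
  have ιM : ∀ n, ι n ≤ M := fun n => by simp only [hι]; split_ifs <;> omega
  have ιs : ∀ n, ι n ≤ ι (n + 1) + 1 ∧ ι (n + 1) ≤ ι n + 1 := fun n => by
    simp only [hι]; split_ifs <;> omega
  have ιJ : ∀ n ≤ N, (ι n : ℝ) = J n := by
    intro n hn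
    have hM0 : (0 : ℝ) ≤ M := Nat.cast_nonneg _
    have c0 : (i₀ : ℝ) ≤ M := by exact_mod_cast hi₀
    simp only [hι, hJ]
    split_ifs with a b
    · have a' : (n : ℝ) ≤ i₀ := by exact_mod_cast a
      have : (0 : ℝ) ≤ n := Nat.cast_nonneg _
      rw [Nat.cast_sub a, abs_of_nonpos (by linarith : (n : ℝ) - i₀ ≤ 0),
        abs_of_nonneg (by linarith)]
      ring
    · have a' : (i₀ : ℝ) ≤ n := by exact_mod_cast (not_le.1 a).le
      have b' : (n : ℝ) ≤ i₀ + M := by exact_mod_cast b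
      rw [Nat.cast_sub (not_le.1 a).le, abs_of_nonneg (by linarith : 0 ≤ (n : ℝ) - i₀),
        abs_of_nonneg (by linarith)]
      ring
    · have b' : (i₀ : ℝ) + M ≤ n := by exact_mod_cast (not_le.1 b).le
      rw [Nat.cast_sub (by omega), abs_of_nonneg (by linarith : 0 ≤ (n : ℝ) - i₀),
        abs_of_nonpos (by linarith)]
      push_cast; ring
  have Jlip : ∀ s t, |J s - J t| ≤ |s - t| := by
    intro s t
    simp only [hJ]
    rw [show (M : ℝ) - abs (M - abs (s - i₀)) - (M - abs (M - abs (t - i₀))) =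
      abs (M - abs (t - i₀)) - abs (M - abs (s - i₀)) by ring]
    refine (abs_abs_sub_abs_le_abs_sub _ _).trans ?_
    rw [show (M : ℝ) - |t - i₀| - (M - |s - i₀|) = |s - i₀| - |t - i₀| by ring]
    refine (abs_abs_sub_abs_le_abs_sub _ _).trans (le_of_eq ?_)
    congr 1; ring
  have ι0 : ι 0 = i₀ := by simp [hι]
  have ιN : ι N = i₁ := by simp only [hι, hN]; split_ifs <;> omega
  have w0 : clamp lo hi (v (ι 0)) = lo := by rw [ι0]; exact clamp_lo (by linarith)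
  have wN : clamp lo hi (v (ι N)) = hi := by
    rw [ιN]
    rcases le_total (v i₁ - γ) lo with c | c
    · rw [max_eq_right c] at hhi
      exact le_antisymm (clamp_mem hlh _).2 (hhi.le.trans (clamp_mem hlh _).1)
    · rw [max_eq_left c] at hhi
      exact clamp_hi hlh (by linarith)
  obtain ⟨G, hG, G0, GN, hGx⟩ := lift_marked hX (continuous_clamp hg lo hi)
    (fun n => clamp lo hi (v (ι n))) (M := N) (by omega)
    (fun k _ => by simp only [w0, wN]; exact clamp_mem hlh _)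
    (fun x => by simp only [w0, wN]; exact clamp_mem hlh _) hne (by simp only [w0, e1])
    (by simp only [wN, e2]) hγ
  have Gr : ∀ x, 0 ≤ G x ∧ G x ≤ N := fun x => by
    obtain ⟨i, hi, a, b, -⟩ := hGx x
    have : (i : ℝ) + 1 ≤ N := by exact_mod_cast hi
    exact ⟨(Nat.cast_nonneg i).trans a, b.trans this⟩
  refine ⟨fun x => J (G x), by simp only [hJ]; fun_prop, fun x => ?_, fun n hn => ?_,
    fun x n hn hx => ?_⟩
  · have hN' : (N : ℝ) ≤ i₀ + 2 * M := by exact_mod_cast (show N ≤ i₀ + 2 * M by omega)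
    have c0 : (i₀ : ℝ) ≤ M := by exact_mod_cast hi₀
    have c1 : (0 : ℝ) ≤ i₀ := Nat.cast_nonneg _
    have := Gr x
    simp only [hJ]
    refine ⟨sub_nonneg.2 (abs_le.2 ⟨?_, by linarith [abs_nonneg (G x - i₀)]⟩),
      by linarith [abs_nonneg (M - |G x - i₀|)]⟩
    have : |G x - i₀| ≤ 2 * M := abs_le.2 ⟨by linarith [this.1], by linarith [this.2]⟩
    linarith
  · obtain ⟨x, hx⟩ := intermediate_value_univ xs xe hG (show ((i₀ + n : ℕ) : ℝ) ∈ Icc (G xs) (G xe)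
      by rw [G0, GN]; exact ⟨Nat.cast_nonneg _, by exact_mod_cast (show i₀ + n ≤ N by omega)⟩)
    refine ⟨x, ?_⟩
    show J (G x) = n
    rw [hx, ← ιJ _ (by omega)]
    congr 1
    simp only [hι]; split_ifs <;> omega
  · obtain ⟨i, hi', a, b, c, d⟩ := hGx x
    have s1 : |clamp lo hi (v (ι i)) - clamp lo hi (v (ι (i + 1)))| ≤ γ :=
      (clamp_lip _ _ _ _).trans (by
        simpa using walk_bound hγ.le hs 1 _ _ (ιM i) (ιM (i + 1)) (ιs i).1 (ιs i).2)
    have s2 := (seg_close s1 c d).1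
    have s3 : |(ι i : ℝ) - n| ≤ (2 : ℕ) := by
      rw [ιJ i hi'.le]
      have t1 := Jlip i (G x)
      have t2 : |(i : ℝ) - G x| ≤ 1 := abs_le.2 ⟨by linarith, by linarith⟩
      have := abs_sub_le (J i) (J (G x)) n
      push_cast; linarith
    have s4 := walk_bound hγ.le hs 2 _ _ (ιM i) hn (nat_close s3).1 (nat_close s3).2
    have s5 : |v (ι i) - clamp lo hi (v (ι i))| ≤ γ :=
      clamp_close hlh hγ.le (by linarith [hmin _ (ιM i)]) (by linarith [hmax _ (ιM i)])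
    obtain ⟨m, hm, hm'⟩ := h1 x
    have s6 : |g x - clamp lo hi (g x)| ≤ 2 * γ :=
      clamp_close hlh (by linarith) (by linarith [hmin _ hm, (abs_le.1 hm').1])
        (by linarith [hmax _ hm, (abs_le.1 hm').2])
    rw [abs_le] at s2 s4 s5 s6 ⊢
    push_cast at s4
    constructor <;> linarith [s2.1, s2.2, s4.1, s4.2, s5.1, s5.2, s6.1, s6.2]

lemma continuous_of_closed {Y Z : Type} [TopologicalSpace Y] [TopologicalSpace Z] [CompactSpace Z]
    {f : Y → Z} (h : IsClosed {p : Y × Z | f p.1 = p.2}) : Continuous f := by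
  rw [continuous_iff_isClosed]
  intro C hC
  have : f ⁻¹' C = Prod.fst '' ({p : Y × Z | f p.1 = p.2} ∩ Prod.snd ⁻¹' C) := by
    ext y; constructor
    · intro hy; exact ⟨(y, f y), ⟨rfl, hy⟩, rfl⟩
    · rintro ⟨⟨a, b⟩, ⟨h1, h2⟩, rfl⟩
      simp only [mem_ofPred_eq, mem_preimage] at h1 h2 ⊢
      rwa [h1]
  rw [this]
  exact isClosedMap_fst_of_compactSpace _ (h.inter (hC.preimage continuous_snd))

lemma homeo_of_nested (Γ : ℕ → Set (X × X)) (hc : ∀ n, IsClosed (Γ n)) (ha : ∀ n, Γ (n + 1) ⊆ Γ n)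
    (h1 : ∀ n x, ∃ w, (x, w) ∈ Γ n) (h2 : ∀ n w, ∃ x, (x, w) ∈ Γ n)
    (h3 : ∀ ε > 0, ∃ n, ∀ x w w', (x, w) ∈ Γ n → (x, w') ∈ Γ n → dist w w' ≤ ε)
    (h4 : ∀ ε > 0, ∃ n, ∀ x x' w, (x, w) ∈ Γ n → (x', w) ∈ Γ n → dist x x' ≤ ε) :
    ∃ h : X ≃ₜ X, ∀ n x, (x, h x) ∈ Γ n := by
  have e1 : ∀ x, ∃ w, ∀ n, (x, w) ∈ Γ n := by
    intro x
    have hcl : ∀ n, IsClosed {w | (x, w) ∈ Γ n} := fun n => (hc n).preimage (by fun_prop)
    obtain ⟨w, hw⟩ := IsCompact.nonempty_iInter_of_sequence_nonempty_isCompact_isClosed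
      (fun n => {w | (x, w) ∈ Γ n}) (fun n w hw => ha n hw) (fun n => h1 n x) (hcl 0).isCompact hcl
    exact ⟨w, fun n => mem_iInter.1 hw n⟩
  have e2 : ∀ w, ∃ x, ∀ n, (x, w) ∈ Γ n := by
    intro w
    have hcl : ∀ n, IsClosed {x | (x, w) ∈ Γ n} := fun n => (hc n).preimage (by fun_prop)
    obtain ⟨x, hx⟩ := IsCompact.nonempty_iInter_of_sequence_nonempty_isCompact_isClosed
      (fun n => {x | (x, w) ∈ Γ n}) (fun n w hw => ha n hw) (fun n => h2 n w) (hcl 0).isCompact hcl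
    exact ⟨x, fun n => mem_iInter.1 hx n⟩
  have u1 : ∀ x w w', (∀ n, (x, w) ∈ Γ n) → (∀ n, (x, w') ∈ Γ n) → w = w' := by
    intro x w w' a b
    refine eq_of_forall_dist_le fun ε hε => ?_
    obtain ⟨n, hn⟩ := h3 ε hε
    exact hn x w w' (a n) (b n)
  have u2 : ∀ x x' w, (∀ n, (x, w) ∈ Γ n) → (∀ n, (x', w) ∈ Γ n) → x = x' := by
    intro x x' w a b
    refine eq_of_forall_dist_le fun ε hε => ?_
    obtain ⟨n, hn⟩ := h4 ε hε
    exact hn x x' w (a n) (b n)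
  choose f hf using e1
  choose g hg using e2
  have hcont : Continuous f := by
    refine continuous_of_closed ?_
    have : {p : X × X | f p.1 = p.2} = ⋂ n, Γ n := by
      ext ⟨x, w⟩
      simp only [mem_ofPred_eq, mem_iInter]
      exact ⟨fun h n => h ▸ hf x n, fun h => u1 x _ _ (hf x) h⟩
    rw [this]; exact isClosed_iInter hc
  exact ⟨Continuous.homeoOfEquivCompactToT2 (f := ⟨f, g, fun x => u2 _ _ _ (hg (f x)) (hf x),
    fun w => u1 _ _ _ (hf (g w)) (hg w)⟩) hcont, fun n x => hf x n⟩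

/-- A pair of functions with close ranges. -/
def Close (F : (X → ℝ) × (X → ℝ)) : Prop :=
  Continuous F.1 ∧ Continuous F.2 ∧ (∀ x, ∃ w, |F.1 x - F.2 w| ≤ 1) ∧ ∀ w, ∃ x, |F.1 x - F.2 w| ≤ 1

lemma ah_step (hX : HI X) (hF : Fine X) {F : (X → ℝ) × (X → ℝ)} (h : Close F) {ε : ℝ} (hε : 0 < ε) :
    ∃ F', Close F' ∧ (∀ x w, |F'.1 x - F'.2 w| ≤ 15 → |F.1 x - F.2 w| ≤ 15) ∧
      ∀ w w', |F'.2 w - F'.2 w'| ≤ 30 → dist w w' ≤ ε := by
  obtain ⟨c1, c2, r1, r2⟩ := h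
  obtain ⟨ρ, hρ, hu⟩ := unifR c2 one_pos
  obtain ⟨f, hf, hfine⟩ := hF.scale (lt_min hε hρ) (show (0 : ℝ) < 30 by norm_num)
  obtain ⟨a, -, ha⟩ := isCompact_univ.exists_isMinOn univ_nonempty hf.continuousOn
  obtain ⟨b, -, hb⟩ := isCompact_univ.exists_isMaxOn univ_nonempty hf.continuousOn
  set f' : X → ℝ := fun p => f p - f a with hf'
  have f'c : Continuous f' := by fun_prop
  have f'r : ∀ p, 0 ≤ f' p ∧ f' p ≤ f' b := fun p =>
    ⟨sub_nonneg.2 (ha (mem_univ p)), sub_le_sub_right (hb (mem_univ p)) _⟩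
  have f'f : ∀ p q, |f' p - f' q| ≤ 30 → dist p q ≤ ε ∧ |F.2 p - F.2 q| ≤ 1 := by
    intro p q hpq
    have := hfine p q (by simpa [hf'] using hpq)
    exact ⟨this.trans (min_le_left _ _), hu p q (this.trans (min_le_right _ _))⟩
  have f'i : ∀ t, 0 ≤ t → t ≤ f' b → ∃ w, f' w = t := fun t t0 t1 =>
    intermediate_value_univ a b f'c ⟨by simpa [hf'] using t0, t1⟩
  set M := ⌊f' b⌋₊ with hM
  have hMb : (M : ℝ) ≤ f' b := Nat.floor_le (f'r b).1
  have hw : ∀ n : ℕ, ∃ w, n ≤ M → f' w = n := by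
    intro n
    by_cases hn : n ≤ M
    · obtain ⟨w, hw⟩ := f'i n (Nat.cast_nonneg _) ((Nat.cast_le.2 hn).trans hMb)
      exact ⟨w, fun _ => hw⟩
    · exact ⟨a, fun h => absurd h hn⟩
  choose w hw using hw
  have near : ∀ p, ∃ n ≤ M, |f' p - n| ≤ 1 := fun p =>
    ⟨⌊f' p⌋₊, Nat.floor_mono (f'r p).2, abs_le.2 ⟨by linarith [Nat.floor_le (f'r p).1],
      by linarith [Nat.lt_floor_add_one (f' p)]⟩⟩
  obtain ⟨G, hG, G1, G2, G3⟩ := lift_onto hX c1 (fun n => F.2 (w n)) M (γ := 2) two_pos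
    (fun n hn => by
      refine (f'f _ _ ?_).2.trans one_le_two
      rw [hw n hn.le, hw (n + 1) hn]; push_cast; norm_num)
    (fun x => by
      obtain ⟨q, hq⟩ := r1 x
      obtain ⟨n, hn, hn'⟩ := near q
      have := (f'f q (w n) (by rw [hw n hn]; linarith)).2
      exact ⟨n, hn, by linarith [abs_sub_le (F.1 x) (F.2 q) (F.2 (w n))]⟩)
    (fun n _ => by
      obtain ⟨x, hx⟩ := r2 (w n)
      exact ⟨x, hx.trans one_le_two⟩)
  refine ⟨(G, f'), ⟨hG, f'c, fun x => ?_, fun q => ?_⟩, fun x q hxq => ?_,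
    fun p q h => (f'f p q h).1⟩
  · obtain ⟨q, hq⟩ := f'i (G x) (G1 x).1 ((G1 x).2.trans hMb)
    exact ⟨q, by simp [hq]⟩
  · obtain ⟨n, hn, hn'⟩ := near q
    obtain ⟨x, hx⟩ := G2 n hn
    exact ⟨x, by simp only [hx]; rwa [abs_sub_comm]⟩
  · obtain ⟨n1, n2⟩ := floor_close (G1 x).1 (G1 x).2
    have t1 := G3 x _ n1 n2
    have t2 := (f'f q (w ⌊G x⌋₊) (by
      rw [hw _ n1]
      have := abs_sub_le (f' q) (G x) ⌊G x⌋₊
      rw [abs_sub_comm] at hxq
      simp only at hxq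
      linarith)).2
    have := abs_sub_le (F.1 x) (F.2 (w ⌊G x⌋₊)) (F.2 q)
    rw [abs_sub_comm] at t2
    linarith

lemma Close.swap {F : (X → ℝ) × (X → ℝ)} (h : Close F) : Close F.swap :=
  ⟨h.2.1, h.1, fun x => by simpa [abs_sub_comm] using h.2.2.2 x,
    fun x => by simpa [abs_sub_comm] using h.2.2.1 x⟩

/-- Approximate homogeneity. -/
lemma ah (hX : HI X) (hF : Fine X) {F : (X → ℝ) × (X → ℝ)} (h : Close F) :
    ∃ h : X ≃ₜ X, ∀ x, |F.1 x - F.2 (h x)| ≤ 15 := by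
  have step : ∀ (n : ℕ) (F : {F : (X → ℝ) × (X → ℝ) // Close F}),
      ∃ F' : {F : (X → ℝ) × (X → ℝ) // Close F},
      (∀ x w, |F'.1.1 x - F'.1.2 w| ≤ 15 → |F.1.1 x - F.1.2 w| ≤ 15) ∧
      (∀ x w w', |F'.1.1 x - F'.1.2 w| ≤ 15 → |F'.1.1 x - F'.1.2 w'| ≤ 15 →
        dist w w' ≤ 1 / (n + 1 : ℝ)) ∧
      (∀ x x' w, |F'.1.1 x - F'.1.2 w| ≤ 15 → |F'.1.1 x' - F'.1.2 w| ≤ 15 →
        dist x x' ≤ 1 / (n + 1 : ℝ)) := by
    intro n F
    have hn : (0 : ℝ) < 1 / (n + 1 : ℝ) := Nat.one_div_pos_of_nat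
    obtain ⟨F', a1, a2, a3⟩ := ah_step hX hF F.2 hn
    obtain ⟨F'', b1, b2, b3⟩ := ah_step hX hF a1.swap hn
    have b2' : ∀ x w, |F''.2 x - F''.1 w| ≤ 15 → |F'.1 x - F'.2 w| ≤ 15 := fun x w h => by
      have := b2 w x (by rwa [abs_sub_comm]); rwa [abs_sub_comm] at this
    refine ⟨⟨F''.swap, b1.swap⟩, fun x w h => a2 x w (b2' x w h), fun x w w' h h' => a3 w w' ?_,
      fun x x' w h h' => b3 x x' ?_⟩
    · have c := abs_le.1 (b2' x w h)
      have c' := abs_le.1 (b2' x w' h')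
      rw [abs_le]; constructor <;> linarith [c.1, c.2, c'.1, c'.2]
    · have c := abs_le.1 h
      have c' := abs_le.1 h'
      simp only [Prod.fst_swap, Prod.snd_swap] at c c'
      rw [abs_le]; constructor <;> linarith [c.1, c.2, c'.1, c'.2]
  choose next n1 n2 n3 using step
  let s : ℕ → {F : (X → ℝ) × (X → ℝ) // Close F} := fun n => Nat.rec ⟨F, h⟩ next n
  obtain ⟨y, hy⟩ := homeo_of_nested (fun n => {p : X × X | |(s n).1.1 p.1 - (s n).1.2 p.2| ≤ 15})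
    (fun n => by
      have := (s n).2.1
      have := (s n).2.2.1
      exact isClosed_le (by fun_prop) continuous_const)
    (fun n p hp => n1 n (s n) p.1 p.2 hp)
    (fun n x => by
      obtain ⟨w, hw⟩ := (s n).2.2.2.1 x
      exact ⟨w, hw.trans (by norm_num)⟩)
    (fun n w => by
      obtain ⟨x, hx⟩ := (s n).2.2.2.2 w
      exact ⟨x, hx.trans (by norm_num)⟩)
    (fun ε hε => by
      obtain ⟨n, hn⟩ := exists_nat_one_div_lt hε
      exact ⟨n + 1, fun x w w' a b => (n2 n (s n) x w w' a b).trans hn.le⟩)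
    (fun ε hε => by
      obtain ⟨n, hn⟩ := exists_nat_one_div_lt hε
      exact ⟨n + 1, fun x x' w a b => (n3 n (s n) x x' w a b).trans hn.le⟩)
  exact ⟨y, fun x => hy 0 x⟩

/-- A homeomorphism following a fine dense chain in the square. -/
lemma engine (hX : HI X) (hF : Fine X) {ξ : ℝ} (hξ : 0 < ξ) :
    ∃ ξ' > 0, ∀ (N : ℕ) (c : ℕ → X × X), (∀ n < N, dist (c n) (c (n + 1)) ≤ ξ') →
      (∀ p, ∃ n ≤ N, dist p (c n).1 ≤ ξ') → (∀ p, ∃ n ≤ N, dist p (c n).2 ≤ ξ') →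
      ∃ (h : X ≃ₜ X) (F : X → ℝ), Continuous F ∧ (∀ p, 0 ≤ F p ∧ F p ≤ N) ∧
        ∀ p, ∀ n ≤ N, |F p - n| ≤ 1 → dist p (c n).1 ≤ ξ ∧ dist (h p) (c n).2 ≤ ξ := by
  obtain ⟨g, hg, hfine⟩ := hF.scale hξ (show (0 : ℝ) < 24 by norm_num)
  obtain ⟨ρ, hρ, hu⟩ := unifR hg one_pos
  refine ⟨ρ, hρ, fun N c h0 h1 h2 => ?_⟩
  have s1 : ∀ n < N, |g (c n).1 - g (c (n + 1)).1| ≤ 1 := fun n hn =>
    hu _ _ ((le_max_left _ _).trans (h0 n hn))
  have s2 : ∀ n < N, |g (c n).2 - g (c (n + 1)).2| ≤ 1 := fun n hn =>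
    hu _ _ ((le_max_right _ _).trans (h0 n hn))
  obtain ⟨F, hF1, F1, F2, F3⟩ := lift_onto hX hg (fun n => g (c n).1) N one_pos s1
    (fun p => by obtain ⟨n, a, b⟩ := h1 p; exact ⟨n, a, hu _ _ b⟩) (fun n _ => ⟨(c n).1, by simp⟩)
  obtain ⟨G, hG1, G1, G2, G3⟩ := lift_onto hX hg (fun n => g (c n).2) N one_pos s2
    (fun p => by obtain ⟨n, a, b⟩ := h2 p; exact ⟨n, a, hu _ _ b⟩) (fun n _ => ⟨(c n).2, by simp⟩)
  obtain ⟨h, hh⟩ := ah hX hF (F := (F, G)) ⟨hF1, hG1, fun x => by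
      obtain ⟨a, b⟩ := floor_close (F1 x).1 (F1 x).2
      obtain ⟨w, hw⟩ := G2 _ a
      exact ⟨w, by simpa [hw] using b⟩, fun w => by
      obtain ⟨a, b⟩ := floor_close (G1 w).1 (G1 w).2
      obtain ⟨x, hx⟩ := F2 _ a
      exact ⟨x, by simpa [hx, abs_sub_comm] using b⟩⟩
  refine ⟨h, F, hF1, F1, fun p n hn hp => ⟨hfine _ _ (by linarith [F3 p n hn hp]), hfine _ _ ?_⟩⟩
  obtain ⟨a, b⟩ := floor_close (G1 (h p)).1 (G1 (h p)).2
  have t1 := G3 _ _ a b
  have t2 : |((⌊G (h p)⌋₊ : ℕ) : ℝ) - n| ≤ (17 : ℕ) := by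
    have c := abs_le.1 (hh p)
    have d := abs_le.1 hp
    have e := abs_le.1 b
    simp only at c
    rw [abs_le]; push_cast; constructor <;> linarith [c.1, c.2, d.1, d.2, e.1, e.2]
  have t3 := walk_bound zero_le_one s2 17 _ _ a hn (nat_close t2).1 (nat_close t2).2
  have := abs_sub_le (g (h p)) (g (c ⌊G (h p)⌋₊).2) (g (c n).2)
  push_cast at t3
  linarith

end Pool.Agent.MP_1ac210_gt.H95
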