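import Mathlib

/-! Folding a hereditarily indecomposable compactum along zigzags. -/

open Set Metric Filter Topology

namespace Pool.Agent.MP_1ac210_gt.H95

/-- Intersecting continua are nested. -/
def HI (X : Type) [TopologicalSpace X] : Prop :=
  ∀ A B : Set X, IsClosed A → IsConnected A → IsClosed B → IsConnected B →
    (A ∩ B).Nonempty → A ⊆ B ∨ B ⊆ A

variable {X : Type} [MetricSpace X] [CompactSpace X]

/-- `O` is clopen relative to the closed set `S`. -/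
def RC (S O : Set X) : Prop := O ⊆ S ∧ IsClosed O ∧ IsClosed (S \ O)

omit [CompactSpace X] in
lemma RC.inter {S O O' : Set X} (h : RC S O) (h' : RC S O') : RC S (O ∩ O') := by
  refine ⟨inter_subset_left.trans h.1, h.2.1.inter h'.2.1, ?_⟩
  rw [sdiff_inter]; exact h.2.2.union h'.2.2

omit [CompactSpace X] in
lemma RC.union {S O O' : Set X} (h : RC S O) (h' : RC S O') : RC S (O ∪ O') := by
  refine ⟨union_subset h.1 h'.1, h.2.1.union h'.2.1, ?_⟩
  rw [← sdiff_inter_sdiff]; exact h.2.2.inter h'.2.2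

omit [CompactSpace X] in
lemma RC.mem_nhdsWithin {S O D : Set X} (h : RC S O) (hD : D ⊆ S) {x : X} (hx : x ∈ O) :
    O ∈ 𝓝[D] x := by
  have h1 : (S \ O)ᶜ ∈ 𝓝 x := h.2.2.isOpen_compl.mem_nhds (fun hh => hh.2 hx)
  filter_upwards [mem_nhdsWithin_of_mem_nhds h1, self_mem_nhdsWithin] with y hy hyD
  by_contra hn
  exact hy ⟨hD hyD, hn⟩

omit [CompactSpace X] in
lemma isClosed_ccIn {S : Set X} (hS : IsClosed S) (x : X) : IsClosed (connectedComponentIn S x) := by
  by_cases hx : x ∈ S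
  · rw [connectedComponentIn_eq_image hx]
    exact hS.isClosedEmbedding_subtypeVal.isClosedMap _ isClosed_connectedComponent
  · rw [connectedComponentIn_eq_empty hx]; exact isClosed_empty

lemma sep {S T : Set X} (hS : IsClosed S) (hT : IsClosed T) {x : X} (hx : x ∈ S)
    (hd : Disjoint (connectedComponentIn S x) T) : ∃ O, RC S O ∧ x ∈ O ∧ Disjoint O T := by
  have : CompactSpace S := isCompact_iff_compactSpace.mp hS.isCompact
  have h1 := connectedComponent_eq_iInter_isClopen (⟨x, hx⟩ : S)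
  have hT' : IsCompact ((Subtype.val : S → X) ⁻¹' T) :=
    (hT.preimage continuous_subtype_val).isCompact
  have h2 : ((Subtype.val : S → X) ⁻¹' T) ∩
      ⋂ s : { s : Set S // IsClopen s ∧ (⟨x, hx⟩ : S) ∈ s }, s.1 = ∅ := by
    rw [← h1, eq_empty_iff_forall_notMem]
    rintro p ⟨hp, hp'⟩
    refine disjoint_left.mp hd ?_ hp
    rw [connectedComponentIn_eq_image hx]
    exact mem_image_of_mem _ hp'
  obtain ⟨t, ht⟩ := hT'.elim_finite_subfamily_closed _ (fun s => s.2.1.1) h2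
  set U : Set S := ⋂ i ∈ t, (i : { s : Set S // IsClopen s ∧ (⟨x, hx⟩ : S) ∈ s }).1 with hU
  have hUc : IsClopen U := isClopen_biInter_finset fun i _ => i.2.1
  have hcm := hS.isClosedEmbedding_subtypeVal.isClosedMap
  refine ⟨Subtype.val '' U, ⟨by rintro _ ⟨p, _, rfl⟩; exact p.2, hcm _ hUc.1, ?_⟩,
    ⟨⟨x, hx⟩, mem_iInter₂.2 fun i _ => i.2.2, rfl⟩, ?_⟩
  · have : S \ Subtype.val '' U = Subtype.val '' Uᶜ := by
      ext p; constructor
      · rintro ⟨hp, hn⟩; exact ⟨⟨p, hp⟩, fun h => hn ⟨_, h, rfl⟩, rfl⟩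
      · rintro ⟨q, hq, rfl⟩
        exact ⟨q.2, by rintro ⟨q', h, e⟩; exact hq (Subtype.ext e ▸ h)⟩
    rw [this]; exact hcm _ hUc.compl.1
  · rw [disjoint_left]
    rintro _ ⟨p, hp, rfl⟩ hpT
    have : p ∈ (∅ : Set S) := by rw [← ht]; exact ⟨hpT, hp⟩
    exact this

lemma sep2 {S₀ S₂ C D : Set X} (h₀ : IsClosed S₀) (h₂ : IsClosed S₂) (hC : IsClosed C)
    (hD : IsClosed D) (hCS : C ⊆ S₀) (hDS : D ⊆ S₂)
    (hd : ∀ x ∈ C, ∀ w ∈ D, Disjoint (connectedComponentIn S₀ x) (connectedComponentIn S₂ w)) :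
    ∃ O₀ O₂, RC S₀ O₀ ∧ RC S₂ O₂ ∧ C ⊆ O₀ ∧ D ⊆ O₂ ∧ Disjoint O₀ O₂ := by
  have key : ∀ x ∈ C, ∃ O₀ O₂, RC S₀ O₀ ∧ RC S₂ O₂ ∧ x ∈ O₀ ∧ D ⊆ O₂ ∧ Disjoint O₀ O₂ := by
    intro x hx
    refine hD.isCompact.induction_on
      (p := fun D' => ∃ O₀ O₂, RC S₀ O₀ ∧ RC S₂ O₂ ∧ x ∈ O₀ ∧ D' ⊆ O₂ ∧ Disjoint O₀ O₂) ?_ ?_ ?_ ?_
    · exact ⟨S₀, ∅, ⟨Subset.rfl, h₀, by simp⟩, ⟨empty_subset _, isClosed_empty, by simpa using h₂⟩,
        hCS hx, Subset.rfl, by simp⟩
    · rintro s t hst ⟨O₀, O₂, a, b, c, d, e⟩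
      exact ⟨O₀, O₂, a, b, c, hst.trans d, e⟩
    · rintro s t ⟨O₀, O₂, a, b, c, d, e⟩ ⟨O₀', O₂', a', b', c', d', e'⟩
      refine ⟨O₀ ∩ O₀', O₂ ∪ O₂', a.inter a', b.union b', ⟨c, c'⟩, union_subset_union d d', ?_⟩
      exact disjoint_union_right.2 ⟨e.mono_left inter_subset_left, e'.mono_left inter_subset_right⟩
    · intro w hw
      obtain ⟨O₀, a, c, e⟩ := sep h₀ (isClosed_ccIn h₂ w) (hCS hx) (hd x hx w hw)
      obtain ⟨O₂, b, d, e'⟩ := sep h₂ a.2.1 (hDS hw) e.symm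
      exact ⟨O₂, b.mem_nhdsWithin hDS d, O₀, O₂, a, b, c, Subset.rfl, e'.symm⟩
  refine hC.isCompact.induction_on
    (p := fun C' => ∃ O₀ O₂, RC S₀ O₀ ∧ RC S₂ O₂ ∧ C' ⊆ O₀ ∧ D ⊆ O₂ ∧ Disjoint O₀ O₂) ?_ ?_ ?_ ?_
  · exact ⟨∅, S₂, ⟨empty_subset _, isClosed_empty, by simpa using h₀⟩, ⟨Subset.rfl, h₂, by simp⟩,
      Subset.rfl, hDS, by simp⟩
  · rintro s t hst ⟨O₀, O₂, a, b, c, d, e⟩
    exact ⟨O₀, O₂, a, b, hst.trans c, d, e⟩
  · rintro s t ⟨O₀, O₂, a, b, c, d, e⟩ ⟨O₀', O₂', a', b', c', d', e'⟩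
    refine ⟨O₀ ∪ O₀', O₂ ∩ O₂', a.union a', b.inter b', union_subset_union c c',
      subset_inter d d', ?_⟩
    exact disjoint_union_left.2 ⟨e.mono_right inter_subset_left, e'.mono_right inter_subset_right⟩
  · intro x hx
    obtain ⟨O₀, O₂, a, b, c, d, e⟩ := key x hx
    exact ⟨O₀, a.mem_nhdsWithin hCS c, O₀, O₂, a, b, Subset.rfl, d, e⟩

/-- The fold of Krasinkiewicz and Minc. -/
lemma fold (hX : HI X) {g : X → ℝ} (hg : Continuous g) {c d η : ℝ} (hcd : c ≤ d) (hη : 0 < η) :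
    ∃ Z₀ Z₁ Z₂ : Set X, IsClosed Z₀ ∧ IsClosed Z₁ ∧ IsClosed Z₂ ∧
      (∀ p, p ∈ Z₀ ∨ p ∈ Z₁ ∨ p ∈ Z₂) ∧ (∀ p ∈ Z₀, p ∉ Z₂) ∧ (∀ p ∈ Z₀, g p ≤ d) ∧
      (∀ p ∈ Z₂, c ≤ g p) ∧ (∀ p ∈ Z₁, c - η < g p ∧ g p < d + η) ∧
      (∀ p ∈ Z₀, p ∈ Z₁ → g p = d) ∧ (∀ p ∈ Z₂, p ∈ Z₁ → g p = c) := by
  have h₀ : IsClosed {p | g p ≤ d} := isClosed_le hg continuous_const
  have h₂ : IsClosed {p | c ≤ g p} := isClosed_le continuous_const hg
  obtain ⟨O₀, O₂, a, b, hC, hD, e⟩ := sep2 (C := {p | g p ≤ c - η}) (D := {p | d + η ≤ g p}) h₀ h₂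
    (isClosed_le hg continuous_const) (isClosed_le continuous_const hg)
    (fun p hp => by simp only [mem_ofPred_eq] at *; linarith)
    (fun p hp => by simp only [mem_ofPred_eq] at *; linarith) (by
      intro x hx w hw
      simp only [mem_ofPred_eq] at hx hw
      have hx' : x ∈ {p | g p ≤ d} := by simp only [mem_ofPred_eq]; linarith
      have hw' : w ∈ {p | c ≤ g p} := by simp only [mem_ofPred_eq]; linarith
      rw [disjoint_iff_inter_eq_empty]
      by_contra hne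
      rcases hX _ _ (isClosed_ccIn h₀ x) (isConnected_connectedComponentIn_iff.2 hx')
        (isClosed_ccIn h₂ w) (isConnected_connectedComponentIn_iff.2 hw')
        (nonempty_iff_ne_empty.2 hne) with h | h
      · have := connectedComponentIn_subset _ _ (h (mem_connectedComponentIn hx'))
        simp only [mem_ofPred_eq] at this; linarith
      · have := connectedComponentIn_subset _ _ (h (mem_connectedComponentIn hw'))
        simp only [mem_ofPred_eq] at this; linarith)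
  have i₀ : ∀ p ∈ O₀, g p < d → p ∈ interior O₀ := by
    intro p hp hlt
    rw [mem_interior_iff_mem_nhds]
    have h1 : ({p | g p ≤ d} \ O₀)ᶜ ∈ 𝓝 p := a.2.2.isOpen_compl.mem_nhds (fun hh => hh.2 hp)
    have h2 : {q | g q < d} ∈ 𝓝 p := (isOpen_lt hg continuous_const).mem_nhds hlt
    filter_upwards [h1, h2] with q hq hq'
    by_contra hn
    exact hq ⟨le_of_lt hq', hn⟩
  have i₂ : ∀ p ∈ O₂, c < g p → p ∈ interior O₂ := by
    intro p hp hlt
    rw [mem_interior_iff_mem_nhds]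
    have h1 : ({p | c ≤ g p} \ O₂)ᶜ ∈ 𝓝 p := b.2.2.isOpen_compl.mem_nhds (fun hh => hh.2 hp)
    have h2 : {q | c < g q} ∈ 𝓝 p := (isOpen_lt continuous_const hg).mem_nhds hlt
    filter_upwards [h1, h2] with q hq hq'
    by_contra hn
    exact hq ⟨le_of_lt hq', hn⟩
  refine ⟨O₀, (interior O₀ ∪ interior O₂)ᶜ, O₂, a.2.1,
    (isOpen_interior.union isOpen_interior).isClosed_compl, b.2.1, ?_, disjoint_left.mp e,
    fun p hp => a.1 hp, fun p hp => b.1 hp, ?_, ?_, ?_⟩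
  · intro p
    by_cases h : p ∈ interior O₀ ∪ interior O₂
    · rcases h with h | h
      · exact Or.inl (interior_subset h)
      · exact Or.inr (Or.inr (interior_subset h))
    · exact Or.inr (Or.inl h)
  · intro p hp
    constructor
    · by_contra hn
      push Not at hn
      exact hp (Or.inl (i₀ p (hC hn) (by linarith)))
    · by_contra hn
      push Not at hn
      exact hp (Or.inr (i₂ p (hD hn) (by linarith)))
  · intro p hp hp'
    by_contra hn
    exact hp' (Or.inl (i₀ p hp (lt_of_le_of_ne (a.1 hp) hn)))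
  · intro p hp hp'
    by_contra hn
    exact hp' (Or.inr (i₂ p hp (lt_of_le_of_ne (b.1 hp) (Ne.symm hn))))

/-- A cut of `X`. -/
def Cut (c : Set X × Set X) : Prop := IsClosed c.1 ∧ IsClosed c.2 ∧ ∀ p, p ∈ c.1 ∨ p ∈ c.2

/-- The cut sits at height `v`. -/
def At (g : X → ℝ) (η : ℝ) (c : Set X × Set X) (v : ℝ) : Prop :=
  Cut c ∧ ∀ p ∈ c.1, p ∈ c.2 → |g p - v| ≤ η

/-- Adjacent cuts. -/
def Adj (g : X → ℝ) (η : ℝ) (c c' : Set X × Set X) (v v' : ℝ) : Prop :=
  (∀ p ∈ c.1, p ∉ c'.2) ∧ ∀ p ∈ c.2, p ∈ c'.1 → min v v' - η ≤ g p ∧ g p ≤ max v v' + η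

omit [CompactSpace X] in
lemma At.mono {g : X → ℝ} {η η' : ℝ} {c : Set X × Set X} {v : ℝ} (h : At g η c v) (hη : η ≤ η') :
    At g η' c v := ⟨h.1, fun p a b => (h.2 p a b).trans hη⟩

omit [CompactSpace X] [MetricSpace X] in
lemma Adj.mono {g : X → ℝ} {η η' : ℝ} {c c' : Set X × Set X} {v v' : ℝ} (h : Adj g η c c' v v')
    (hη : η ≤ η') : Adj g η' c c' v v' :=
  ⟨h.1, fun p a b => ⟨by linarith [(h.2 p a b).1], by linarith [(h.2 p a b).2]⟩⟩

omit [CompactSpace X] in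
lemma cutBy {c c' : Set X × Set X} (hc : Cut c) (hc' : Cut c') (hd : ∀ p ∈ c.1, p ∉ c'.2)
    {Y₀ Y₁ : Set X} (h₀ : IsClosed Y₀) (h₁ : IsClosed Y₁) (hY : ∀ p, p ∈ Y₀ ∨ p ∈ Y₁)
    (ha : ∀ p ∈ c.1, p ∈ c.2 → p ∉ Y₁) (hb : ∀ p ∈ c'.1, p ∈ c'.2 → p ∉ Y₀) :
    ∃ e : Set X × Set X, Cut e ∧ (∀ p ∈ c.1, p ∉ e.2) ∧ (∀ p ∈ e.1, p ∉ c'.2) ∧
      (∀ p ∈ c.2, p ∈ e.1 → p ∈ c'.1 ∧ p ∈ Y₀) ∧ (∀ p ∈ e.2, p ∈ c'.1 → p ∈ c.2 ∧ p ∈ Y₁) ∧
      (∀ p ∈ e.1, p ∈ e.2 → p ∈ c.2 ∧ p ∈ c'.1 ∧ p ∈ Y₀ ∧ p ∈ Y₁) := by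
  refine ⟨(c.1 ∪ (c'.1 ∩ Y₀), c'.2 ∪ (c.2 ∩ Y₁)), ⟨hc.1.union (hc'.1.inter h₀),
    hc'.2.1.union (hc.2.1.inter h₁), fun p => ?_⟩, fun p => ?_, fun p => ?_, fun p => ?_,
    fun p => ?_, fun p => ?_⟩ <;>
  · have := hc.2.2 p
    have := hc'.2.2 p
    have := hY p
    have := hd p
    have := ha p
    have := hb p
    simp only [mem_union, mem_inter_iff]
    tauto

lemma ins1 {g : X → ℝ} (hg : Continuous g) {p m q η : ℝ} (hpm : p ≤ m) (hmq : m ≤ q) (hη : 0 < η) :
    ∃ η' > 0, η' ≤ η ∧ ∀ c c', At g η' c p → At g η' c' q → Adj g η' c c' p q →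
      ∃ e, At g η e m ∧ Adj g η c e p m ∧ Adj g η e c' m q := by
  have hpq : p ≤ q := hpm.trans hmq
  rcases hpq.eq_or_lt with rfl | hlt
  · obtain rfl : m = p := le_antisymm hmq hpm
    refine ⟨η, hη, le_rfl, fun c c' hc hc' ha => ?_⟩
    obtain ⟨u, u0, u1, -⟩ := exists_continuous_zero_one_of_isClosed hc.1.1 hc'.1.2.1
      (disjoint_left.2 ha.1)
    obtain ⟨e, e0, e1, e2, e3, e4, e5⟩ := cutBy hc.1 hc'.1 ha.1 (Y₀ := {x | u x ≤ 1 / 2})
      (Y₁ := {x | 1 / 2 ≤ u x}) (isClosed_le u.continuous continuous_const)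
      (isClosed_le continuous_const u.continuous) (fun x => le_total (u x) (1 / 2))
      (fun x a _ h => by
        have := u0 a; simp only [mem_ofPred_eq, Pi.zero_apply] at h this; linarith)
      (fun x _ a h => by
        have := u1 a; simp only [mem_ofPred_eq, Pi.one_apply] at h this; linarith)
    refine ⟨e, ⟨e0, fun x a b => ?_⟩, ⟨e1, fun x a b => ha.2 x a (e3 x a b).1⟩,
      ⟨e2, fun x a b => ha.2 x (e4 x a b).1 b⟩⟩
    have := ha.2 x (e5 x a b).1 (e5 x a b).2.1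
    rw [min_self, max_self] at this
    rw [abs_le]; constructor <;> linarith [this.1, this.2]
  · set θ := min (η / 2) ((q - p) / 2) with hθ
    have θ0 : 0 < θ := lt_min (by linarith) (by linarith)
    have θ1 : θ ≤ η / 2 := min_le_left _ _
    have θ2 : θ ≤ (q - p) / 2 := min_le_right _ _
    set m' := max (p + θ) (min m (q - θ)) with hm'
    have m1 : p + θ ≤ m' := le_max_left _ _
    have m2 : m' ≤ q - θ := max_le (by linarith) (min_le_right _ _)
    have m3 : m' ≤ m + θ := max_le (by linarith) ((min_le_left _ _).trans (by linarith))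
    have m4 : m - θ ≤ m' := le_max_of_le_right (le_min (by linarith) (by linarith))
    clear_value m' θ
    refine ⟨θ / 2, by linarith, by linarith, fun c c' hc hc' ha => ?_⟩
    obtain ⟨e, e0, e1, e2, e3, e4, e5⟩ := cutBy hc.1 hc'.1 ha.1 (Y₀ := {x | g x ≤ m'})
      (Y₁ := {x | m' ≤ g x}) (isClosed_le hg continuous_const)
      (isClosed_le continuous_const hg) (fun x => le_total (g x) m')
      (fun x a b h => by
        have := abs_le.1 (hc.2 x a b); simp only [mem_ofPred_eq] at h; linarith [this.2])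
      (fun x a b h => by
        have := abs_le.1 (hc'.2 x a b); simp only [mem_ofPred_eq] at h; linarith [this.1])
    have hadj := ha.2
    rw [min_eq_left hpq, max_eq_right hpq] at hadj
    refine ⟨e, ⟨e0, fun x a b => ?_⟩, ⟨e1, fun x a b => ?_⟩, ⟨e2, fun x a b => ?_⟩⟩
    · obtain ⟨-, -, h1, h2⟩ := e5 x a b
      simp only [mem_ofPred_eq] at h1 h2
      rw [abs_le]; constructor <;> linarith
    · obtain ⟨h1, h2⟩ := e3 x a b
      simp only [mem_ofPred_eq] at h2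
      rw [min_eq_left hpm, max_eq_right hpm]
      constructor <;> linarith [(hadj x a h1).1]
    · obtain ⟨h1, h2⟩ := e4 x a b
      simp only [mem_ofPred_eq] at h2
      rw [min_eq_left hmq, max_eq_right hmq]
      constructor <;> linarith [(hadj x h1 b).2]

lemma ins2 (hX : HI X) {g : X → ℝ} (hg : Continuous g) {p s t q η : ℝ} (hps : p ≤ s) (hst : s < t)
    (htq : t ≤ q) (hη : 0 < η) :
    ∃ η' > 0, η' ≤ η ∧ ∀ c c', At g η' c p → At g η' c' q → Adj g η' c c' p q →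
      ∃ e e', At g η e t ∧ At g η e' s ∧ Adj g η c e p t ∧ Adj g η e e' t s ∧
        Adj g η e' c' s q := by
  have hpq : p ≤ q := by linarith
  set θ := min (η / 2) ((t - s) / 2) with hθ
  have θ0 : 0 < θ := lt_min (by linarith) (by linarith)
  have θ1 : θ ≤ η / 2 := min_le_left _ _
  have θ2 : θ ≤ (t - s) / 2 := min_le_right _ _
  clear_value θ
  obtain ⟨Z₀, Z₁, Z₂, z0, z1, z2, zc, zd, zl, zu, zm, z01, z21⟩ :=
    fold hX hg (c := s + θ) (d := t - θ) (η := θ / 2) (by linarith) (by linarith)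
  refine ⟨θ / 2, by linarith, by linarith, fun c c' hc hc' ha => ?_⟩
  have hadj := ha.2
  rw [min_eq_left hpq, max_eq_right hpq] at hadj
  have hb : ∀ x ∈ c'.1, x ∈ c'.2 → x ∉ Z₀ ∪ Z₁ := by
    intro x a b h
    have := abs_le.1 (hc'.2 x a b)
    rcases h with h | h
    · linarith [zl x h, this.1]
    · linarith [(zm x h).2, this.1]
  obtain ⟨e, e0, e1, e2, e3, e4, e5⟩ := cutBy hc.1 hc'.1 ha.1 (Y₀ := Z₀) (Y₁ := Z₁ ∪ Z₂) z0
    (z1.union z2) zc
    (fun x a b h => by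
      have := abs_le.1 (hc.2 x a b)
      rcases h with h | h
      · linarith [(zm x h).1, this.2]
      · linarith [zu x h, this.2])
    (fun x a b h => hb x a b (Or.inl h))
  obtain ⟨e', f0, f1, f2, f3, f4, f5⟩ := cutBy e0 hc'.1 e2 (Y₀ := Z₀ ∪ Z₁) (Y₁ := Z₂)
    (z0.union z1) z2 (fun x => by have := zc x; simp only [mem_union]; tauto)
    (fun x a b h => zd x (e5 x a b).2.2.1 h) hb
  refine ⟨e, e', ⟨e0, fun x a b => ?_⟩, ⟨f0, fun x a b => ?_⟩, ⟨e1, fun x a b => ?_⟩,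
    ⟨f1, fun x a b => ?_⟩, ⟨f2, fun x a b => ?_⟩⟩
  · obtain ⟨-, -, h1, h2⟩ := e5 x a b
    have h3 : x ∈ Z₁ := h2.resolve_right (zd x h1)
    rw [z01 x h1 h3, abs_le]; constructor <;> linarith
  · obtain ⟨-, -, h1, h2⟩ := f5 x a b
    have h3 : x ∈ Z₁ := h1.resolve_left (fun h => zd x h h2)
    rw [z21 x h2 h3, abs_le]; constructor <;> linarith
  · obtain ⟨h1, h2⟩ := e3 x a b
    rw [min_eq_left (by linarith), max_eq_right (by linarith)]
    constructor <;> linarith [(hadj x a h1).1, zl x h2]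
  · obtain ⟨h1, h2⟩ := f3 x a b
    obtain ⟨-, h4⟩ := e4 x a h1
    have h3 : x ∈ Z₁ := by
      rcases h2 with h2 | h2
      · exact h4.resolve_right (zd x h2)
      · exact h2
    rw [min_eq_right hst.le, max_eq_left hst.le]
    constructor <;> linarith [(zm x h3).1, (zm x h3).2]
  · obtain ⟨h1, h2⟩ := f4 x a b
    obtain ⟨h3, -⟩ := e4 x h1 b
    rw [min_eq_left (by linarith), max_eq_right (by linarith)]
    constructor <;> linarith [(hadj x h3 b).2, zu x h2]

/-- A chain of cuts following `v` from index `i` to index `j`. -/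
def Filled (g : X → ℝ) (v : ℕ → ℝ) (η : ℝ) (i j : ℕ) (c c' : Set X × Set X) : Prop :=
  ∃ e : ℕ → Set X × Set X, e i = c ∧ e j = c' ∧ (∀ k, i ≤ k → k ≤ j → At g η (e k) (v k)) ∧
    ∀ k, i ≤ k → k < j → Adj g η (e k) (e (k + 1)) (v k) (v (k + 1))

omit [CompactSpace X] in
lemma Filled.trans {g : X → ℝ} {v : ℕ → ℝ} {η : ℝ} {i k j : ℕ} {c e c' : Set X × Set X}
    (hik : i ≤ k) (hkj : k < j) (h : Filled g v η i k c e) (h' : Filled g v η k j e c') :
    Filled g v η i j c c' := by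
  obtain ⟨a, a1, a2, a3, a4⟩ := h
  obtain ⟨b, b1, b2, b3, b4⟩ := h'
  refine ⟨fun n => if n ≤ k then a n else b n, by simp [hik, a1], by simp [not_le.2 hkj, b2],
    fun n h1 h2 => ?_, fun n h1 h2 => ?_⟩
  · by_cases hn : n ≤ k
    · simp only [hn, if_true]; exact a3 n h1 hn
    · simp only [hn, if_false]; exact b3 n (by omega) h2
  · by_cases hn : n + 1 ≤ k
    · simp only [hn, show n ≤ k by omega, if_true]; exact a4 n h1 (by omega)
    · by_cases hn' : n ≤ k
      · obtain rfl : n = k := by omega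
        simp only [hn, le_refl, if_true, if_false]
        rw [a2, ← b1]; exact b4 n le_rfl h2
      · simp only [hn, hn', if_false]; exact b4 n (by omega) h2

/-- The filling statement. -/
def Fills (g : X → ℝ) (v : ℕ → ℝ) (i j : ℕ) : Prop :=
  ∀ η > 0, ∃ η' > 0, η' ≤ η ∧ ∀ c c', At g η' c (v i) → At g η' c' (v j) →
    Adj g η' c c' (v i) (v j) → Filled g v η i j c c'

omit [CompactSpace X] in
lemma Fills.neg {g : X → ℝ} {v : ℕ → ℝ} {i j : ℕ}
    (h : Fills (fun x => - g x) (fun n => - v n) i j) : Fills g v i j := by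
  have hAt : ∀ (η : ℝ) (c : Set X × Set X) (t : ℝ), At (fun x => - g x) η c (- t) ↔ At g η c t := by
    intro η c t
    unfold At
    refine and_congr Iff.rfl (forall₃_congr fun p _ _ => ?_)
    rw [show - g p - - t = - (g p - t) by ring, abs_neg]
  have hAdj : ∀ (η : ℝ) (c c' : Set X × Set X) (s t : ℝ),
      Adj (fun x => - g x) η c c' (- s) (- t) ↔ Adj g η c c' s t := by
    intro η c c' s t
    unfold Adj
    refine and_congr Iff.rfl (forall₃_congr fun p _ _ => ?_)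
    rw [min_neg_neg, max_neg_neg]
    constructor <;> rintro ⟨a, b⟩ <;> constructor <;> linarith
  intro η hη
  obtain ⟨η', h1, h2, h3⟩ := h η hη
  refine ⟨η', h1, h2, fun c c' a b d => ?_⟩
  obtain ⟨e, e1, e2, e3, e4⟩ := h3 c c' ((hAt _ _ _).2 a) ((hAt _ _ _).2 b) ((hAdj _ _ _ _ _).2 d)
  exact ⟨e, e1, e2, fun k a b => (hAt _ _ _).1 (e3 k a b),
    fun k a b => (hAdj _ _ _ _ _).1 (e4 k a b)⟩

lemma fills (hX : HI X) : ∀ (n i j : ℕ) (g : X → ℝ) (v : ℕ → ℝ), Continuous g → i < j → j - i ≤ n →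
    (∀ k, i ≤ k → k ≤ j → min (v i) (v j) ≤ v k ∧ v k ≤ max (v i) (v j)) → Fills g v i j := by
  intro n
  induction n with
  | zero => intro i j g v _ h1 h2; omega
  | succ n ih =>
    intro i j g v hg hij hn henc
    wlog hv : v i ≤ v j generalizing g v with H
    · refine Fills.neg (H _ _ hg.neg (fun k a b => ?_) (by linarith [not_le.1 hv]))
      rw [min_neg_neg, max_neg_neg]
      exact ⟨neg_le_neg (henc k a b).2, neg_le_neg (henc k a b).1⟩
    rw [min_eq_left hv, max_eq_right hv] at henc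
    by_cases h1 : j = i + 1
    · subst h1
      intro η hη
      refine ⟨η, hη, le_rfl, fun c c' a b d => ⟨fun k => if k ≤ i then c else c', by simp, by simp,
        fun k k1 k2 => ?_, fun k k1 k2 => ?_⟩⟩
      · by_cases hk : k ≤ i
        · obtain rfl : k = i := by omega
          simpa using a
        · obtain rfl : k = i + 1 := by omega
          simpa using b
      · obtain rfl : k = i := by omega
        simpa using d
    obtain ⟨k, hk, hkmax⟩ := (Finset.Icc (i + 1) (j - 1)).exists_max_image v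
      ⟨i + 1, by simp only [Finset.mem_Icc]; omega⟩
    simp only [Finset.mem_Icc] at hk hkmax
    have vik : v i ≤ v k := (henc k (by omega) (by omega)).1
    have vkj : v k ≤ v j := (henc k (by omega) (by omega)).2
    have F1 : Fills g v i k := ih i k g v hg (by omega) (by omega) (fun t a b => by
      rw [min_eq_left vik, max_eq_right vik]
      refine ⟨(henc t a (by omega)).1, ?_⟩
      rcases a.eq_or_lt with rfl | a
      · exact vik
      · exact hkmax t ⟨a, by omega⟩)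
    obtain ⟨l, hl, hlmin⟩ := (Finset.Icc k (j - 1)).exists_min_image v
      ⟨k, by simp only [Finset.mem_Icc]; omega⟩
    simp only [Finset.mem_Icc] at hl hlmin
    have vlk : v l ≤ v k := hlmin k ⟨le_rfl, hk.2⟩
    have key : ∀ s, k ≤ s → s ≤ j - 1 → v s = v l → Fills g v s j := fun s s1 s2 s3 =>
      ih s j g v hg (by omega) (by omega) (fun t a b => by
        have : v s ≤ v j := by linarith
        rw [min_eq_left this, max_eq_right this]
        refine ⟨?_, (henc t (by omega) b).2⟩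
        rcases b.eq_or_lt with rfl | b
        · exact this
        · rw [s3]; exact hlmin t ⟨by omega, by omega⟩)
    intro η hη
    obtain ⟨η₁, a1, a2, a3⟩ := F1 η hη
    rcases vlk.eq_or_lt with he | hlt
    · obtain ⟨η₂, b1, b2, b3⟩ := key k le_rfl hk.2 he.symm η hη
      obtain ⟨η', c1, c2, c3⟩ := ins1 hg vik vkj (lt_min a1 b1)
      have l1 := min_le_left η₁ η₂
      have l2 := min_le_right η₁ η₂
      refine ⟨η', c1, by linarith, fun c c' a b d => ?_⟩
      obtain ⟨e, e1, e2, e3⟩ := c3 c c' a b d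
      exact (a3 c e (a.mono (by linarith)) (e1.mono l1) (e2.mono l1)).trans (by omega) (by omega)
        (b3 e c' (e1.mono l2) (b.mono (by linarith)) (e3.mono l2))
    · have hkl : k < l := lt_of_le_of_ne hl.1 (by rintro rfl; exact lt_irrefl _ hlt)
      have F2 : Fills g v k l := ih k l g v hg hkl (by omega) (fun t a b => by
        rw [min_eq_right vlk, max_eq_left vlk]
        exact ⟨hlmin t ⟨a, by omega⟩, hkmax t ⟨by omega, by omega⟩⟩)
      obtain ⟨η₂, b1, b2, b3⟩ := F2 η hη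
      obtain ⟨η₃, d1, d2, d3⟩ := key l hl.1 hl.2 rfl η hη
      obtain ⟨η', c1, c2, c3⟩ := ins2 hX hg (henc l (by omega) (by omega)).1 hlt vkj
        (lt_min a1 (lt_min b1 d1))
      have l1 := min_le_left η₁ (min η₂ η₃)
      have l2 := (min_le_right η₁ (min η₂ η₃)).trans (min_le_left _ _)
      have l3 := (min_le_right η₁ (min η₂ η₃)).trans (min_le_right _ _)
      refine ⟨η', c1, by linarith, fun c c' a b d => ?_⟩
      obtain ⟨e, e', e1, e2, e3, e4, e5⟩ := c3 c c' a b d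
      exact (a3 c e (a.mono (by linarith)) (e1.mono l1) (e3.mono l1)).trans (by omega) (by omega)
        ((b3 e e' (e1.mono l2) (e2.mono l2) (e4.mono l2)).trans hl.1 (by omega)
          (d3 e' c' (e2.mono l3) (b.mono (by linarith)) (e5.mono l3)))

/-- Lifting lemma with marked points. -/
lemma lift_marked (hX : HI X) {g : X → ℝ} (hg : Continuous g) (v : ℕ → ℝ) {M : ℕ} (hM : 0 < M)
    (henc : ∀ k ≤ M, v 0 ≤ v k ∧ v k ≤ v M) (hr : ∀ x, v 0 ≤ g x ∧ g x ≤ v M)
    {xs xe : X} (hne : xs ≠ xe) (hs : g xs = v 0) (he : g xe = v M) {η : ℝ} (hη : 0 < η) :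
    ∃ G : X → ℝ, Continuous G ∧ G xs = 0 ∧ G xe = M ∧
      ∀ x, ∃ i < M, (i : ℝ) ≤ G x ∧ G x ≤ i + 1 ∧
        min (v i) (v (i + 1)) - η ≤ g x ∧ g x ≤ max (v i) (v (i + 1)) + η := by
  have hv : v 0 ≤ v M := (henc 0 hM.le).2
  obtain ⟨η', a1, -, a3⟩ := fills hX M 0 M g v hg hM (by omega) (fun k _ b => by
    rw [min_eq_left hv, max_eq_right hv]; exact henc k b) η hη
  obtain ⟨e, e1, e2, e3, e4⟩ := a3 ({xs}, univ) (univ, {xe})
    ⟨⟨isClosed_singleton, isClosed_univ, fun p => Or.inr trivial⟩, by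
      rintro p rfl -; simp [hs, a1.le]⟩
    ⟨⟨isClosed_univ, isClosed_singleton, fun p => Or.inl trivial⟩, by
      rintro p - rfl; simp [he, a1.le]⟩
    ⟨by rintro p rfl h; exact hne h, fun p _ _ => by
      rw [min_eq_left hv, max_eq_right hv]; constructor <;> linarith [(hr p).1, (hr p).2]⟩
  have hu : ∀ k : ℕ, ∃ u : C(X, ℝ), k < M →
      EqOn u 0 (e k).1 ∧ EqOn u 1 (e (k + 1)).2 ∧ ∀ x, u x ∈ Icc (0 : ℝ) 1 := by
    intro k
    by_cases hk : k < M
    · obtain ⟨u, hu⟩ := exists_continuous_zero_one_of_isClosed (e3 k (by omega) hk.le).1.1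
        (e3 (k + 1) (by omega) hk).1.2.1 (disjoint_left.2 (e4 k (by omega) hk).1)
      exact ⟨u, fun _ => hu⟩
    · exact ⟨0, fun h => absurd h hk⟩
  choose u hu using hu
  have monoL : ∀ x k k', k ≤ k' → k' ≤ M → x ∈ (e k).1 → x ∈ (e k').1 := by
    intro x k k' h1 h2 hx
    induction k', h1 using Nat.le_induction with
    | base => exact hx
    | succ n hn ih =>
      exact ((e3 (n + 1) (by omega) h2).1.2.2 x).resolve_right
        ((e4 n (by omega) h2).1 x (ih (by omega)))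
  have monoR : ∀ x k k', k ≤ k' → k' ≤ M → x ∈ (e k').2 → x ∈ (e k).2 := by
    intro x k k' h1 h2 hx
    rcases h1.eq_or_lt with rfl | h1
    · exact hx
    refine ((e3 k (by omega) (by omega)).1.2.2 x).resolve_left (fun h => ?_)
    obtain ⟨n, rfl⟩ : ∃ n, k' = n + 1 := ⟨k' - 1, by omega⟩
    exact (e4 n (by omega) h2).1 x (monoL x k n (by omega) (by omega) h) hx
  have hsum : ∀ x i, i < M → x ∈ (e i).2 → x ∈ (e (i + 1)).1 →
      ∑ k ∈ Finset.range M, u k x = i + u i x := by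
    intro x i hi h1 h2
    obtain ⟨n, rfl⟩ : ∃ n, M = i + 1 + n := ⟨M - (i + 1), by omega⟩
    rw [Finset.sum_range_add, Finset.sum_range_succ]
    have s1 : ∑ k ∈ Finset.range i, u k x = i := by
      rw [Finset.sum_congr rfl (g := fun _ => (1 : ℝ))]
      · simp
      · intro k hk
        rw [Finset.mem_range] at hk
        exact (hu k (by omega)).2.1 (monoR x (k + 1) i hk (by omega) h1)
    have s2 : ∑ k ∈ Finset.range n, u (i + 1 + k) x = 0 := by
      refine Finset.sum_eq_zero fun k hk => ?_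
      rw [Finset.mem_range] at hk
      exact (hu _ (by omega)).1 (monoL x (i + 1) _ (by omega) (by omega) h2)
    rw [s1, s2, add_zero]
  refine ⟨fun x => ∑ k ∈ Finset.range M, u k x, by fun_prop, ?_, ?_, fun x => ?_⟩
  · refine Finset.sum_eq_zero fun k hk => ?_
    rw [Finset.mem_range] at hk
    exact (hu k hk).1 (monoL xs 0 k (by omega) hk.le (by rw [e1]; rfl))
  · show ∑ k ∈ Finset.range M, u k xe = M
    rw [Finset.sum_congr rfl (g := fun _ => (1 : ℝ))]
    · simp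
    · intro k hk
      rw [Finset.mem_range] at hk
      exact (hu k hk).2.1 (monoR xe (k + 1) M hk le_rfl (by rw [e2]; rfl))
  · have hex : ∃ i, i < M ∧ x ∈ (e (i + 1)).1 := by
      obtain ⟨n, rfl⟩ : ∃ n, M = n + 1 := ⟨M - 1, by omega⟩
      exact ⟨n, by omega, by rw [e2]; trivial⟩
    classical
    obtain ⟨hi, hx⟩ := Nat.find_spec hex
    have hmin := fun m => Nat.find_min hex (m := m)
    set i := Nat.find hex
    have hR : x ∈ (e i).2 := by
      rcases Nat.eq_zero_or_pos i with h0 | h0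
      · rw [h0, e1]; trivial
      · refine ((e3 i (by omega) hi.le).1.2.2 x).resolve_left (fun h => ?_)
        refine hmin (i - 1) (by omega) ⟨by omega, ?_⟩
        rwa [Nat.sub_add_cancel h0]
    have := (hu i hi).2.2 x
    refine ⟨i, hi, ?_, ?_, (e4 i (by omega) hi).2 x hR hx⟩
    · show _ ≤ ∑ k ∈ Finset.range M, u k x
      rw [hsum x i hi hR hx]; linarith [this.1]
    · show ∑ k ∈ Finset.range M, u k x ≤ _
      rw [hsum x i hi hR hx]; linarith [this.2]

end Pool.Agent.MP_1ac210_gt.H95
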