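import Pool.Agent.MP_1ac210_gt.H95.Double

/-! A locally constant property of homeomorphisms of the pseudo-arc is constant. -/

open Set Metric Filter Topology

namespace Pool.Agent.MP_1ac210_gt.H95

set_option linter.unusedSectionVars false

variable {X : Type} [MetricSpace X] [CompactSpace X] [ConnectedSpace X] [Nontrivial X]

lemma mu_image_pos (hX : HI X) (z : X ≃ₜ X) (x : X) {r : ℝ} (h0 : 0 < r)
    (h1 : r ≤ mu (univ : Set X)) : 0 < mu (z '' A x r) := by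
  have : ∃ p ∈ A x r, p ≠ x := by
    by_contra hn
    push Not at hn
    have := mu_mono (show A x r ⊆ {x} from hn)
    rw [mu_singleton, mu_A hX x h0.le h1] at this
    linarith
  obtain ⟨p, a, b⟩ := this
  exact mu_pos (mem_image_of_mem z a) (mem_image_of_mem z (mem_A x r)) (z.injective.ne b)

/-- The block relation `B` is obtained from `B₀` by a total decrease `s` of sizes, the first size
being frozen once it reaches `η`. -/
def Geo (B₀ : Blk X) (η : ℝ) (B : Blk X) (s : ℝ) : Prop :=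
  B.R ⊆ B₀.R ∧ (∀ x, η ≤ B.a x) ∧ ∀ x w, (x, w) ∈ B.R →
    B₀.a x + B₀.b w - B.a x - B.b w ≤ s ∧ (B.a x = η ∨ B₀.a x + B₀.b w - B.a x - B.b w = s)

lemma Geo.dec (hX : HI X) {B₀ B B' : Blk X} {η s s' : ℝ} (g : Geo B₀ η B s) (g' : Geo B₀ η B' s')
    (h : B'.R ⊆ B.R) (hs : s ≤ s') :
    (∀ x, B.a x ≤ B'.a x + (s' - s)) ∧ ∀ w, B.b w ≤ B'.b w + (s' - s) := by
  have key : ∀ x w, (x, w) ∈ B'.R → B.a x ≤ B'.a x + (s' - s) ∧ B.b w ≤ B'.b w + (s' - s) := by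
    intro x w hxw
    have a := Blk.a_le hX h x
    have b := Blk.b_le hX h w
    rcases (g.2.2 x w (h hxw)).2 with e | e
    · have c : B.a x ≤ B'.a x := by rw [e]; exact g'.2.1 x
      have d := Blk.b_ge hX h hxw c
      constructor <;> linarith
    · have := (g'.2.2 x w hxw).1
      constructor <;> linarith
  exact ⟨fun x => let ⟨w, hw⟩ := B'.dom1 x; (key x w hw).1,
    fun w => let ⟨x, hx⟩ := B'.dom2 w; (key x w hx).2⟩

lemma exists_cut (hX : HI X) {B₀ B : Blk X} {η s s' : ℝ} (η0 : 0 < η) (g : Geo B₀ η B s)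
    (hs : s ≤ s') {z : X ≃ₜ X} (hz : B.Mem z) :
    ∃ B' : Blk X, B'.R ⊆ B.R ∧ B'.Mem z ∧ Geo B₀ η B' s' := by
  have cm := continuous_mu_A hX z.continuous
  have hz₀ : B₀.Mem z := fun x => g.1 (hz x)
  obtain ⟨Q, hQ⟩ : ∃ Q : X → ℝ → Prop, ∀ x r, Q x r ↔
      (B₀.a x + B₀.b (z x) - s' ≤ r + mu (z '' A x r) ∧
        (r = η ∨ r + mu (z '' A x r) = B₀.a x + B₀.b (z x) - s')) := ⟨_, fun _ _ => Iff.rfl⟩
  have ex : ∀ x, ∃ r, (η ≤ r ∧ r ≤ B.a x) ∧ Q x r := fun x => by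
    rcases le_total (B₀.a x + B₀.b (z x) - s') (η + mu (z '' A x η)) with a | a
    · exact ⟨η, ⟨le_rfl, g.2.1 x⟩, (hQ _ _).2 ⟨a, Or.inl rfl⟩⟩
    · obtain ⟨r, hr, e⟩ := intermediate_value_Icc (g.2.1 x)
        (f := fun r => r + mu (z '' A x r))
        (continuous_id.add (cm.comp (f := fun r : ℝ => (x, r)) (by fun_prop))).continuousOn
        (show B₀.a x + B₀.b (z x) - s' ∈ Icc _ _ from ⟨a, by
          show _ ≤ B.a x + mu (z '' A x (B.a x))
          rw [B.mu_image hX hz (hz x)]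
          linarith [(g.2.2 x _ (hz x)).1]⟩)
      exact ⟨r, hr, (hQ _ _).2 ⟨e.ge, Or.inr e⟩⟩
  have uq : ∀ x r r', η ≤ r → η ≤ r' → Q x r → Q x r' → r = r' := by
    have : ∀ x r r', η ≤ r → Q x r → Q x r' → r' ≤ r := fun x r r' a b c => by
      by_contra hn
      push Not at hn
      rw [hQ] at b c
      have d := mu_mono (image_mono (f := z) (A_mono x hn.le))
      rcases c.2 with e | e <;> linarith [b.1]
    exact fun x r r' a b c d => (this x r' r b d c).antisymm (this x r r' a c d)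
  choose l hl hq using ex
  have lm : ∀ x, l x ≤ mu (univ : Set X) := fun x => (hl x).2.trans (B.ale x)
  have cl : Continuous l := by
    have : Continuous fun x => (⟨l x, (hl x).1, lm x⟩ : Icc η (mu (univ : Set X))) := by
      refine continuous_of_closed ?_
      have e : {p : X × Icc η (mu (univ : Set X)) | (⟨l p.1, (hl p.1).1, lm p.1⟩ : Icc _ _) = p.2} =
          {p | Q p.1 p.2} := by
        ext p; constructor
        · intro h
          have h' : l p.1 = p.2 := congrArg Subtype.val h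
          show Q p.1 p.2
          rw [← h']; exact hq _
        · intro h
          exact Subtype.ext (uq _ _ _ (hl _).1 p.2.2.1 (hq _) h)
      rw [e]
      have c1 : Continuous fun p : X × Icc η (mu (univ : Set X)) =>
          (p.2 : ℝ) + mu (z '' A p.1 p.2) :=
        (continuous_subtype_val.comp continuous_snd).add
          (cm.comp (f := fun p : X × Icc η (mu (univ : Set X)) => (p.1, (p.2 : ℝ))) (by fun_prop))
      have ca := B₀.ca
      have cb := B₀.cb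
      have c2 : Continuous fun p : X × Icc η (mu (univ : Set X)) =>
          B₀.a p.1 + B₀.b (z p.1) - s' := by fun_prop
      simp only [hQ]
      exact (isClosed_le c2 c1).inter
        ((isClosed_eq (continuous_subtype_val.comp continuous_snd) continuous_const).union
          (isClosed_eq c1 c2))
    exact continuous_subtype_val.comp this
  obtain ⟨B', e, m, sub⟩ := exists_blk hX z cl (fun x => η0.trans_le (hl x).1) lm (fun x x' h => by
    have h₀ : x' ∈ A x (B₀.a x) := A_mono x ((hl x).2.trans (Blk.a_le hX g.1 x)) h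
    refine uq x' _ _ (hl _).1 (hl _).1 (hq _) ?_
    rw [hQ, A_congr hX h, B₀.a_const hX h₀, B₀.b_const hX
      (B₀.image hz₀ (hz₀ x) ▸ mem_image_of_mem z h₀)]
    exact (hQ _ _).1 (hq x))
  have sb := sub B hz fun x => (hl x).2
  refine ⟨B', sb, m, sb.trans g.1, fun x => e ▸ (hl x).1, fun x w hxw => ?_⟩
  have := (hQ _ _).1 (hq x)
  rw [← e, B'.mu_image hX m hxw,
    B₀.b_const hX ((B₀.sec2 x w (g.1 (sb hxw)) _).1 (hz₀ x))] at this
  exact ⟨by linarith [this.1], this.2.imp id fun a => by linarith⟩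

lemma greedy {P : Type} (le : P → P → Prop) (rf : ∀ p, le p p) (s : P → ℝ) {C : ℝ}
    (hC : ∀ p, s p ≤ C) (p₀ : P) : ∃ u : ℕ → P, (∀ n, le (u (n + 1)) (u n)) ∧
      ∀ n q, le q (u n) → s q ≤ s (u (n + 1)) + 1 / (n + 1 : ℝ) := by
  have : ∀ (n : ℕ) (p : P), ∃ p', le p' p ∧ ∀ q, le q p → s q ≤ s p' + 1 / (n + 1 : ℝ) := by
    intro n p
    have hb : BddAbove (s '' {q | le q p}) := ⟨C, by rintro _ ⟨q, -, rfl⟩; exact hC q⟩
    obtain ⟨_, ⟨p', a, rfl⟩, b⟩ := exists_lt_of_lt_csSup (s := s '' {q | le q p}) ⟨_, p, rf p, rfl⟩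
      (show sSup (s '' {q | le q p}) - 1 / (n + 1 : ℝ) < _ from sub_lt_self _ (by positivity))
    exact ⟨p', a, fun q hq => by linarith [le_csSup hb (mem_image_of_mem s hq)]⟩
  choose f h1 h2 using this
  exact ⟨fun n => Nat.rec p₀ f n, fun n => h1 _ _, fun n q hq => h2 _ _ q hq⟩

lemma gauge {k : ℕ → ℝ} (hk : ∀ n, 0 < k n) {e : ℝ} (he : 0 < e) :
    ∃ κ > 0, ∀ n : ℕ, e ≤ 1 / (n + 1 : ℝ) → κ ≤ k n := by
  obtain ⟨N, hN⟩ := exists_nat_one_div_lt he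
  obtain ⟨m, -, hm⟩ := (Finset.range (N + 1)).exists_min_image k ⟨0, by simp⟩
  refine ⟨k m, hk m, fun n hn => hm n (Finset.mem_range.2 ?_)⟩
  have := lt_of_one_div_lt_one_div (by positivity) (hN.trans_le hn)
  have : n < N := by exact_mod_cast (show (n : ℝ) < N by linarith)
  omega

/-- The property `U` is locally constant for the uniform distance. -/
def LC (U : (X ≃ₜ X) → Prop) : Prop :=
  ∀ y : X ≃ₜ X, ∃ δ > 0, ∀ z : X ≃ₜ X, (∀ x, dist (z x) (y x) ≤ δ) → (U z ↔ U y)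

/-- The property `U` is not constant on the homeomorphisms that respect `B`. -/
def Bad (U : (X ≃ₜ X) → Prop) (B : Blk X) : Prop :=
  ∃ z₁ z₂, B.Mem z₁ ∧ B.Mem z₂ ∧ ¬(U z₁ ↔ U z₂)

/-- A linear lower bound for the sizes of images. -/
def Wd (η lam : ℝ) (B : Blk X) (z : X ≃ₜ X) : Prop :=
  B.Mem z ∧ ∀ x r, η ≤ r → r ≤ B.a x → lam * r < mu (z '' A x r)

lemma Wd.lt (hX : HI X) {η lam : ℝ} {B : Blk X} {z : X ≃ₜ X} (h : Wd η lam B z)
    (e : ∀ x, η ≤ B.a x) {x w : X} (hxw : (x, w) ∈ B.R) : lam * B.a x < B.b w := by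
  rw [← B.mu_image hX h.1 hxw]; exact h.2 x _ (e x) le_rfl

theorem claimA (hX : HI X) (hF : Fine X) {U : (X ≃ₜ X) → Prop} (hU : LC U) {B₀ : Blk X}
    (bad : Bad U B₀) {η : ℝ} (η0 : 0 < η) (η1 : ∀ x, η ≤ B₀.a x) :
    ∃ B : Blk X, B.R ⊆ B₀.R ∧ Bad U B ∧ ∀ x, B.a x ≤ η := by
  by_contra hno
  have m0 := mu_univ_pos (X := X)
  have ηm : η ≤ mu (univ : Set X) := (η1 (Classical.arbitrary X)).trans (B₀.ale _)
  obtain ⟨lam, l0, z₁, z₂, w1, w2, hb⟩ : ∃ lam > 0, ∃ z₁ z₂, Wd η lam B₀ z₁ ∧ Wd η lam B₀ z₂ ∧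
      ¬(U z₁ ↔ U z₂) := by
    obtain ⟨z₁, z₂, a1, a2, a3⟩ := bad
    have key : ∀ z : X ≃ₜ X, ∃ β > 0, ∀ x, β ≤ mu (z '' A x η) := fun z =>
      pos_min ((continuous_mu_A hX z.continuous).comp (f := fun x : X => (x, η)) (by fun_prop))
        fun x => mu_image_pos hX z x η0 ηm
    obtain ⟨β₁, b1, c1⟩ := key z₁
    obtain ⟨β₂, b2, c2⟩ := key z₂
    have bp : 0 < min β₁ β₂ := lt_min b1 b2
    have k2 : ∀ x r, r ≤ B₀.a x → min β₁ β₂ / (2 * mu (univ : Set X)) * r < min β₁ β₂ :=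
      fun x r hr => by
        rw [div_mul_eq_mul_div, div_lt_iff₀ (by linarith)]
        exact mul_lt_mul_of_pos_left (by linarith [B₀.ale x]) bp
    exact ⟨min β₁ β₂ / (2 * mu (univ : Set X)), by positivity, z₁, z₂,
      ⟨a1, fun x r r0 r1 => (k2 x r r1).trans_le ((min_le_left _ _).trans ((c1 x).trans
        (mu_mono (image_mono (A_mono x r0)))))⟩,
      ⟨a2, fun x r r0 r1 => (k2 x r r1).trans_le ((min_le_right _ _).trans ((c2 x).trans
        (mu_mono (image_mono (A_mono x r0)))))⟩, a3⟩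
  obtain ⟨u, hu1, hu2⟩ := greedy (P := {p : Blk X × ℝ // Geo B₀ η p.1 p.2 ∧
      ∃ z₁ z₂, Wd η lam p.1 z₁ ∧ Wd η lam p.1 z₂ ∧ ¬(U z₁ ↔ U z₂)})
    (fun q p => q.1.1.R ⊆ p.1.1.R ∧ p.1.2 ≤ q.1.2) (fun p => ⟨Subset.rfl, le_rfl⟩)
    (fun p => p.1.2) (C := 2 * mu (univ : Set X))
    (by
      rintro ⟨⟨B, s⟩, g, z₁, z₂, a1, a2, a3⟩
      by_contra hn
      refine hno ⟨B, g.1, ⟨z₁, z₂, a1.1, a2.1, a3⟩, fun x => ?_⟩
      rcases (g.2.2 x _ (a1.1 x)).2 with e | e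
      · exact e.le
      · simp only [not_le] at hn e
        linarith [B₀.ale x, B₀.ble (z₁ x), B.apos x, B.bpos (z₁ x)])
    ⟨(B₀, 0), ⟨Subset.rfl, η1, fun x w _ => ⟨by simp, Or.inr (by simp)⟩⟩, z₁, z₂, w1, w2, hb⟩
  have bd : ∀ n, (u n).1.2 ≤ 2 * mu (univ : Set X) := fun n => by
    by_contra hn
    obtain ⟨g, z₁, z₂, a1, a2, a3⟩ := (u n).2
    refine hno ⟨_, g.1, ⟨z₁, z₂, a1.1, a2.1, a3⟩, fun x => ?_⟩
    rcases (g.2.2 x _ (a1.1 x)).2 with e | e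
    · exact e.le
    · linarith [B₀.ale x, B₀.ble (z₁ x), (u n).1.1.apos x, (u n).1.1.bpos (z₁ x)]
  obtain ⟨B, hB⟩ : ∃ B : ℕ → Blk X, ∀ n, (u n).1.1 = B n := ⟨_, fun _ => rfl⟩
  obtain ⟨s, hs⟩ : ∃ s : ℕ → ℝ, ∀ n, (u n).1.2 = s n := ⟨_, fun _ => rfl⟩
  have geo : ∀ n, Geo B₀ η (B n) (s n) := fun n => hB n ▸ hs n ▸ (u n).2.1
  have wit : ∀ n, ∃ z₁ z₂, Wd η lam (B n) z₁ ∧ Wd η lam (B n) z₂ ∧ ¬(U z₁ ↔ U z₂) :=
    fun n => hB n ▸ (u n).2.2
  have grd : ∀ n B' s', Geo B₀ η B' s' →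
      (∃ z₁ z₂, Wd η lam B' z₁ ∧ Wd η lam B' z₂ ∧ ¬(U z₁ ↔ U z₂)) → B'.R ⊆ (B n).R → s n ≤ s' →
      s' ≤ s (n + 1) + 1 / (n + 1 : ℝ) := fun n B' s' a b c d =>
    hs (n + 1) ▸ hu2 n ⟨(B', s'), a, b⟩ ⟨hB n ▸ c, hs n ▸ d⟩
  simp only [hB, hs] at hu1 bd
  clear hu2 hB hs u w1 w2 hb z₁ z₂ bad
  have aB : Antitone fun n => (B n).R := antitone_nat_of_succ_le fun n => (hu1 n).1
  have ms : Monotone s := monotone_nat_of_le_succ fun n => (hu1 n).2
  have bs : BddAbove (range s) := ⟨_, by rintro _ ⟨n, rfl⟩; exact bd n⟩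
  obtain ⟨S, S1, S2⟩ : ∃ S, (∀ n, s n ≤ S) ∧ ∀ ε > 0, ∃ n, S - s n ≤ ε :=
    ⟨⨆ n, s n, le_ciSup bs, fun ε hε => by
      obtain ⟨n, hn⟩ := exists_lt_of_lt_ciSup (show (⨆ n, s n) - ε < _ from sub_lt_self _ hε)
      exact ⟨n, by linarith⟩⟩
  have lb : ∀ n x w, (x, w) ∈ (B n).R → lam * (B n).a x < (B n).b w := fun n x w h => by
    obtain ⟨z, -, a, -⟩ := wit n
    exact a.lt hX (geo n).2.1 h
  obtain ⟨L, hL⟩ := lim_blk hX B (fun n => (hu1 n).1) S2 (β := min η (lam * η)) (by positivity)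
    (fun n x => (min_le_left _ _).trans ((geo n).2.1 x))
    (fun n w => by
      obtain ⟨x, hx⟩ := (B n).dom2 w
      exact (min_le_right _ _).trans ((mul_le_mul_of_nonneg_left ((geo n).2.1 x) l0.le).trans
        (lb n x w hx).le))
    (fun n k x => by
      rcases le_total n k with a | a
      · linarith [((geo n).dec hX (geo k) (aB a) (ms a)).1 x, S1 k]
      · linarith [Blk.a_le hX (aB a) x, S1 n])
    (fun n k x => by
      rcases le_total n k with a | a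
      · linarith [((geo n).dec hX (geo k) (aB a) (ms a)).2 x, S1 k]
      · linarith [Blk.b_le hX (aB a) x, S1 n])
  have Lη : ∀ x, η ≤ L.a x := fun x => le_of_forall_pos_le_add fun ε hε => by
    obtain ⟨n, hn⟩ := S2 ε hε
    linarith [(geo n).2.1 x, (hL n).2.1 x]
  have Lb : ∀ x w, (x, w) ∈ L.R → lam * L.a x ≤ L.b w := fun x w h =>
    le_of_forall_pos_le_add fun ε hε => by
      obtain ⟨n, hn⟩ := S2 ε hε
      linarith [lb n x w ((hL n).1 h), (hL n).2.2 w,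
        mul_le_mul_of_nonneg_left (Blk.a_le hX (hL n).1 x) l0.le]
  choose ε ε0 _ εa using fun n : ℕ =>
    exists_adapt hF (show 0 < lam * (1 / (n + 1 : ℝ)) / 512 by positivity)
  choose κ κ0 hκ using fun n : ℕ => cpt (X := X) (half_pos (ε0 n))
  have D0 : 0 < diam (univ : Set X) + 1 := by positivity
  have D1 : ∀ p q : X, dist p q ≤ diam (univ : Set X) + 1 := fun p q => by
    linarith [dist_le_diam_of_mem isBounded_of_compactSpace (mem_univ p) (mem_univ q)]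
  obtain ⟨y, hy, -, cy⟩ := lemmaM hX hF L
    (Z := fun e k => k ≤ lam * e / 2 ∧ ∀ n : ℕ, e ≤ 1 / (n + 1 : ℝ) → k ≤ κ n / 2)
    (fun e he => by
      obtain ⟨k, a, b⟩ := gauge (fun n => half_pos (κ0 n)) he
      exact ⟨min (lam * e / 2) k, by positivity, min_le_left _ _,
        fun n hn => (min_le_right _ _).trans (b n hn)⟩)
    ⟨Homeomorph.refl X, fun _ => η / 4, diam (univ : Set X) + 1, 2 * (diam (univ : Set X) + 1),
      η / 4, ⟨continuous_const, fun x => ⟨by linarith, by linarith [Lη x]⟩, fun _ _ _ => rfl⟩,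
      D0, by linarith, by linarith, ⟨fun _ => 0, continuous_const, fun p q _ => D1 p q, by simp⟩,
      fun x w _ => ⟨fun p _ => ⟨w, mem_A _ _, by linarith [D1 p w]⟩,
        fun p _ => ⟨_, mem_image_of_mem _ (mem_A _ _), by linarith [D1 p (Homeomorph.refl X x)]⟩⟩⟩
  simp only at cy
  obtain ⟨δ, δ0, hδ⟩ := hU y
  obtain ⟨j, hj⟩ := exists_nat_one_div_lt (lt_min (half_pos η0) (div_pos δ0 l0))
  obtain ⟨hj1, hj2⟩ := lt_min_iff.1 hj
  have cy' : ∀ x r, η / 2 ≤ r → r < L.a x → ∃ e k, k ≤ lam * e / 2 ∧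
      (e ≤ 1 / (j + 1 : ℝ) → k ≤ κ j / 2) ∧ e ≤ L.a x - r ∧ L.b (y x) - k ≤ mu (y '' A x r) :=
    fun x r a b => by
      obtain ⟨e, k, c, d⟩ := cy x r (by linarith) b
      exact ⟨e, k, c.1, c.2 j, d⟩
  have εj := εa j
  have θ0 : 0 < 1 / (j + 1 : ℝ) := by positivity
  generalize 1 / (j + 1 : ℝ) = θ at hj1 hj2 cy' εj θ0
  rw [lt_div_iff₀ l0] at hj2
  obtain ⟨c, c0, c1, c2⟩ : ∃ c > 0, c ≤ κ j / 2 ∧ c ≤ θ / 8 :=
    ⟨min (κ j / 2) (θ / 8), lt_min (half_pos (κ0 j)) (by linarith), min_le_left _ _,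
      min_le_right _ _⟩
  obtain ⟨n, n1, n2⟩ : ∃ n : ℕ, S - s n ≤ c ∧ 1 / (n + 1 : ℝ) < c := by
    obtain ⟨n, hn⟩ := S2 c c0
    obtain ⟨n', hn'⟩ := exists_nat_one_div_lt c0
    exact ⟨max n n', by linarith [ms (le_max_left n n')],
      (Nat.one_div_le_one_div (le_max_right n n')).trans_lt hn'⟩
  obtain ⟨z, hz, hzy⟩ : ∃ z, Wd η lam (B n) z ∧ ¬(U z ↔ U y) := by
    obtain ⟨z₁, z₂, a1, a2, a3⟩ := wit n
    by_cases e : U z₁ ↔ U y
    · exact ⟨z₂, a2, fun f => a3 (e.trans f.symm)⟩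
    · exact ⟨z₁, a1, e⟩
  have sn : s n ≤ S + c := by linarith [S1 n]
  obtain ⟨Q, q1, q2, q3⟩ := exists_cut hX η0 (geo n) sn hz.1
  have dc := (geo n).dec hX q3 q1 sn
  have yn : (B n).Mem y := fun x => (hL n).1 (hy x)
  have a1 : ∀ x, Q.a x ≤ L.a x + c := fun x => by linarith [Blk.a_le hX q1 x, (hL n).2.1 x]
  have a2 : ∀ x, L.a x ≤ Q.a x + 2 * c := fun x => by linarith [Blk.a_le hX (hL n).1 x, dc.1 x]
  have lθ : 0 < lam * θ := by positivity
  obtain ⟨z', m', d', cz⟩ := lemmaM hX hF Q (Z := fun e k => k ≤ lam * e)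
    (fun e he => ⟨lam * e, by positivity, le_rfl⟩)
    ⟨y, fun x => Q.a x - θ / 2, lam * θ / 512, ε j, θ / 4,
      size_sub hX Q (by linarith) fun x => by linarith [q3.2.1 x], by linarith, ε0 j, by linarith,
      εj, fun x w hxw => by
        have e1 := (B n).image yn (q1 hxw)
        have e2 : mu (A w ((B n).b w)) = (B n).b w := (B n).T.mu_a hX w
        have e3 : mu (A w (Q.b w)) = Q.b w := Q.T.mu_a hX w
        have s1 : y '' A x (Q.a x - θ / 2) ⊆ A w ((B n).b w) :=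
          e1 ▸ image_mono (A_mono x (by linarith [Blk.a_le hX q1 x]))
        have s2 : A w (Q.b w) ⊆ A w ((B n).b w) := A_mono w (Blk.b_le hX q1 w)
        obtain ⟨e, k, -, k1, k2, k3⟩ := cy' x (Q.a x - θ / 2) (by linarith [q3.2.1 x])
          (by linarith [a1 x])
        have e4 := (B n).b_const hX (s1 (mem_image_of_mem y (mem_A x _)))
        exact ⟨(hκ j _ _ ⟨w, mem_A _ _⟩ (Near.of_subset s2 (κ0 j).le)
            (by rw [e2, e3]; linarith [dc.2 w])).left s1,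
          (hκ j _ _ ⟨_, mem_image_of_mem y (mem_A x _)⟩ (Near.of_subset s1 (κ0 j).le)
            (by rw [e2]; linarith [(hL n).2.2 (y x), k1 (by linarith [a2 x])])).left s2⟩⟩
  simp only at d' cz
  have wz : Wd η lam Q z := ⟨q2, fun x r a b => hz.2 x r a (b.trans (Blk.a_le hX q1 x))⟩
  have wz' : Wd η lam Q z' := ⟨m', fun x r r0 r1 => by
    have b0 := wz.lt hX q3.2.1 (m' x)
    rcases r1.eq_or_lt with rfl | r1
    · rwa [Q.mu_image hX m' (m' x)]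
    rcases le_or_gt (Q.a x - θ / 2 + θ / 4) r with r2 | r2
    · obtain ⟨e, k, k1, k2, k3⟩ := cz x r r2 r1
      nlinarith [mul_le_mul_of_nonneg_left k2 l0.le]
    · obtain ⟨e, k, k1, -, k2, k3⟩ := cy' x r (by linarith) (by linarith [a1 x])
      have e1 := mu_near (ρ := 4 * (lam * θ / 512)) (by linarith) (near_image (z := y) (z' := z')
        (fun p => by rw [dist_comm]; exact d' p) (A x r))
      have e2 := mul_le_mul_of_nonneg_left k2 l0.le
      have e3 := mul_le_mul_of_nonneg_left (show θ / 8 ≤ L.a x - r by linarith [a1 x]) l0.le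
      nlinarith [Lb x _ (hy x)]⟩
  have := grd n Q (S + c) q3 ⟨z, z', wz, wz', fun f => hzy (f.trans (hδ z' fun x =>
    (d' x).trans (by linarith)))⟩ q1 sn
  linarith [S1 (n + 1)]

lemma shrink (hX : HI X) (hF : Fine X) {U : (X ≃ₜ X) → Prop} (hU : LC U) {B₀ : Blk X}
    (bad : Bad U B₀) {η : ℝ} (η0 : 0 < η) :
    ∃ B : Blk X, B.R ⊆ B₀.R ∧ Bad U B ∧ (∀ x, B.a x ≤ η) ∧ ∀ x, B.b x ≤ η := by
  have one : ∀ {U : (X ≃ₜ X) → Prop}, LC U → ∀ {B₀ : Blk X}, Bad U B₀ →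
      ∃ B : Blk X, B.R ⊆ B₀.R ∧ Bad U B ∧ ∀ x, B.a x ≤ η := fun hU B₀ bad => by
    obtain ⟨β, a, b⟩ := pos_min B₀.ca B₀.apos
    obtain ⟨B, c, d, e⟩ := claimA hX hF hU bad (lt_min η0 a) fun x => (min_le_right _ _).trans (b x)
    exact ⟨B, c, d, fun x => (e x).trans (min_le_left _ _)⟩
  obtain ⟨B, a, ⟨z₁, z₂, b1, b2, b3⟩, c⟩ := one hU bad
  obtain ⟨B', a', ⟨y₁, y₂, d1, d2, d3⟩, c'⟩ := one (U := fun z => U z.symm) (fun y => by
    obtain ⟨δ, e, f⟩ := hU y.symm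
    obtain ⟨ρ, g, h⟩ := unif y.symm.continuous e
    refine ⟨ρ, g, fun z hz => f _ fun w => ?_⟩
    have := h _ _ (hz (z.symm w))
    rwa [z.apply_symm_apply, y.symm_apply_apply, dist_comm] at this)
    (B₀ := B.T) ⟨z₁.symm, z₂.symm, b1.T, b2.T, b3⟩
  have sb : B'.T.R ⊆ B.R := fun p hp => a' hp
  exact ⟨B'.T, sb.trans a, ⟨_, _, d1.T, d2.T, d3⟩, fun x => (Blk.a_le hX sb x).trans (c x), c'⟩

theorem const_of_LC (hX : HI X) (hF : Fine X) {U : (X ≃ₜ X) → Prop} (hU : LC U)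
    (z₁ z₂ : X ≃ₜ X) : U z₁ ↔ U z₂ := by
  by_contra hn
  have m0 := mu_univ_pos (X := X)
  let B₀ : Blk X := ⟨univ, fun _ => mu (univ : Set X), fun _ => mu (univ : Set X), isClosed_univ,
    continuous_const, continuous_const, fun _ => m0, fun _ => m0, fun _ => le_rfl, fun _ => le_rfl,
    fun x => ⟨x, trivial⟩, fun x => ⟨x, trivial⟩, fun x w _ x' => by simp [A_univ x le_rfl],
    fun x w _ x' => by simp [A_univ w le_rfl]⟩
  have st : ∀ (n : ℕ) (B : {B : Blk X // Bad U B}), ∃ B' : {B : Blk X // Bad U B},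
      B'.1.R ⊆ B.1.R ∧ (∀ x, B'.1.a x ≤ 1 / (n + 1 : ℝ)) ∧ ∀ x, B'.1.b x ≤ 1 / (n + 1 : ℝ) :=
    fun n B => by
      obtain ⟨B', a, b, c⟩ := shrink hX hF hU B.2 (show 0 < 1 / (n + 1 : ℝ) by positivity)
      exact ⟨⟨B', b⟩, a, c⟩
  choose f h1 h2 h3 using st
  let u : ℕ → {B : Blk X // Bad U B} := fun n =>
    Nat.rec ⟨B₀, z₁, z₂, fun _ => trivial, fun _ => trivial, hn⟩ f n
  have us : ∀ n, u (n + 1) = f n (u n) := fun _ => rfl
  clear_value u
  have k1 : ∀ ε > 0, ∃ n, ∀ x w w', (x, w) ∈ (u n).1.R → (x, w') ∈ (u n).1.R → dist w w' ≤ ε :=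
    fun ε hε => by
      obtain ⟨ε₁, a, b⟩ := small (X := X) hε
      obtain ⟨n, hn⟩ := exists_nat_one_div_lt a
      refine ⟨n + 1, fun x w w' c d => b _ ?_ _ (mem_A _ _) _ (((u (n + 1)).1.sec2 x w c w').1 d)⟩
      refine ((u (n + 1)).1.T.mu_a hX w).le.trans ?_
      rw [us]; exact (h3 n _ w).trans hn.le
  obtain ⟨y, hy⟩ := homeo_of_nested (fun n => (u n).1.R) (fun n => (u n).1.closed)
    (fun n => by rw [us]; exact h1 n _) (fun n => (u n).1.dom1) (fun n => (u n).1.dom2) k1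
    (fun ε hε => by
      obtain ⟨ε₁, a, b⟩ := small (X := X) hε
      obtain ⟨n, hn⟩ := exists_nat_one_div_lt a
      refine ⟨n + 1, fun x x' w c d => b _ ?_ _ (mem_A _ _) _ (((u (n + 1)).1.sec1 x w c x').1 d)⟩
      refine ((u (n + 1)).1.mu_a hX x).le.trans ?_
      rw [us]; exact (h2 n _ x).trans hn.le)
  obtain ⟨δ, a, b⟩ := hU y
  obtain ⟨n, c⟩ := k1 δ a
  obtain ⟨y₁, y₂, d1, d2, d3⟩ := (u n).2
  exact d3 ((b y₁ fun x => c x _ _ (d1 x) (hy n x)).trans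
    (b y₂ fun x => c x _ _ (d2 x) (hy n x)).symm)

theorem preconnected (hX : HI X) (hF : Fine X) :
    IsPreconnected {f : C(X, X) | Function.Bijective (f : X → X)} := by
  rintro u v hu hv hs ⟨f, hf, hfu⟩ ⟨g, hg, hgv⟩
  by_contra hn
  have mem : ∀ z : X ≃ₜ X, (z : C(X, X)) ∈ {f : C(X, X) | Function.Bijective (f : X → X)} :=
    fun z => z.bijective
  have nb : ∀ z : X ≃ₜ X, (z : C(X, X)) ∈ u → (z : C(X, X)) ∉ v := fun z a b =>
    hn ⟨_, mem z, a, b⟩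
  have op : ∀ {t : Set C(X, X)}, IsOpen t → ∀ y : X ≃ₜ X, (y : C(X, X)) ∈ t →
      ∃ δ > 0, ∀ z : X ≃ₜ X, (∀ x, dist (z x) (y x) ≤ δ) → (z : C(X, X)) ∈ t := fun ht y hy => by
    obtain ⟨δ, a, b⟩ := Metric.isOpen_iff.1 ht _ hy
    exact ⟨δ / 2, half_pos a, fun z hz => b ((ContinuousMap.dist_lt_iff a).2 fun x =>
      (hz x).trans_lt (half_lt_self a))⟩
  have hU : LC fun z : X ≃ₜ X => (z : C(X, X)) ∈ u := fun y => by
    rcases hs (mem y) with a | a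
    · obtain ⟨δ, b, c⟩ := op hu y a
      exact ⟨δ, b, fun z hz => iff_of_true (c z hz) a⟩
    · obtain ⟨δ, b, c⟩ := op hv y a
      exact ⟨δ, b, fun z hz => iff_of_false (fun e => nb z e (c z hz)) fun e => nb y e a⟩
  have ex : ∀ f : C(X, X), Function.Bijective f → ∃ z : X ≃ₜ X, (z : C(X, X)) = f := fun f hf =>
    ⟨Continuous.homeoOfEquivCompactToT2 (f := Equiv.ofBijective f hf) f.continuous, rfl⟩
  obtain ⟨z₁, rfl⟩ := ex f hf
  obtain ⟨z₂, rfl⟩ := ex g hg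
  exact nb z₂ ((const_of_LC hX hF hU z₁ z₂).1 hfu) hgv

end Pool.Agent.MP_1ac210_gt.H95
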