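import Pool.Agent.MP_1ac210_gt.H95.Blk

/-! The step lemma: a homeomorphism that follows a block relation at prescribed sizes. -/

open Set Metric Filter Topology

namespace Pool.Agent.MP_1ac210_gt.H95

set_option linter.unusedSectionVars false

variable {X : Type} [MetricSpace X] [CompactSpace X] [ConnectedSpace X] [Nontrivial X]

/-- A fine walk through a block relation that sweeps each visited block of the first factor. -/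
lemma sweep (hX : HI X) (B : Blk X) {ρ : ℝ} (hρ : 0 < ρ) :
    ∃ (N : ℕ) (y : ℕ → X × X) (lab : ℕ → ℕ) (M : ℕ) (w : ℕ → X), Monotone lab ∧
      (∀ l, y l ∈ B.R ∧ dist (y l) (y (l + 1)) ≤ ρ ∧ lab l ≤ M ∧ (y l).2 = w (lab l)) ∧
      (∀ i, dist (w i) (w (i + 1)) ≤ ρ) ∧
      (∀ p, ∃ l ≤ N, dist p (y l).1 ≤ 2 * ρ) ∧ (∀ p, ∃ l ≤ N, dist p (y l).2 ≤ ρ) ∧
      ∀ v ≤ M, ∃ x, (∃ l ≤ N, lab l = v) ∧ (∀ l, lab l = v → (y l).1 ∈ A x (B.a x)) ∧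
        ∀ p ∈ A x (B.a x), ∃ l ≤ N, lab l = v ∧ dist p (y l).1 ≤ ρ := by
  obtain ⟨ρ₀, h0, hu⟩ := B.unif hX hρ
  obtain ⟨M, w, hw, hd⟩ := dense_walk (isCompact_univ (X := X)) isPreconnected_univ
    (lt_min h0 hρ) (mem_univ (Classical.arbitrary X)) (mem_univ (Classical.arbitrary X))
  choose g hg using B.dom2
  have nx : ∀ i, ∃ q ∈ A (g (w i)) (B.a (g (w i))), dist (g (w (i + 1))) q ≤ ρ := fun i =>
    hu (g (w (i + 1)), w (i + 1)) (hg _) (g (w i), w i) (hg _)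
      (by rw [dist_comm]; exact (hw.2.2.2 i).trans (min_le_left _ _)) _ (mem_A _ _)
  choose e he1 he2 using nx
  have wk : ∀ i, ∃ M c, IsWalk (A (g (w i)) (B.a (g (w i)))) ρ (g (w i)) (e i) M c ∧
      ∀ p ∈ A (g (w i)) (B.a (g (w i))), ∃ n, dist p (c n) ≤ ρ := fun i =>
    dense_walk (cont_A _ _).1.isCompact (cont_A _ _).2.isPreconnected hρ (mem_A _ _) (he1 i)
  choose M' c hc hcd using wk
  obtain ⟨N, C, lab, hm, hs, h1, -, h3⟩ := concat hρ.le hc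
    (fun i => by rw [dist_comm]; exact he2 i) M
  have wd : ∀ i, dist (w i) (w (i + 1)) ≤ ρ := fun i => (hw.2.2.2 i).trans (min_le_right _ _)
  have dn : ∀ p, ∃ i ≤ M, dist p (w i) ≤ min ρ₀ ρ := fun p => by
    obtain ⟨n, hn⟩ := hd p trivial
    rcases le_total n M with a | a
    · exact ⟨n, a, hn⟩
    · exact ⟨M, le_rfl, by rwa [hw.2.1 M le_rfl, ← hw.2.1 n a]⟩
  refine ⟨N, fun l => (C l, w (lab l)), lab, M, w, hm, fun l => ⟨?_, ?_, (h1 l).1, rfl⟩, wd,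
    fun p => ?_, fun p => ?_, fun v hv => ⟨g (w v), ?_, ?_, fun p hp => ?_⟩⟩
  · exact (B.sec1 _ _ (hg _) _).2 (h1 l).2.1
  · rw [Prod.dist_eq]
    refine max_le (h1 l).2.2 ?_
    have a := hm (Nat.le_succ l)
    have b := hs l
    rcases (show lab (l + 1) = lab l ∨ lab (l + 1) = lab l + 1 by
      simp only [Nat.succ_eq_add_one] at a; omega) with e | e
    · simp [e, hρ.le]
    · simp only [e]; exact wd _
  · obtain ⟨q, hq⟩ := B.dom1 p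
    obtain ⟨i, hi, a⟩ := dn q
    obtain ⟨p', b, d⟩ := hu (p, q) hq (g (w i), w i) (hg _) (a.trans (min_le_left _ _)) p
      (mem_A _ _)
    obtain ⟨t, ht⟩ := hcd i p' b
    obtain ⟨l, hl, -, f⟩ := h3 i hi t
    refine ⟨l, hl, ?_⟩
    show dist p (C l) ≤ 2 * ρ
    rw [f]; linarith [dist_triangle p p' (c i t)]
  · obtain ⟨i, hi, a⟩ := dn p
    obtain ⟨l, hl, f, -⟩ := h3 i hi 0
    refine ⟨l, hl, ?_⟩
    show dist p (w (lab l)) ≤ ρ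
    rw [f]; exact a.trans (min_le_right _ _)
  · obtain ⟨l, hl, f, -⟩ := h3 v hv 0
    exact ⟨l, hl, f⟩
  · rintro l rfl
    exact (h1 l).2.1
  · obtain ⟨t, ht⟩ := hcd v p hp
    obtain ⟨l, hl, f, f'⟩ := h3 v hv t
    exact ⟨l, hl, f, by simpa only [f'] using ht⟩

/-- A fine walk through a chain of pairs of continua along which two functions almost agree. -/
lemma weave (hX : HI X) {K K' : ℕ → Set X} (hK : ∀ l, Cont (K l)) (hK' : ∀ l, Cont (K' l))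
    {φ ψ : X → ℝ} (hφ : Continuous φ) (hψ : Continuous ψ) {γ : ℝ} (hγ : 0 < γ)
    (r1 : ∀ l, ∀ p ∈ K l, ∃ q ∈ K' l, |φ p - ψ q| ≤ γ)
    (r2 : ∀ l, ∀ q ∈ K' l, ∃ p ∈ K l, |φ p - ψ q| ≤ γ) {ρ : ℝ} (hρ : 0 < ρ)
    (mφ : ∀ p q, dist p q ≤ ρ → |φ p - φ q| ≤ γ / 2)
    (mψ : ∀ p q, dist p q ≤ ρ → |ψ p - ψ q| ≤ γ / 2)
    (n1 : ∀ l, Near (K l) (K (l + 1)) ρ ∧ Near (K (l + 1)) (K l) ρ)
    (n2 : ∀ l, Near (K' l) (K' (l + 1)) ρ ∧ Near (K' (l + 1)) (K' l) ρ) (n : ℕ) :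
    ∃ (N : ℕ) (c : ℕ → X × X) (lab : ℕ → ℕ), Monotone lab ∧
      (∀ j, lab j ≤ n ∧ (c j).1 ∈ K (lab j) ∧ (c j).2 ∈ K' (lab j) ∧
        |φ (c j).1 - ψ (c j).2| ≤ 9 * γ ∧ dist (c j) (c (j + 1)) ≤ ρ) ∧
      ∀ l ≤ n, (∀ p ∈ K l, ∃ j ≤ N, lab j = l ∧ dist p (c j).1 ≤ ρ) ∧
        ∀ q ∈ K' l, ∃ j ≤ N, lab j = l ∧ dist q (c j).2 ≤ ρ := by
  have ends : ∀ {K : ℕ → Set X}, (∀ l, Cont (K l)) → ∀ {φ : X → ℝ}, Continuous φ →
      (∀ p q, dist p q ≤ ρ → |φ p - φ q| ≤ γ / 2) →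
      (∀ l, Near (K l) (K (l + 1)) ρ ∧ Near (K (l + 1)) (K l) ρ) →
      ∃ s e : ℕ → X, ∀ l, s l ∈ K l ∧ e l ∈ K l ∧ (∀ p ∈ K l, φ (s l) ≤ φ p + γ) ∧
        (∀ p ∈ K l, φ (e l) ≤ φ p + γ) ∧ dist (e l) (s (l + 1)) ≤ ρ := by
    intro K hK φ hφ mφ n1
    choose s hs1 hs2 using fun l =>
      (hK l).1.isCompact.exists_isMinOn (hK l).2.nonempty hφ.continuousOn
    choose e he1 he2 using fun l => (n1 l).2 (s (l + 1)) (hs1 _)
    refine ⟨s, e, fun l => ⟨hs1 l, he1 l, fun p hp => ?_, fun p hp => ?_,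
      by rw [dist_comm]; exact he2 l⟩⟩
    · have : φ (s l) ≤ φ p := hs2 l hp
      linarith
    · obtain ⟨q, a, b⟩ := (n1 l).1 p hp
      have : φ (s (l + 1)) ≤ φ q := hs2 _ a
      linarith [(abs_le.1 (mφ _ _ b)).1, (abs_le.1 (mφ _ _ (he2 l))).1]
  obtain ⟨s, e, h⟩ := ends hK hφ mφ n1
  obtain ⟨s', e', h'⟩ := ends hK' hψ mψ n2
  choose M c hc d1 d2 using fun l => seg2 hX (hK l).1.isCompact (hK l).2.isPreconnected
    (hK' l).1.isCompact (hK' l).2.isPreconnected hφ hψ hγ (r1 l) (r2 l)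
    (s := (s l, s' l)) (e := (e l, e' l)) (h l).1 (h' l).1 (h l).2.1 (h' l).2.1
    (h l).2.2.1 (h' l).2.2.1 (h l).2.2.2.1 (h' l).2.2.2.1 hρ
  obtain ⟨N, C, lab, hm, -, h1, -, h3⟩ := concat hρ.le hc
    (fun i => by rw [Prod.dist_eq]; exact max_le (h i).2.2.2.2 (h' i).2.2.2.2) n
  refine ⟨N, C, lab, hm, fun j => ⟨(h1 j).1, (h1 j).2.1.1, (h1 j).2.1.2.1, (h1 j).2.1.2.2,
    (h1 j).2.2⟩, fun l hl => ⟨fun p hp => ?_, fun q hq => ?_⟩⟩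
  · obtain ⟨t, ht⟩ := d1 l p hp
    obtain ⟨j, a, b, f⟩ := h3 l hl t
    exact ⟨j, a, b, by rwa [f]⟩
  · obtain ⟨t, ht⟩ := d2 l q hq
    obtain ⟨j, a, b, f⟩ := h3 l hl t
    exact ⟨j, a, b, by rwa [f]⟩

lemma Cont.preimage {K : Set X} (h : Cont K) (z : X ≃ₜ X) : Cont (z ⁻¹' K) := by
  rw [← z.image_symm]; exact h.image z.symm

theorem step (hX : HI X) (hF : Fine X) (B : Blk X) {l k : X → ℝ} (hl : Continuous l)
    (hk : Continuous k) (l0 : ∀ x, 0 ≤ l x ∧ l x ≤ B.a x) (k0 : ∀ w, 0 ≤ k w ∧ k w ≤ B.b w)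
    (lc : ∀ x, ∀ x' ∈ A x (B.a x), l x' = l x) (kc : ∀ w, ∀ w' ∈ A w (B.b w), k w' = k w)
    {φ ψ : X → ℝ} (hφ : Continuous φ) (hψ : Continuous ψ) {γ : ℝ} (hγ : 0 < γ)
    (r1 : ∀ z ∈ B.R, ∀ p ∈ A z.1 (l z.1), ∃ q ∈ A z.2 (k z.2), |φ p - ψ q| ≤ γ)
    (r2 : ∀ z ∈ B.R, ∀ q ∈ A z.2 (k z.2), ∃ p ∈ A z.1 (l z.1), |φ p - ψ q| ≤ γ)
    {τ : ℝ} (hτ : 0 < τ) :
    ∃ h : X ≃ₜ X, (∀ x, |φ x - ψ (h x)| ≤ 11 * γ) ∧
      (∀ K x, Cont K → x ∈ K → mu (h '' K) ≤ k (h x) - τ → mu K ≤ l x + τ) ∧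
      ∀ x w K, (x, w) ∈ B.R → Cont K → w ∈ K → K ⊆ A w (B.b w) → k w + τ ≤ mu K →
        Near (h ⁻¹' K) (A x (B.a x)) τ ∧ Near (A x (B.a x)) (h ⁻¹' K) τ := by
  obtain ⟨ξ₁, p1, m1⟩ := unifR hl (show 0 < τ / 4 by linarith)
  obtain ⟨ξ₂, p2, m2⟩ := unifR hk (show 0 < τ / 4 by linarith)
  obtain ⟨ξ₃, p3, m3⟩ := unifR hφ (half_pos hγ)
  obtain ⟨ξ₄, p4, m4⟩ := unifR hψ (half_pos hγ)
  obtain ⟨ξ₅, p5, m5⟩ := B.unif hX (half_pos hτ)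
  obtain ⟨ξ, ξ0, x1, x2, x3, x4, x5, x6⟩ : ∃ ξ > 0, 2 * ξ ≤ ξ₁ ∧ 2 * ξ ≤ ξ₂ ∧ ξ ≤ ξ₃ ∧ ξ ≤ ξ₄ ∧
      ξ ≤ ξ₅ ∧ 32 * ξ ≤ τ :=
    ⟨min (min (ξ₁ / 2) (ξ₂ / 2)) (min (min ξ₃ ξ₄) (min ξ₅ (τ / 32))), by positivity,
      by simp only [min_def]; split_ifs <;> refine ⟨?_, ?_, ?_, ?_, ?_, ?_⟩ <;> linarith⟩
  obtain ⟨ξ', q0, hE⟩ := engine hX hF ξ0
  obtain ⟨ρ₂, r0, y1, y2⟩ : ∃ ρ > 0, ρ ≤ ξ ∧ 3 * ρ ≤ ξ' :=
    ⟨min ξ (ξ' / 3), by positivity, min_le_left _ _, by linarith [min_le_right ξ (ξ' / 3)]⟩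
  obtain ⟨ρa, pa, ma⟩ := A_fun hX hl r0
  obtain ⟨ρb, pb, mb⟩ := A_fun hX hk r0
  obtain ⟨ρ₁, s0, z1, z2, z3⟩ : ∃ ρ > 0, ρ ≤ ρ₂ ∧ ρ ≤ ρa ∧ ρ ≤ ρb :=
    ⟨min ρ₂ (min ρa ρb), by positivity, min_le_left _ _,
      (min_le_right _ _).trans (min_le_left _ _), (min_le_right _ _).trans (min_le_right _ _)⟩
  obtain ⟨N₁, y, lab₁, M, w₀, hm₁, hy, hw₀, d1, d2, hsw⟩ := sweep hX B s0
  have dy : ∀ i, dist (y i).1 (y (i + 1)).1 ≤ ρ₁ ∧ dist (y i).2 (y (i + 1)).2 ≤ ρ₁ := fun i =>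
    ⟨(le_max_left _ _).trans (hy i).2.1, (le_max_right _ _).trans (hy i).2.1⟩
  have nK : ∀ i, Near (A (y i).1 (l (y i).1)) (A (y (i + 1)).1 (l (y (i + 1)).1)) ρ₂ ∧
      Near (A (y (i + 1)).1 (l (y (i + 1)).1)) (A (y i).1 (l (y i).1)) ρ₂ := fun i =>
    ⟨ma _ _ ((dy i).1.trans z2), ma _ _ (by rw [dist_comm]; exact (dy i).1.trans z2)⟩
  obtain ⟨N, c, lab₂, hm₂, hc, hcd⟩ := weave hX (K := fun i => A (y i).1 (l (y i).1))
    (K' := fun i => A (y i).2 (k (y i).2)) (fun _ => cont_A _ _) (fun _ => cont_A _ _) hφ hψ hγ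
    (fun i => r1 _ (hy i).1) (fun i => r2 _ (hy i).1) r0
    (fun p q h => m3 p q (by linarith)) (fun p q h => m4 p q (by linarith)) nK
    (fun i => ⟨mb _ _ ((dy i).2.trans z3), mb _ _ (by rw [dist_comm]; exact (dy i).2.trans z3)⟩)
    N₁
  obtain ⟨h, F, hFc, hF0, hh⟩ := hE N c (fun n _ => (hc n).2.2.2.2.trans (by linarith))
    (fun p => by
      obtain ⟨i, hi, a⟩ := d1 p
      obtain ⟨j, hj, -, b⟩ := (hcd i hi).1 _ (mem_A _ _)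
      exact ⟨j, hj, by linarith [dist_triangle p (y i).1 (c j).1]⟩)
    (fun p => by
      obtain ⟨i, hi, a⟩ := d2 p
      obtain ⟨j, hj, -, b⟩ := (hcd i hi).2 _ (mem_A _ _)
      exact ⟨j, hj, by linarith [dist_triangle p (y i).2 (c j).2]⟩)
  have fl : ∀ p, dist p (c ⌊F p⌋₊).1 ≤ ξ ∧ dist (h p) (c ⌊F p⌋₊).2 ≤ ξ := fun p =>
    hh p _ (floor_close (hF0 p).1 (hF0 p).2).1 (floor_close (hF0 p).1 (hF0 p).2).2
  have ex : ∀ p j, j ≤ N → F p = j → dist p (c j).1 ≤ ξ ∧ dist (h p) (c j).2 ≤ ξ :=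
    fun p j hj e => hh p j hj (by simp [e])
  have c1 : ∀ j, (c j).1 ∈ A (y (lab₂ j)).1 (B.a (y (lab₂ j)).1) := fun j =>
    A_mono _ (l0 _).2 (hc j).2.1
  have c2 : ∀ j, (c j).2 ∈ A (y (lab₂ j)).2 (B.b (y (lab₂ j)).2) := fun j =>
    A_mono _ (k0 _).2 (hc j).2.2.1
  have cR : ∀ j, c j ∈ B.R := fun j => B.mem_of (hy (lab₂ j)).1 (c1 j) (c2 j)
  have mul : ∀ x, mu (A x (l x)) = l x := fun x => mu_A hX x (l0 x).1 ((l0 x).2.trans (B.ale x))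
  have muk : ∀ x, mu (A x (k x)) = k x := fun x => mu_A hX x (k0 x).1 ((k0 x).2.trans (B.ble x))
  refine ⟨h, fun x => ?_, fun K x hK hx hmu => ?_, fun x w K hxw hK hw hsub hmu => ⟨?_, ?_⟩⟩
  · have a := abs_le.1 (m3 _ _ ((fl x).1.trans x3))
    have b := abs_le.1 (m4 _ _ ((fl x).2.trans x4))
    have d := abs_le.1 (hc ⌊F x⌋₊).2.2.2.1
    rw [abs_le]; constructor <;> linarith [a.1, a.2, b.1, b.2, d.1, d.2]
  · rcases dichotomy hK.1.isCompact hK.2 hFc (fun p => (hF0 p).1) hm₂ with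
      ⟨v, j₀, hv, hj⟩ | ⟨v, hv⟩
    · exfalso
      have hvN : v ≤ N₁ := hv.trans (hc j₀).1
      have nr : Near (A (y v).2 (k (y v).2)) (h '' K) (ρ₂ + ξ) := fun q hq => by
        obtain ⟨j, a, b, d⟩ := (hcd v hvN).2 q hq
        obtain ⟨p, hp, e⟩ := hj j b
        exact ⟨h p, mem_image_of_mem _ hp, by
          linarith [dist_triangle_right q (h p) (c j).2, (ex p j a e).2]⟩
      have e1 := mu_near (by linarith) nr
      rw [muk] at e1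
      obtain ⟨q, hq, d⟩ := nr _ (mem_A _ _)
      have e2 : k q = k (h x) := kc _ _ (subset_A (hK.image h) (mem_image_of_mem _ hx)
        (by linarith [(k0 (h x)).2]) hq)
      linarith [(abs_le.1 (m2 _ _ (d.trans (by linarith)))).1]
    · have nr : Near K (A (y v).1 (l (y v).1)) (ξ + ρ₂) := fun p hp => by
        have a := (hc ⌊F p⌋₊).2.1
        rcases hv p hp with e | e
        · rw [e] at a
          exact ⟨_, a, by linarith [(fl p).1]⟩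
        · rw [e] at a
          obtain ⟨q, b, d⟩ := (nK v).2 _ a
          exact ⟨q, b, by linarith [(fl p).1, dist_triangle p (c ⌊F p⌋₊).1 q]⟩
      have e1 := mu_near (by linarith) nr
      rw [mul] at e1
      obtain ⟨q, hq, d⟩ := nr x hx
      have e2 : l q = l (y v).1 := lc _ _ (A_mono _ (l0 _).2 hq)
      linarith [(abs_le.1 (m1 _ _ (d.trans (by linarith)))).1]
  · intro p hp
    obtain ⟨q, a, b⟩ := m5 (c ⌊F p⌋₊) (cR _) (x, h p) ((B.sec2 x w hxw _).2 (hsub hp))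
      (by rw [dist_comm]; exact (fl p).2.trans x5) _ (mem_A _ _)
    exact ⟨q, a, by linarith [(fl p).1, dist_triangle p (c ⌊F p⌋₊).1 q]⟩
  · rcases dichotomy (hK.preimage h).1.isCompact (hK.preimage h).2 hFc (fun p => (hF0 p).1)
      (hm₁.comp hm₂) with ⟨v, j₀, hv, hj⟩ | ⟨v, hv⟩
    · have hvM : v ≤ M := hv.trans (hy _).2.2.1
      obtain ⟨x₀, ⟨i₀, hi₀, e₀⟩, hin, hden⟩ := hsw v hvM
      have nr : Near (A x₀ (B.a x₀)) (h ⁻¹' K) (ρ₁ + ρ₂ + ξ) := fun q hq => by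
        obtain ⟨i, hi, a, b⟩ := hden q hq
        obtain ⟨j, hj', d, e⟩ := (hcd i hi).1 _ (mem_A _ _)
        obtain ⟨p, hp, f⟩ := hj j (by simp only [Function.comp, d, a])
        exact ⟨p, hp, by linarith [dist_triangle q (y i).1 p, (ex p j hj' f).1,
          dist_triangle_right (y i).1 p (c j).1]⟩
      obtain ⟨j, hj', d, -⟩ := (hcd i₀ hi₀).1 _ (mem_A _ _)
      obtain ⟨p, hp, f⟩ := hj j (by simp only [Function.comp, d, e₀])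
      have n2 := m5 (x, h p) ((B.sec2 x w hxw _).2 (hsub hp)) (c j) (cR j)
        ((ex p j hj' f).2.trans x5)
      rw [B.Ab_eq (c1 j), d, B.Ab_eq (hin i₀ e₀)] at n2
      exact (n2.trans nr).mono (by linarith)
    · exfalso
      have nr : Near K (A (w₀ v) (k (w₀ v))) (ξ + ρ₂) := fun q hq => by
        obtain ⟨p, rfl⟩ := h.surjective q
        have a := (hc ⌊F p⌋₊).2.2.1
        rw [(hy _).2.2.2] at a
        rcases hv p hq with e | e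
        · simp only [Function.comp] at e
          rw [e] at a
          exact ⟨_, a, by linarith [(fl p).2]⟩
        · simp only [Function.comp] at e
          rw [e] at a
          obtain ⟨q, b, d⟩ := mb _ (w₀ v) (by rw [dist_comm]; exact (hw₀ v).trans z3) _ a
          exact ⟨q, b, by linarith [(fl p).2, dist_triangle (h p) (c ⌊F p⌋₊).2 q]⟩
      have e1 := mu_near (by linarith) nr
      rw [muk] at e1
      obtain ⟨q, hq, d⟩ := nr w hw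
      have e2 : k q = k (w₀ v) := kc _ _ (A_mono _ (k0 _).2 hq)
      linarith [(abs_le.1 (m2 _ _ (d.trans (by linarith)))).1]

end Pool.Agent.MP_1ac210_gt.H95
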