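import Pool.Agent.MP_1ac210_gt.H95.Engine

/-! Fine walks, their concatenation, and joint walks in a product of two continua. -/

open Set Metric Filter Topology

namespace Pool.Agent.MP_1ac210_gt.H95

set_option linter.unusedSectionVars false

section
variable {Y : Type} [PseudoMetricSpace Y]

/-- A `ρ`-fine walk in `S` from `p` to `q`, constant from time `M` on. -/
def IsWalk (S : Set Y) (ρ : ℝ) (p q : Y) (M : ℕ) (c : ℕ → Y) : Prop :=
  c 0 = p ∧ (∀ j, M ≤ j → c j = q) ∧ (∀ j, c j ∈ S) ∧ ∀ j, dist (c j) (c (j + 1)) ≤ ρ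

lemma IsWalk.trans {S : Set Y} {ρ : ℝ} {p q r : Y} {M M' : ℕ} {c c' : ℕ → Y}
    (h : IsWalk S ρ p q M c) (h' : IsWalk S ρ q r M' c') :
    ∃ N C, IsWalk S ρ p r N C ∧ (∀ j, ∃ n, C n = c j) ∧ ∀ j, ∃ n, C n = c' j := by
  refine ⟨M + M', fun n => if n ≤ M then c n else c' (n - M), ⟨by simp [h.1], fun j hj => ?_,
    fun j => ?_, fun j => ?_⟩, fun j => ?_, fun j => ?_⟩
  · by_cases a : j ≤ M
    · have hM' : M' = 0 := by omega
      simp only [a, if_true]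
      rw [h.2.1 j (by omega), ← h'.1, h'.2.1 0 (by omega)]
    · simp only [a, if_false]; exact h'.2.1 _ (by omega)
  · by_cases a : j ≤ M
    · simp only [a, if_true]; exact h.2.2.1 j
    · simp only [a, if_false]; exact h'.2.2.1 _
  · by_cases a : j + 1 ≤ M
    · simp only [a, show j ≤ M by omega, if_true]; exact h.2.2.2 j
    · by_cases b : j ≤ M
      · obtain rfl : j = M := by omega
        simp only [a, le_refl, if_true, if_false]
        rw [h.2.1 j le_rfl, ← h'.1, show j + 1 - j = 0 + 1 by omega]; exact h'.2.2.2 0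
      · simp only [a, b, if_false]
        rw [show j + 1 - M = j - M + 1 by omega]; exact h'.2.2.2 _
  · by_cases a : j ≤ M
    · exact ⟨j, by simp [a]⟩
    · exact ⟨M, by simp only [le_refl, if_true]; rw [h.2.1 M le_rfl, h.2.1 j (by omega)]⟩
  · rcases Nat.eq_zero_or_pos j with rfl | a
    · exact ⟨M, by simp only [le_refl, if_true]; rw [h.2.1 M le_rfl, h'.1]⟩
    · exact ⟨M + j, by simp [show ¬ (M + j ≤ M) by omega]⟩

lemma walk_step {S : Set Y} {ρ : ℝ} (hρ : 0 ≤ ρ) {p q : Y} (hp : p ∈ S) (hq : q ∈ S)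
    (h : dist p q ≤ ρ) : ∃ M c, IsWalk S ρ p q M c := by
  refine ⟨1, fun n => if n = 0 then p else q, by simp, fun j hj => by simp [show j ≠ 0 by omega],
    fun j => by by_cases a : j = 0 <;> simp [a, hp, hq], fun j => ?_⟩
  by_cases a : j = 0 <;> simp [a, h, hρ]

lemma dense_walk {K : Set Y} (hK : IsCompact K) (hc : IsPreconnected K) {ρ : ℝ} (hρ : 0 < ρ)
    {p q : Y} (hp : p ∈ K) (hq : q ∈ K) :
    ∃ M c, IsWalk K ρ p q M c ∧ ∀ y ∈ K, ∃ n, dist y (c n) ≤ ρ := by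
  have reach : ∀ a ∈ K, ∀ b ∈ K, ∃ M c, IsWalk K ρ a b M c := by
    intro a ha b hb
    refine hc.induction₂' (fun a b => ∃ M c, IsWalk K ρ a b M c) (fun x hx => ?_) ?_ ha hb
    · filter_upwards [mem_nhdsWithin_of_mem_nhds (closedBall_mem_nhds x hρ), self_mem_nhdsWithin]
        with y hy hyK
      exact ⟨walk_step hρ.le hx hyK (mem_closedBall'.1 hy), walk_step hρ.le hyK hx hy⟩
    · rintro x y z - - - ⟨M, c, h⟩ ⟨M', c', h'⟩
      obtain ⟨N, C, hC, -⟩ := h.trans h'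
      exact ⟨N, C, hC⟩
  have fin : ∀ T : Finset Y, (∀ t ∈ T, t ∈ K) → ∀ b ∈ K,
      ∃ M c, IsWalk K ρ p b M c ∧ ∀ t ∈ T, ∃ n, c n = t := by
    classical
    intro T
    induction T using Finset.induction_on with
    | empty => intro _ b hb; obtain ⟨M, c, h⟩ := reach p hp b hb; exact ⟨M, c, h, by simp⟩
    | insert t T _ ih =>
      intro hT b hb
      have ht := hT t (Finset.mem_insert_self _ _)
      obtain ⟨M, c, h, h1⟩ := ih (fun s hs => hT s (Finset.mem_insert_of_mem hs)) t ht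
      obtain ⟨M', c', h'⟩ := reach t ht b hb
      obtain ⟨N, C, hC, a1, a2⟩ := h.trans h'
      refine ⟨N, C, hC, fun s hs => ?_⟩
      rcases Finset.mem_insert.1 hs with rfl | hs
      · obtain ⟨n, hn⟩ := a2 0; exact ⟨n, hn.trans h'.1⟩
      · obtain ⟨j, hj⟩ := h1 s hs
        obtain ⟨n, hn⟩ := a1 j; exact ⟨n, hn.trans hj⟩
  obtain ⟨T, hT, hfin, hcov⟩ := finite_cover_balls_of_compact hK hρ
  obtain ⟨M, c, h, h1⟩ := fin hfin.toFinset (fun t ht => hT (by simpa using ht)) q hq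
  refine ⟨M, c, h, fun y hy => ?_⟩
  obtain ⟨t, ht, hyt⟩ := mem_iUnion₂.1 (hcov hy)
  obtain ⟨n, hn⟩ := h1 t (by simpa using ht)
  exact ⟨n, by rw [hn]; exact (mem_ball.1 hyt).le⟩

lemma concat {S : ℕ → Set Y} {ρ : ℝ} (hρ : 0 ≤ ρ) {p q : ℕ → Y} {M : ℕ → ℕ} {c : ℕ → ℕ → Y}
    (h : ∀ i, IsWalk (S i) ρ (p i) (q i) (M i) (c i)) (hl : ∀ i, dist (q i) (p (i + 1)) ≤ ρ)
    (n : ℕ) : ∃ (N : ℕ) (C : ℕ → Y) (lab : ℕ → ℕ), Monotone lab ∧ (∀ j, lab (j + 1) ≤ lab j + 1) ∧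
      (∀ j, lab j ≤ n ∧ C j ∈ S (lab j) ∧ dist (C j) (C (j + 1)) ≤ ρ) ∧
      (∀ j, N ≤ j → lab j = n) ∧
      ∀ i ≤ n, ∀ t, ∃ j ≤ N, lab j = i ∧ C j = c i t := by
  set L := (Finset.range (n + 1)).sup M + 1 with hL
  have hML : ∀ i ≤ n, M i < L := fun i hi =>
    Nat.lt_succ_of_le (Finset.le_sup (f := M) (Finset.mem_range.2 (by omega)))
  have L0 : 0 < L := by omega
  clear_value L
  have hdm : ∀ j, ((j + 1) / L = j / L ∧ (j + 1) % L = j % L + 1) ∨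
      ((j + 1) / L = j / L + 1 ∧ (j + 1) % L = 0 ∧ j % L + 1 = L) := by
    intro j
    have a := Nat.div_add_mod j L
    have b := Nat.mod_lt j L0
    by_cases e : j % L + 1 < L
    · left
      exact (Nat.div_mod_unique L0).2 ⟨by omega, e⟩
    · right
      have := (Nat.div_mod_unique (a := j + 1) (d := j / L + 1) (c := 0) L0).2
        ⟨by rw [mul_add]; omega, L0⟩
      exact ⟨this.1, this.2, by omega⟩
  refine ⟨(n + 1) * L, fun j => if j / L ≤ n then c (j / L) (j % L) else q n,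
    fun j => min (j / L) n, fun a b hab => min_le_min_right _ (Nat.div_le_div_right hab),
    fun j => ?_, fun j => ⟨min_le_right _ _, ?_, ?_⟩, fun j hj => ?_, fun i hi t => ?_⟩
  · rcases hdm j with a | a <;> simp only [a.1] <;> omega
  · by_cases a : j / L ≤ n
    · simp only [a, if_true, min_eq_left a]; exact (h _).2.2.1 _
    · simp only [a, if_false, min_eq_right (not_le.1 a).le]
      rw [← (h n).2.1 _ le_rfl]; exact (h _).2.2.1 _
  · rcases hdm j with a | a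
    · simp only [a.1, a.2]
      split_ifs
      · exact (h _).2.2.2 _
      · simpa using hρ
    · simp only [a.1, a.2.1]
      by_cases b : j / L + 1 ≤ n
      · simp only [b, show j / L ≤ n by omega, if_true]
        rw [(h _).2.1 _ (by have := hML (j / L) (by omega); omega), (h _).1]; exact hl _
      · by_cases b' : j / L ≤ n
        · have e : j / L = n := by omega
          simp only [b, b', if_true, if_false]
          rw [e, (h _).2.1 _ (by have := hML n le_rfl; omega)]; simpa using hρ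
        · simp only [b, b', if_false]; simpa using hρ
  · have : n + 1 ≤ j / L := (Nat.le_div_iff_mul_le L0).2 hj
    exact min_eq_right (by omega)
  · have hm : min t (L - 1) < L := by omega
    have := (Nat.div_mod_unique (a := min t (L - 1) + L * i) (d := i) (c := min t (L - 1)) L0).2
      ⟨rfl, hm⟩
    refine ⟨min t (L - 1) + L * i, ?_, by simp only [this.1]; omega, ?_⟩
    · have : L * i ≤ L * n := Nat.mul_le_mul_left _ hi
      nlinarith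
    · simp only [this.1, this.2, hi, if_true]
      rcases le_total t (L - 1) with a | a
      · rw [min_eq_left a]
      · have := hML i hi
        rw [min_eq_right a, (h i).2.1 _ (by omega), (h i).2.1 t (by omega)]

lemma dichotomy {K : Set Y} (hK : IsCompact K) (hc : IsConnected K) {F : Y → ℝ} (hF : Continuous F)
    (h0 : ∀ p, 0 ≤ F p) {lab : ℕ → ℕ} (hm : Monotone lab) :
    (∃ v j₀, v ≤ lab j₀ ∧ ∀ j, lab j = v → ∃ p ∈ K, F p = j) ∨
      ∃ v, ∀ p ∈ K, lab ⌊F p⌋₊ = v ∨ lab ⌊F p⌋₊ = v + 1 := by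
  obtain ⟨a, ha, hmin⟩ := hK.exists_isMinOn hc.nonempty hF.continuousOn
  obtain ⟨b, hb, hmax⟩ := hK.exists_isMaxOn hc.nonempty hF.continuousOn
  by_cases e : lab ⌊F b⌋₊ ≤ lab ⌊F a⌋₊ + 1
  · refine Or.inr ⟨lab ⌊F a⌋₊, fun p hp => ?_⟩
    have a1 := hm (Nat.floor_mono (show F a ≤ F p from hmin hp))
    have a2 := hm (Nat.floor_mono (show F p ≤ F b from hmax hp))
    omega
  · refine Or.inl ⟨lab ⌊F a⌋₊ + 1, ⌊F b⌋₊, by omega, fun j hj => ?_⟩
    have a1 : ⌊F a⌋₊ < j := hm.reflect_lt (by omega)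
    have a2 : j < ⌊F b⌋₊ := hm.reflect_lt (by omega)
    refine hc.isPreconnected.intermediate_value ha hb hF.continuousOn ⟨?_, ?_⟩
    · have : ((⌊F a⌋₊ + 1 : ℕ) : ℝ) ≤ j := by exact_mod_cast a1
      push_cast at this
      linarith [Nat.lt_floor_add_one (F a)]
    · exact (Nat.cast_le.2 a2.le).trans (Nat.floor_le (h0 b))

end

lemma nat_ivt {u : ℕ → ℕ} (h0 : u 0 = 0) (hs : ∀ j, u (j + 1) ≤ u j + 1) (J n : ℕ) (hn : n ≤ u J) :
    ∃ j, u j = n := by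
  induction J with
  | zero => exact ⟨0, by omega⟩
  | succ J ih =>
    by_cases a : n ≤ u J
    · exact ih a
    · exact ⟨J + 1, by have := hs J; omega⟩

variable {X : Type} [MetricSpace X] [CompactSpace X]

lemma seg (hX : HI X) {K K' : Set X} (hK : IsCompact K) (hc : IsPreconnected K)
    (hK' : IsCompact K') (hc' : IsPreconnected K') {φ ψ : X → ℝ} (hφ : Continuous φ)
    (hψ : Continuous ψ) {γ : ℝ} (hγ : 0 < γ) (r1 : ∀ p ∈ K, ∃ q ∈ K', |φ p - ψ q| ≤ γ)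
    (r2 : ∀ q ∈ K', ∃ p ∈ K, |φ p - ψ q| ≤ γ) {s e : X × X} (s1 : s.1 ∈ K) (s2 : s.2 ∈ K')
    (e1 : e.1 ∈ K) (e2 : e.2 ∈ K') (ms1 : ∀ p ∈ K, φ s.1 ≤ φ p + γ) (ms2 : ∀ q ∈ K', ψ s.2 ≤ ψ q + γ)
    (me1 : ∀ p ∈ K, φ p ≤ φ e.1 + γ) (me2 : ∀ q ∈ K', ψ q ≤ ψ e.2 + γ) {ρ : ℝ} (hρ : 0 < ρ) :
    ∃ M c, IsWalk {z : X × X | z.1 ∈ K ∧ z.2 ∈ K' ∧ |φ z.1 - ψ z.2| ≤ 9 * γ} ρ s e M c ∧
      (∀ p ∈ K, ∃ n, dist p (c n).1 ≤ ρ) ∧ ∀ q ∈ K', ∃ n, dist q (c n).2 ≤ ρ := by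
  have φr : ∀ p ∈ K, ψ s.2 - 2 * γ ≤ φ p ∧ φ p ≤ ψ e.2 + 2 * γ := fun p hp => by
    obtain ⟨q, hq, h⟩ := r1 p hp
    have := abs_le.1 h
    constructor <;> linarith [this.1, this.2, ms2 q hq, me2 q hq]
  by_cases hd : ψ e.2 - 2 * γ ≤ ψ s.2 + 2 * γ
  · obtain ⟨M, c, h, h1⟩ := dense_walk (hK.prod hK') (hc.prod hc') hρ (p := s) (q := e) ⟨s1, s2⟩
      ⟨e1, e2⟩
    refine ⟨M, c, ⟨h.1, h.2.1, fun j => ⟨(h.2.2.1 j).1, (h.2.2.1 j).2, ?_⟩, h.2.2.2⟩,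
      fun p hp => ?_, fun q hq => ?_⟩
    · have a := φr _ (h.2.2.1 j).1
      have b := ms2 _ (h.2.2.1 j).2
      have c := me2 _ (h.2.2.1 j).2
      rw [abs_le]; constructor <;> linarith [a.1, a.2]
    · obtain ⟨n, hn⟩ := h1 (p, s.2) ⟨hp, s2⟩
      exact ⟨n, (le_max_left _ _).trans hn⟩
    · obtain ⟨n, hn⟩ := h1 (s.1, q) ⟨s1, hq⟩
      exact ⟨n, (le_max_right _ _).trans hn⟩
  push Not at hd
  set lo := ψ s.2 + 2 * γ with hlo
  set hi := ψ e.2 - 2 * γ with hhi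
  clear_value lo hi
  obtain ⟨ρ₁, hρ₁, hu₁⟩ := unifR hψ hγ
  obtain ⟨M₀, w, hw, hwd⟩ := dense_walk hK' hc' (lt_min hρ hρ₁) s2 e2
  set M := M₀ + 1 with hM
  have wM : w M = e.2 := hw.2.1 _ (by omega)
  have a1 : clamp lo hi (ψ (w 0)) = lo := by rw [hw.1]; exact clamp_lo (by linarith)
  have a2 : clamp lo hi (ψ (w M)) = hi := by rw [wM]; exact clamp_hi hd.le (by linarith)
  have b1 : clamp lo hi (φ s.1) = lo := by
    obtain ⟨p, hp, h⟩ := r2 _ s2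
    exact clamp_lo (by linarith [ms1 p hp, (abs_le.1 h).2])
  have b2 : clamp lo hi (φ e.1) = hi := by
    obtain ⟨p, hp, h⟩ := r2 _ e2
    exact clamp_hi hd.le (by linarith [me1 p hp, (abs_le.1 h).1])
  obtain ⟨G, hG, G0, GM, hGx⟩ := lift_marked hX (continuous_clamp hφ lo hi)
    (fun n => clamp lo hi (ψ (w n))) (M := M) (by omega)
    (fun k _ => by simp only [a1, a2]; exact clamp_mem hd.le _)
    (fun x => by simp only [a1, a2]; exact clamp_mem hd.le _) (xs := s.1) (xe := e.1)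
    (fun h => by rw [h, b2] at b1; exact hd.ne b1.symm) (by simp only [a1, b1])
    (by simp only [a2, b2]) hγ
  obtain ⟨ρ₂, hρ₂, hu₂⟩ := unifR hG one_pos
  obtain ⟨M', x, hx, hxd⟩ := dense_walk hK hc (lt_min hρ hρ₂) s1 e1
  have G0' : ∀ p, 0 ≤ G p := fun p => by
    obtain ⟨i, -, a, -⟩ := hGx p; exact (Nat.cast_nonneg i).trans a
  have fl : ∀ p q, |G p - G q| ≤ 1 → ⌊G q⌋₊ ≤ ⌊G p⌋₊ + 1 := fun p q h => by
    rw [← Nat.floor_add_one (G0' p)]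
    exact Nat.floor_mono (by linarith [(abs_le.1 h).1])
  have st : ∀ j, |G (x j) - G (x (j + 1))| ≤ 1 := fun j =>
    hu₂ _ _ ((hx.2.2.2 j).trans (min_le_right _ _))
  refine ⟨M', fun j => (x j, w ⌊G (x j)⌋₊), ⟨?_, fun j hj => ?_, fun j => ⟨hx.2.2.1 j,
    hw.2.2.1 _, ?_⟩, fun j => ?_⟩, fun p hp => ?_, fun q hq => ?_⟩
  · simp [hx.1, G0, hw.1]
  · simp only [hx.2.1 j hj, GM, Nat.floor_natCast, wM]
  · obtain ⟨i, hi', a, b, c, d⟩ := hGx (x j)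
    have t1 : |clamp lo hi (ψ (w i)) - clamp lo hi (ψ (w (i + 1)))| ≤ γ :=
      (clamp_lip _ _ _ _).trans (hu₁ _ _ ((hw.2.2.2 i).trans (min_le_right _ _)))
    have t2 : |clamp lo hi (φ (x j)) - clamp lo hi (ψ (w ⌊G (x j)⌋₊))| ≤ γ + γ := by
      have c1 : i ≤ ⌊G (x j)⌋₊ := Nat.le_floor a
      have c2 : ⌊G (x j)⌋₊ ≤ i + 1 := Nat.floor_le_of_le (by exact_mod_cast b)
      rcases c1.eq_or_lt with h | h
      · rw [← h]; exact (seg_close t1 c d).1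
      · rw [show ⌊G (x j)⌋₊ = i + 1 by omega]; exact (seg_close t1 c d).2
    have t3 : |φ (x j) - clamp lo hi (φ (x j))| ≤ 4 * γ :=
      clamp_close hd.le (by linarith) (by linarith [(φr _ (hx.2.2.1 j)).1])
        (by linarith [(φr _ (hx.2.2.1 j)).2])
    have t4 : |ψ (w ⌊G (x j)⌋₊) - clamp lo hi (ψ (w ⌊G (x j)⌋₊))| ≤ 3 * γ :=
      clamp_close hd.le (by linarith) (by linarith [ms2 _ (hw.2.2.1 ⌊G (x j)⌋₊)])
        (by linarith [me2 _ (hw.2.2.1 ⌊G (x j)⌋₊)])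
    rw [abs_le] at t2 t3 t4 ⊢
    constructor <;> linarith [t2.1, t2.2, t3.1, t3.2, t4.1, t4.2]
  · rw [Prod.dist_eq]
    refine max_le ((hx.2.2.2 j).trans (min_le_left _ _)) ?_
    have c1 := fl _ _ (st j)
    have c2 := fl (x (j + 1)) (x j) (by rw [abs_sub_comm]; exact st j)
    simp only
    rcases lt_trichotomy ⌊G (x j)⌋₊ ⌊G (x (j + 1))⌋₊ with h | h | h
    · rw [show ⌊G (x (j + 1))⌋₊ = ⌊G (x j)⌋₊ + 1 by omega]
      exact (hw.2.2.2 _).trans (min_le_left _ _)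
    · rw [h]; simpa using hρ.le
    · rw [show ⌊G (x j)⌋₊ = ⌊G (x (j + 1))⌋₊ + 1 by omega, dist_comm]
      exact (hw.2.2.2 _).trans (min_le_left _ _)
  · obtain ⟨n, hn⟩ := hxd p hp
    exact ⟨n, hn.trans (min_le_left _ _)⟩
  · obtain ⟨n, hn⟩ := hwd q hq
    have hn' : w (min n M) = w n := by
      rcases le_total n M with h | h
      · rw [min_eq_left h]
      · rw [min_eq_right h, wM, hw.2.1 n (by omega)]
    obtain ⟨j, hj⟩ := nat_ivt (u := fun j => ⌊G (x j)⌋₊) (by simp [hx.1, G0])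
      (fun j => fl _ _ (st j)) M' (min n M)
      (by simp only [hx.2.1 M' le_rfl, GM, Nat.floor_natCast]; omega)
    refine ⟨j, ?_⟩
    simp only at hj ⊢
    rw [hj, hn']; exact hn.trans (min_le_left _ _)

lemma seg2 (hX : HI X) {K K' : Set X} (hK : IsCompact K) (hc : IsPreconnected K)
    (hK' : IsCompact K') (hc' : IsPreconnected K') {φ ψ : X → ℝ} (hφ : Continuous φ)
    (hψ : Continuous ψ) {γ : ℝ} (hγ : 0 < γ) (r1 : ∀ p ∈ K, ∃ q ∈ K', |φ p - ψ q| ≤ γ)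
    (r2 : ∀ q ∈ K', ∃ p ∈ K, |φ p - ψ q| ≤ γ) {s e : X × X} (s1 : s.1 ∈ K) (s2 : s.2 ∈ K')
    (e1 : e.1 ∈ K) (e2 : e.2 ∈ K') (ms1 : ∀ p ∈ K, φ s.1 ≤ φ p + γ) (ms2 : ∀ q ∈ K', ψ s.2 ≤ ψ q + γ)
    (me1 : ∀ p ∈ K, φ e.1 ≤ φ p + γ) (me2 : ∀ q ∈ K', ψ e.2 ≤ ψ q + γ) {ρ : ℝ} (hρ : 0 < ρ) :
    ∃ M c, IsWalk {z : X × X | z.1 ∈ K ∧ z.2 ∈ K' ∧ |φ z.1 - ψ z.2| ≤ 9 * γ} ρ s e M c ∧
      (∀ p ∈ K, ∃ n, dist p (c n).1 ≤ ρ) ∧ ∀ q ∈ K', ∃ n, dist q (c n).2 ≤ ρ := by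
  obtain ⟨a, ha, hma⟩ := hK.exists_isMaxOn ⟨_, s1⟩ hφ.continuousOn
  obtain ⟨b, hb, hmb⟩ := hK'.exists_isMaxOn ⟨_, s2⟩ hψ.continuousOn
  have ma : ∀ p ∈ K, φ p ≤ φ a + γ := fun p hp => by linarith [show φ p ≤ φ a from hma hp]
  have mb : ∀ p ∈ K', ψ p ≤ ψ b + γ := fun p hp => by linarith [show ψ p ≤ ψ b from hmb hp]
  obtain ⟨M, c, h, d1, d2⟩ := seg hX hK hc hK' hc' hφ hψ hγ r1 r2 (s := s) (e := (a, b)) s1 s2 ha hb
    ms1 ms2 ma mb hρ
  have ng : ∀ p q, |- φ p - - ψ q| = |φ p - ψ q| := fun p q => by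
    rw [show - φ p - - ψ q = - (φ p - ψ q) by ring, abs_neg]
  obtain ⟨M', c', h', -⟩ := seg hX hK hc hK' hc' (φ := fun p => - φ p) (ψ := fun p => - ψ p)
    hφ.neg hψ.neg hγ (by simpa only [ng] using r1) (by simpa only [ng] using r2)
    (s := (a, b)) (e := e) ha hb e1 e2 (fun p hp => by linarith [ma p hp])
    (fun p hp => by linarith [mb p hp]) (fun p hp => by linarith [me1 p hp])
    (fun p hp => by linarith [me2 p hp]) hρ
  simp only [ng] at h'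
  obtain ⟨N, C, hC, f1, -⟩ := h.trans h'
  refine ⟨N, C, hC, fun p hp => ?_, fun p hp => ?_⟩
  · obtain ⟨j, hj⟩ := d1 p hp
    obtain ⟨n, hn⟩ := f1 j
    exact ⟨n, by rwa [hn]⟩
  · obtain ⟨j, hj⟩ := d2 p hp
    obtain ⟨n, hn⟩ := f1 j
    exact ⟨n, by rwa [hn]⟩

end Pool.Agent.MP_1ac210_gt.H95
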