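import Pool.Agent.MP_1ac210_gt.H95.Walk

/-! A Whitney map and the continua of prescribed size through a point. -/

open Set Metric Filter Topology TopologicalSpace

namespace Pool.Agent.MP_1ac210_gt.H95

set_option linter.unusedSectionVars false

variable {X : Type} [MetricSpace X] [CompactSpace X] [ConnectedSpace X] [Nontrivial X]

/-- Every point of `K` is within `ρ` of `L`. -/
def Near (K L : Set X) (ρ : ℝ) : Prop := ∀ p ∈ K, ∃ q ∈ L, dist p q ≤ ρ

/-- Subcontinua. -/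
def Cont (K : Set X) : Prop := IsClosed K ∧ IsConnected K

lemma Near.of_subset {K L : Set X} (h : K ⊆ L) {ρ : ℝ} (hρ : 0 ≤ ρ) : Near K L ρ :=
  fun p hp => ⟨p, h hp, by simpa using hρ⟩

lemma Near.mono {K L : Set X} {ρ ρ' : ℝ} (h : Near K L ρ) (hρ : ρ ≤ ρ') : Near K L ρ' :=
  fun p hp => let ⟨q, a, b⟩ := h p hp; ⟨q, a, b.trans hρ⟩

lemma Near.left {K K' L : Set X} {ρ : ℝ} (h : Near K L ρ) (hK : K' ⊆ K) : Near K' L ρ :=
  fun p hp => h p (hK hp)

lemma Near.right {K L L' : Set X} {ρ : ℝ} (h : Near K L ρ) (hL : L ⊆ L') : Near K L' ρ :=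
  fun p hp => let ⟨q, a, b⟩ := h p hp; ⟨q, hL a, b⟩

lemma Near.trans {K L J : Set X} {ρ ρ' : ℝ} (h : Near K L ρ) (h' : Near L J ρ') :
    Near K J (ρ + ρ') := fun p hp => by
  obtain ⟨q, a, b⟩ := h p hp
  obtain ⟨r, c, d⟩ := h' q a
  exact ⟨r, c, by linarith [dist_triangle p q r]⟩

lemma mem_of_near {L : Set X} (hL : IsClosed L) {p : X} (h : ∀ ε > 0, ∃ q ∈ L, dist p q ≤ ε) :
    p ∈ L := by
  rw [← hL.closure_eq, Metric.mem_closure_iff]
  intro ε hε
  obtain ⟨q, a, b⟩ := h (ε / 2) (by linarith)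
  exact ⟨q, a, by linarith⟩

lemma Cont.image {K : Set X} (h : Cont K) (z : X ≃ₜ X) : Cont (z '' K) :=
  ⟨z.isClosedMap _ h.1, h.2.image _ z.continuous.continuousOn⟩

lemma cont_singleton (x : X) : Cont {x} := ⟨isClosed_singleton, isConnected_singleton⟩

lemma cont_univ : Cont (univ : Set X) := ⟨isClosed_univ, isConnected_univ⟩

/-- One term of the Whitney map. -/
noncomputable def tm (n : ℕ) (K : Set X) : ℝ := diam ((fun p => dist (denseSeq X n) p) '' K)

/-- The Whitney map. -/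
noncomputable def mu (K : Set X) : ℝ := ∑' n, (1 / 2 : ℝ) ^ n * tm n K

lemma tm_ge (n : ℕ) {K : Set X} {p q : X} (hp : p ∈ K) (hq : q ∈ K) :
    |dist (denseSeq X n) p - dist (denseSeq X n) q| ≤ tm n K := by
  have hb : Bornology.IsBounded ((fun p => dist (denseSeq X n) p) '' K) :=
    ((isCompact_univ.image (by fun_prop)).isBounded).subset (image_mono (subset_univ K))
  exact dist_le_diam_of_mem hb (mem_image_of_mem _ hp) (mem_image_of_mem _ hq)

lemma tm_le (n : ℕ) {K : Set X} {C : ℝ} (hC : 0 ≤ C ∨ K.Nonempty)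
    (h : ∀ p ∈ K, ∀ q ∈ K, |dist (denseSeq X n) p - dist (denseSeq X n) q| ≤ C) : tm n K ≤ C := by
  have hC' : 0 ≤ C := by
    rcases hC with a | ⟨p, hp⟩
    · exact a
    · simpa using h p hp p hp
  refine diam_le_of_forall_dist_le hC' ?_
  rintro _ ⟨p, hp, rfl⟩ _ ⟨q, hq, rfl⟩
  exact h p hp q hq

lemma tm_nonneg (n : ℕ) (K : Set X) : 0 ≤ tm n K := diam_nonneg

lemma abs_dist (u p q : X) : |dist u p - dist u q| ≤ dist p q := by
  rw [dist_comm u p, dist_comm u q]; exact abs_dist_sub_le p q u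

lemma tm_near (n : ℕ) {K L : Set X} {ρ : ℝ} (hρ : 0 ≤ ρ) (h : Near K L ρ) :
    tm n K ≤ tm n L + 2 * ρ := by
  refine tm_le n (Or.inl (by linarith [tm_nonneg n L])) fun p hp q hq => ?_
  obtain ⟨p', a, b⟩ := h p hp
  obtain ⟨q', c, d⟩ := h q hq
  have e := abs_le.1 (tm_ge n a c)
  have f := abs_le.1 (abs_dist (denseSeq X n) p p')
  have g := abs_le.1 (abs_dist (denseSeq X n) q q')
  rw [abs_le]; constructor <;> linarith [e.1, e.2, f.1, f.2, g.1, g.2]

lemma summable_tm (K : Set X) : Summable fun n => (1 / 2 : ℝ) ^ n * tm n K := by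
  refine Summable.of_nonneg_of_le (fun n => mul_nonneg (by positivity) (tm_nonneg n K))
    (fun n => mul_le_mul_of_nonneg_left (c := diam (univ : Set X)) ?_ (by positivity))
    (summable_geometric_two.mul_right _)
  exact tm_le n (Or.inl diam_nonneg) fun p _ q _ => (abs_dist _ p q).trans
    (dist_le_diam_of_mem isBounded_of_compactSpace trivial trivial)

lemma mu_nonneg (K : Set X) : 0 ≤ mu K :=
  tsum_nonneg fun n => mul_nonneg (by positivity) (tm_nonneg n K)

lemma hasSum_diff (K L : Set X) (ρ : ℝ) : HasSum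
    (fun n => (1 / 2 : ℝ) ^ n * (tm n L + 2 * ρ - tm n K)) (mu L + 4 * ρ - mu K) := by
  have := ((summable_tm L).hasSum.add (hasSum_geometric_two.mul_right (2 * ρ))).sub
    (summable_tm K).hasSum
  have e1 : (fun n => (1 / 2 : ℝ) ^ n * (tm n L + 2 * ρ - tm n K)) = fun n =>
      (1 / 2 : ℝ) ^ n * tm n L + (1 / 2 : ℝ) ^ n * (2 * ρ) - (1 / 2 : ℝ) ^ n * tm n K := by
    funext n; ring
  have e2 : mu L + 4 * ρ - mu K = mu L + 2 * (2 * ρ) - mu K := by ring
  rw [e1, e2]; exact this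

lemma mu_near {K L : Set X} {ρ : ℝ} (hρ : 0 ≤ ρ) (h : Near K L ρ) : mu K ≤ mu L + 4 * ρ := by
  have := (hasSum_diff K L ρ).nonneg fun n =>
    mul_nonneg (by positivity) (by linarith [tm_near n hρ h])
  linarith

lemma mu_mono {K L : Set X} (h : K ⊆ L) : mu K ≤ mu L := by
  simpa using mu_near le_rfl (Near.of_subset h le_rfl)

lemma mu_singleton (x : X) : mu ({x} : Set X) = 0 := by simp [mu, tm]

lemma cpt {ε : ℝ} (hε : 0 < ε) : ∃ ε₁ > 0, ∀ K B : Set X, K.Nonempty → Near K B ε₁ →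
    mu B ≤ mu K + ε₁ → Near B K ε := by
  obtain ⟨t, ht⟩ := isCompact_univ.elim_finite_subcover (fun n => ball (denseSeq X n) (ε / 4))
    (fun _ => isOpen_ball) (fun p _ => by
      obtain ⟨n, hn⟩ := (denseRange_denseSeq X).exists_dist_lt p (show 0 < ε / 4 by linarith)
      exact mem_iUnion.2 ⟨n, hn⟩)
  set κ := (1 / 2 : ℝ) ^ (t.sup id) * (ε / 2) with hκ
  have κ0 : 0 < κ := by positivity
  refine ⟨κ / 6, by linarith, fun K B hK hn hmu p hp => ?_⟩
  by_contra hcon
  push Not at hcon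
  obtain ⟨n, hnt, hpn⟩ := mem_iUnion₂.1 (ht (mem_univ p))
  rw [mem_ball, dist_comm] at hpn
  have h1 : tm n K ≤ tm n B + κ / 6 - ε / 2 := by
    have key : ∀ q ∈ K, ∀ q' ∈ K,
        dist (denseSeq X n) q - dist (denseSeq X n) q' ≤ tm n B + κ / 6 - ε / 2 := by
      intro q hq q' hq'
      obtain ⟨b, hb, hqb⟩ := hn q hq
      have a1 := (abs_le.1 (tm_ge n hb hp)).2
      have a2 := (abs_le.1 (abs_dist (denseSeq X n) q b)).2
      have a3 := hcon q' hq'
      have a4 := (abs_le.1 (abs_dist q' p (denseSeq X n))).2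
      rw [dist_comm q' p, dist_comm q', dist_comm p (denseSeq X n)] at a4
      linarith
    refine tm_le n (Or.inr hK) fun q hq q' hq' => abs_le.2 ⟨?_, key q hq q' hq'⟩
    linarith [key q' hq' q hq]
  have h2 := le_hasSum (hasSum_diff K B (κ / 6)) n fun j _ =>
    mul_nonneg (by positivity) (by linarith [tm_near j (by linarith) hn])
  have h3 : (1 / 2 : ℝ) ^ (t.sup id) ≤ (1 / 2 : ℝ) ^ n :=
    pow_le_pow_of_le_one (by norm_num) (by norm_num) (Finset.le_sup (f := id) hnt)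
  have h4 : κ ≤ (1 / 2 : ℝ) ^ n * (tm n B + 2 * (κ / 6) - tm n K) :=
    mul_le_mul h3 (by linarith) (by linarith) (by positivity)
  linarith

lemma eq_of_mu {K B : Set X} (hK : IsClosed K) (hne : K.Nonempty) (h : K ⊆ B) (hm : mu B ≤ mu K) :
    K = B := by
  refine h.antisymm fun p hp => mem_of_near hK fun ε hε => ?_
  obtain ⟨ε₁, h1, h2⟩ := cpt (X := X) hε
  exact h2 K B hne (Near.of_subset h h1.le) (by linarith) p hp

lemma small {ε : ℝ} (hε : 0 < ε) : ∃ ε₁ > 0, ∀ B : Set X, mu B ≤ ε₁ →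
    ∀ p ∈ B, ∀ q ∈ B, dist p q ≤ ε := by
  obtain ⟨ε₁, h1, h2⟩ := cpt (X := X) hε
  refine ⟨ε₁, h1, fun B hB p hp q hq => ?_⟩
  obtain ⟨r, rfl, h⟩ := h2 {q} B (singleton_nonempty q)
    (Near.of_subset (singleton_subset_iff.2 hq) h1.le) (by rw [mu_singleton]; linarith) p hp
  exact h

lemma mu_pos {K : Set X} {p q : X} (hp : p ∈ K) (hq : q ∈ K) (h : p ≠ q) : 0 < mu K := by
  by_contra hn
  have := eq_of_mu isClosed_singleton (singleton_nonempty q) (singleton_subset_iff.2 hq)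
    (by rw [mu_singleton]; linarith)
  rw [← this] at hp
  exact h hp

lemma mu_univ_pos : 0 < mu (univ : Set X) := by
  obtain ⟨a, b, h⟩ := exists_pair_ne X
  exact mu_pos trivial trivial h

lemma bump {K : Set X} (hK : Cont K) (hne : K ≠ univ) {ε : ℝ} (hε : 0 < ε) :
    ∃ K', Cont K' ∧ K ⊆ K' ∧ K ≠ K' ∧ Near K' K ε := by
  obtain ⟨y, hy⟩ := (ne_univ_iff_exists_notMem K).1 hne
  obtain ⟨x, hx⟩ := hK.2.nonempty
  have hpos : 0 < infDist y K := (hK.1.notMem_iff_infDist_pos ⟨x, hx⟩).1 hy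
  set e := min (ε / 2) (infDist y K) with he
  have e0 : 0 < e := lt_min (by linarith) hpos
  have hc : Continuous fun p => infDist p K := continuous_infDist_pt K
  have hS : IsClosed {p | infDist p K ≤ e} := isClosed_le hc continuous_const
  have hKS : K ⊆ {p | infDist p K ≤ e} := fun p hp => by
    simp only [mem_ofPred_eq, infDist_zero_of_mem hp]; exact e0.le
  refine ⟨connectedComponentIn {p | infDist p K ≤ e} x, ⟨isClosed_ccIn hS x,
    isConnected_connectedComponentIn_iff.2 (hKS hx)⟩,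
    hK.2.isPreconnected.subset_connectedComponentIn hx hKS, fun hEq => ?_, fun p hp => ?_⟩
  · obtain ⟨O, hO, hxO, hd⟩ := sep (T := {p | e ≤ infDist p K}) hS (isClosed_le continuous_const hc)
      (hKS hx) (by
        rw [← hEq, disjoint_left]
        intro p hp hp'
        simp only [mem_ofPred_eq, infDist_zero_of_mem hp] at hp'
        linarith)
    have hop : IsOpen O := by
      have : O = {p | infDist p K < e} ∩ ({p | infDist p K ≤ e} \ O)ᶜ := by
        ext p; constructor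
        · intro hp
          exact ⟨show infDist p K < e from not_le.1 (disjoint_left.1 hd hp), fun h => h.2 hp⟩
        · rintro ⟨a, b⟩
          by_contra hn
          have a' : infDist p K < e := a
          exact b ⟨show infDist p K ≤ e from a'.le, hn⟩
      rw [this]
      exact (isOpen_lt hc continuous_const).inter hO.2.2.isOpen_compl
    have := IsClopen.eq_univ ⟨hO.2.1, hop⟩ ⟨x, hxO⟩
    exact disjoint_left.1 hd (this ▸ mem_univ y) (show e ≤ infDist y K from min_le_right _ _)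
  · have h0 : p ∈ {p | infDist p K ≤ e} := connectedComponentIn_subset _ _ hp
    have h1 : infDist p K ≤ e := h0
    obtain ⟨q, a, b⟩ := (infDist_lt_iff ⟨x, hx⟩).1
      (show infDist p K < ε by linarith [min_le_left (ε / 2) (infDist y K)])
    exact ⟨q, a, b.le⟩

/-- The continuum of size `r` through `x`. -/
def A (x : X) (r : ℝ) : Set X := closure (⋃₀ {K | Cont K ∧ x ∈ K ∧ mu K ≤ max r 0})

lemma subset_A {K : Set X} {x : X} {r : ℝ} (hK : Cont K) (hx : x ∈ K) (h : mu K ≤ r) :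
    K ⊆ A x r :=
  (subset_sUnion_of_mem (show K ∈ {K | Cont K ∧ x ∈ K ∧ mu K ≤ max r 0} from
    ⟨hK, hx, h.trans (le_max_left _ _)⟩)).trans subset_closure

lemma A_max (x : X) (r : ℝ) : A x (max r 0) = A x r := by simp [A]

lemma mem_A (x : X) (r : ℝ) : x ∈ A x r := by
  rw [← A_max]
  exact subset_A (cont_singleton x) rfl (by rw [mu_singleton]; exact le_max_right _ _) rfl

lemma cont_A (x : X) (r : ℝ) : Cont (A x r) :=
  ⟨isClosed_closure, ⟨x, mem_A x r⟩, (isPreconnected_sUnion x _ (fun _ h => h.2.1)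
    fun _ h => h.1.2.isPreconnected).closure⟩

lemma A_mono (x : X) {r r' : ℝ} (h : r ≤ r') : A x r ⊆ A x r' :=
  closure_mono (sUnion_subset_sUnion fun _ hK =>
    ⟨hK.1, hK.2.1, hK.2.2.trans (max_le_max_right _ h)⟩)

lemma A_univ (x : X) {r : ℝ} (h : mu (univ : Set X) ≤ r) : A x r = univ :=
  eq_univ_of_univ_subset (subset_A cont_univ trivial h)

lemma HI.nest (hX : HI X) {K L : Set X} (hK : Cont K) (hL : Cont L) {x : X} (h : x ∈ K)
    (h' : x ∈ L) : K ⊆ L ∨ L ⊆ K := hX K L hK.1 hK.2 hL.1 hL.2 ⟨x, h, h'⟩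

lemma mu_A_le (hX : HI X) (x : X) (r : ℝ) : mu (A x r) ≤ max r 0 := by
  have fin : ∀ T : Finset X, ∀ ε > 0, (∀ t ∈ T, t ∈ A x r) →
      ∃ K, (Cont K ∧ x ∈ K ∧ mu K ≤ max r 0) ∧ ∀ t ∈ T, ∃ q ∈ K, dist t q ≤ ε := by
    classical
    intro T ε hε
    induction T using Finset.induction_on with
    | empty =>
      exact fun _ => ⟨{x}, ⟨cont_singleton x, rfl, by rw [mu_singleton]; exact le_max_right _ _⟩,
        by simp⟩
    | insert t T _ ih =>
      intro hT
      obtain ⟨K, hK, h1⟩ := ih fun s hs => hT s (Finset.mem_insert_of_mem hs)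
      obtain ⟨q, ⟨L, hL, hq⟩, h2⟩ :=
        Metric.mem_closure_iff.1 (hT t (Finset.mem_insert_self _ _)) ε hε
      rcases hX.nest hK.1 hL.1 hK.2.1 hL.2.1 with h | h
      · refine ⟨L, hL, fun s hs => ?_⟩
        rcases Finset.mem_insert.1 hs with rfl | hs
        · exact ⟨q, hq, h2.le⟩
        · obtain ⟨q', a, b⟩ := h1 s hs; exact ⟨q', h a, b⟩
      · refine ⟨K, hK, fun s hs => ?_⟩
        rcases Finset.mem_insert.1 hs with rfl | hs
        · exact ⟨q, h hq, h2.le⟩
        · exact h1 s hs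
  refine le_of_forall_pos_le_add fun ε hε => ?_
  obtain ⟨T, hT, hfin, hcov⟩ := finite_cover_balls_of_compact (cont_A x r).1.isCompact
    (show 0 < ε / 8 by linarith)
  obtain ⟨K, hK, h1⟩ := fin hfin.toFinset (ε / 8) (by linarith)
    fun t ht => hT (by simpa using ht)
  have : Near (A x r) K (ε / 8 + ε / 8) := fun p hp => by
    obtain ⟨t, ht, hpt⟩ := mem_iUnion₂.1 (hcov hp)
    obtain ⟨q, a, b⟩ := h1 t (by simpa using ht)
    exact ⟨q, a, by linarith [dist_triangle p t q, mem_ball.1 hpt]⟩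
  linarith [mu_near (by linarith) this, hK.2.2]

lemma mu_A (hX : HI X) (x : X) {r : ℝ} (h0 : 0 ≤ r) (h1 : r ≤ mu (univ : Set X)) :
    mu (A x r) = r := by
  refine le_antisymm ((mu_A_le hX x r).trans (max_le le_rfl h0)) ?_
  by_contra hn
  push Not at hn
  obtain ⟨K, hK, a, b, c⟩ := bump (cont_A x r) (fun h => by rw [h] at hn; linarith)
    (show 0 < (r - mu (A x r)) / 4 by linarith)
  exact b (a.antisymm (subset_A hK (a (mem_A x r)) (by linarith [mu_near (by linarith) c])))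

lemma A_eq (hX : HI X) {K : Set X} (hK : Cont K) {x : X} (hx : x ∈ K) : A x (mu K) = K :=
  (eq_of_mu hK.1 ⟨x, hx⟩ (subset_A hK hx le_rfl)
    ((mu_A_le hX x _).trans (max_le le_rfl (mu_nonneg K)))).symm

lemma A_subset (hX : HI X) {K : Set X} (hK : Cont K) {x : X} (hx : x ∈ K) {r : ℝ} (h : r ≤ mu K) :
    A x r ⊆ K := (A_mono x h).trans (A_eq hX hK hx).subset

lemma A_congr (hX : HI X) {x x' : X} {r : ℝ} (h : x' ∈ A x r) : A x' r = A x r := by
  have key : ∀ x x' : X, x' ∈ A x r → A x r ⊆ A x' r := fun x x' h => by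
    rw [← A_max x']; exact subset_A (cont_A x r) h (mu_A_le hX x r)
  exact (key x' x (key x x' h (mem_A x r))).antisymm (key x x' h)

lemma A_clamp (x : X) (r : ℝ) : A x (clamp 0 (mu (univ : Set X)) r) = A x r := by
  unfold clamp
  rw [max_comm, A_max]
  rcases le_total r (mu (univ : Set X)) with h | h
  · rw [min_eq_left h]
  · rw [min_eq_right h, A_univ x le_rfl, A_univ x h]

lemma unif_inj {Y Z : Type} [MetricSpace Y] [MetricSpace Z] {T : Set Y} (hT : IsCompact T)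
    {Φ : Y → Z} (hΦ : Continuous Φ) (hi : InjOn Φ T) {ε : ℝ} (hε : 0 < ε) :
    ∃ ρ > 0, ∀ a ∈ T, ∀ b ∈ T, dist (Φ a) (Φ b) ≤ ρ → dist a b < ε := by
  have hD : IsCompact ((T ×ˢ T) ∩ {p : Y × Y | ε ≤ dist p.1 p.2}) :=
    (hT.prod hT).inter_right (isClosed_le continuous_const (by fun_prop))
  rcases ((T ×ˢ T) ∩ {p : Y × Y | ε ≤ dist p.1 p.2}).eq_empty_or_nonempty with h | h
  · refine ⟨1, one_pos, fun a ha b hb _ => ?_⟩
    by_contra hn
    exact h.subset (show (a, b) ∈ _ from ⟨⟨ha, hb⟩, not_lt.1 hn⟩)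
  · obtain ⟨p, hp, hmin⟩ := hD.exists_isMinOn h
      (f := fun p : Y × Y => dist (Φ p.1) (Φ p.2)) (by fun_prop)
    have hpos : 0 < dist (Φ p.1) (Φ p.2) := dist_pos.2 fun e => by
      have h1 := hi hp.1.1 hp.1.2 e
      have h2 : ε ≤ dist p.1 p.2 := hp.2
      rw [h1, dist_self] at h2; linarith
    refine ⟨dist (Φ p.1) (Φ p.2) / 2, by linarith, fun a ha b hb hab => ?_⟩
    by_contra hn
    have : dist (Φ p.1) (Φ p.2) ≤ dist (Φ a) (Φ b) :=
      hmin (show (a, b) ∈ _ from ⟨⟨ha, hb⟩, not_lt.1 hn⟩)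
    linarith

lemma near_of_dist {K L : NonemptyCompacts X} {ε : ℝ} (h : dist K L < ε) :
    Near (K : Set X) L ε := fun p hp => by
  obtain ⟨q, a, b⟩ := exists_dist_lt_of_hausdorffDist_lt hp h
    (hausdorffEDist_ne_top_of_nonempty_of_bounded K.nonempty L.nonempty K.isCompact.isBounded
      L.isCompact.isBounded)
  exact ⟨q, a, b.le⟩

lemma isClosed_conn : IsClosed {K : NonemptyCompacts X | IsPreconnected (K : Set X)} := by
  refine isClosed_of_closure_subset fun L hL => ?_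
  simp only [mem_ofPred_eq]
  rw [isPreconnected_iff_subset_of_fully_disjoint_closed L.isCompact.isClosed]
  intro u v hu hv hs hd
  obtain ⟨δ, hδ, hth⟩ := hd.exists_thickenings hu.isCompact hv
  obtain ⟨K, hK, hLK⟩ := Metric.mem_closure_iff.1 hL (δ / 2) (by linarith)
  have n1 := near_of_dist hLK
  have n2 := near_of_dist (K := K) (L := L) (by rwa [dist_comm])
  have hcov : (K : Set X) ⊆ thickening δ u ∪ thickening δ v := fun p hp => by
    obtain ⟨q, a, b⟩ := n2 p hp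
    rcases hs a with c | c
    · exact Or.inl (mem_thickening_iff.2 ⟨q, c, by linarith⟩)
    · exact Or.inr (mem_thickening_iff.2 ⟨q, c, by linarith⟩)
  rcases IsPreconnected.subset_or_subset isOpen_thickening isOpen_thickening hth hcov hK with h | h
  · refine Or.inl fun p hp => (hs hp).resolve_right fun c => ?_
    obtain ⟨q, a, b⟩ := n1 p hp
    exact disjoint_left.1 hth (h a) (mem_thickening_iff.2 ⟨p, c, by rw [dist_comm]; linarith⟩)
  · refine Or.inr fun p hp => (hs hp).resolve_left fun c => ?_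
    obtain ⟨q, a, b⟩ := n1 p hp
    exact disjoint_left.1 hth (mem_thickening_iff.2 ⟨p, c, by rw [dist_comm]; linarith⟩) (h a)

lemma A_unif (hX : HI X) {ε : ℝ} (hε : 0 < ε) : ∃ ρ > 0, ∀ (x x' : X) (r r' : ℝ),
    dist x x' ≤ ρ → r ≤ r' + ρ → Near (A x r) (A x' r') ε := by
  have hT : IsClosed {p : X × NonemptyCompacts X | infDist p.1 p.2 = 0 ∧
      IsPreconnected (p.2 : Set X)} :=
    (isClosed_eq (lipschitz_infDist (α := X)).continuous continuous_const).inter
      (isClosed_conn.preimage continuous_snd)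
  have hmu : Continuous fun K : NonemptyCompacts X => mu (K : Set X) := by
    rw [Metric.continuous_iff]
    intro K η hη
    refine ⟨η / 5, by linarith, fun L hL => ?_⟩
    have a := mu_near (by linarith) (near_of_dist hL)
    have b := mu_near (by linarith)
      (near_of_dist (K := K) (L := L) (ε := η / 5) (by rwa [dist_comm]))
    rw [Real.dist_eq, abs_lt]; constructor <;> linarith
  obtain ⟨ρ, hρ, h⟩ := unif_inj hT.isCompact
    (Φ := fun p : X × NonemptyCompacts X => (p.1, mu (p.2 : Set X)))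
    (continuous_fst.prodMk (hmu.comp continuous_snd)) (by
      rintro ⟨x, K⟩ ⟨a, b⟩ ⟨x', K'⟩ ⟨a', b'⟩ e
      simp only [Prod.mk.injEq] at e ⊢
      obtain ⟨rfl, e⟩ := e
      refine ⟨rfl, NonemptyCompacts.ext ?_⟩
      have c := (K.isCompact.isClosed.mem_iff_infDist_zero K.nonempty).2 a
      have c' := (K'.isCompact.isClosed.mem_iff_infDist_zero K'.nonempty).2 a'
      rw [← A_eq hX ⟨K.isCompact.isClosed, K.nonempty, b⟩ c, e,
        A_eq hX ⟨K'.isCompact.isClosed, K'.nonempty, b'⟩ c']) hε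
  refine ⟨ρ, hρ, fun x x' r r' h1 h2 => ?_⟩
  let N : X → ℝ → NonemptyCompacts X := fun x r =>
    ⟨⟨A x r, (cont_A x r).1.isCompact⟩, ⟨x, mem_A x r⟩⟩
  have hm : ∀ (x : X) (r : ℝ), mu (A x r) = clamp 0 (mu (univ : Set X)) r := fun x r => by
    rw [← A_clamp]
    exact mu_A hX x (clamp_mem (mu_nonneg _) r).1 (clamp_mem (mu_nonneg _) r).2
  have := h (x, N x (r' + ρ)) ⟨infDist_zero_of_mem (mem_A x _), (cont_A x _).2.isPreconnected⟩
    (x', N x' r') ⟨infDist_zero_of_mem (mem_A x' _), (cont_A x' _).2.isPreconnected⟩ (by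
      rw [Prod.dist_eq]
      refine max_le h1 ?_
      show |mu (A x (r' + ρ)) - mu (A x' r')| ≤ ρ
      rw [hm, hm]
      exact (clamp_lip _ _ _ _).trans (by simp [abs_of_pos hρ]))
  exact (near_of_dist ((le_max_right _ _).trans_lt this)).left (A_mono x h2)

lemma isClosed_A (hX : HI X) : IsClosed {p : X × ℝ × X | p.2.2 ∈ A p.1 p.2.1} := by
  refine isClosed_of_closure_subset fun p hp => mem_of_near (cont_A _ _).1 fun ε hε => ?_
  obtain ⟨ρ, hρ, h⟩ := A_unif hX (half_pos hε)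
  obtain ⟨q, hq, hpq⟩ := Metric.mem_closure_iff.1 hp (min ρ (ε / 2)) (lt_min hρ (half_pos hε))
  rw [Prod.dist_eq, Prod.dist_eq, max_lt_iff, max_lt_iff, Real.dist_eq] at hpq
  obtain ⟨a, b, c⟩ := hpq
  obtain ⟨w, w1, w2⟩ := h q.1 p.1 q.2.1 p.2.1
    (by rw [dist_comm]; exact a.le.trans (min_le_left _ _))
    (by linarith [(abs_lt.1 b).1, min_le_left ρ (ε / 2)]) _ hq
  exact ⟨w, w1, by linarith [dist_triangle p.2.2 q.2.2 w, min_le_right ρ (ε / 2)]⟩

lemma Near.image {z : X → X} {K L : Set X} {ρ ε : ℝ} (h : Near K L ρ)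
    (hz : ∀ p q, dist p q ≤ ρ → dist (z p) (z q) ≤ ε) : Near (z '' K) (z '' L) ε := by
  rintro _ ⟨p, hp, rfl⟩
  obtain ⟨q, a, b⟩ := h p hp
  exact ⟨_, mem_image_of_mem _ a, hz _ _ b⟩

lemma near_image {z z' : X → X} {ρ : ℝ} (h : ∀ p, dist (z p) (z' p) ≤ ρ) (K : Set X) :
    Near (z '' K) (z' '' K) ρ := by
  rintro _ ⟨p, hp, rfl⟩
  exact ⟨_, mem_image_of_mem _ hp, h p⟩

lemma continuous_mu_A (hX : HI X) {z : X → X} (hz : Continuous z) :
    Continuous fun p : X × ℝ => mu (z '' A p.1 p.2) := by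
  rw [Metric.continuous_iff]
  intro p ε hε
  obtain ⟨ρ₁, h1, h2⟩ := unif hz (show 0 < ε / 5 by linarith)
  obtain ⟨ρ, h3, h4⟩ := A_unif hX h1
  refine ⟨ρ, h3, fun q hq => ?_⟩
  rw [Prod.dist_eq, max_lt_iff, Real.dist_eq] at hq
  have a := mu_near (by linarith)
    ((h4 q.1 p.1 q.2 p.2 hq.1.le (by linarith [(abs_lt.1 hq.2).2])).image h2)
  have b := mu_near (by linarith) ((h4 p.1 q.1 p.2 q.2 (by rw [dist_comm]; exact hq.1.le)
    (by linarith [(abs_lt.1 hq.2).1])).image h2)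
  rw [Real.dist_eq, abs_lt]; constructor <;> linarith

end Pool.Agent.MP_1ac210_gt.H95
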